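import Pool.Agent.P.MP_7a6434d8_pr.QL.I.Defs
import Pool.Agent.P.MP_7a6434d8_pr.QL.NRecA

open MeasureTheory ProbabilityTheory Set Filter Topology Metric
open scoped ENNReal

namespace Pool.Agent.QL

open Pool.Agent.LGD

theorem qiVar_jensen {S : Type} [MeasurableSpace S] (μ : Measure S) [IsProbabilityMeasure μ]
    {f : S → ℝ≥0∞} (hf : Measurable f) : (∫⁻ s, f s ∂μ) ^ 2 ≤ ∫⁻ s, f s ^ 2 ∂μ := by
  have h := ENNReal.lintegral_mul_le_Lp_mul_Lq μ Real.HolderConjugate.two_two hf.aemeasurable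
    (aemeasurable_const (b := 1))
  have e : ∀ a : ℝ≥0∞, (a ^ (1 / 2 : ℝ)) ^ 2 = a := fun a => by
    rw [← ENNReal.rpow_two, ← ENNReal.rpow_mul]
    norm_num
  simp only [Pi.mul_apply, mul_one, ENNReal.one_rpow, lintegral_const, measure_univ,
    ENNReal.rpow_two, one_pow] at h
  rw [← e (∫⁻ s, f s ^ 2 ∂μ)]
  exact pow_le_pow_left' h 2

theorem qiVar_L2 {S : Type} [MeasurableSpace S] (μ : Measure S) {f : S → ℝ≥0∞}
    (hf : Measurable f) (h : ∫⁻ s, f s ^ 2 ∂μ ≠ ⊤) :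
    (∀ᵐ s ∂μ, f s < ⊤) ∧ MemLp (fun s => (f s).toReal) 2 μ ∧
      ∫ s, (f s).toReal ^ 2 ∂μ = (∫⁻ s, f s ^ 2 ∂μ).toReal := by
  have h1 := ae_lt_top (hf.pow_const 2) h
  refine ⟨h1.mono fun s hs => lt_top_iff_ne_top.2 fun k => by simp [k] at hs, ?_, ?_⟩
  · rw [memLp_two_iff_integrable_sq hf.ennreal_toReal.aestronglyMeasurable]
    simp only [← ENNReal.toReal_pow]
    exact integrable_toReal_of_lintegral_ne_top (hf.pow_const 2).aemeasurable h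
  · simp only [← ENNReal.toReal_pow]
    exact integral_toReal (hf.pow_const 2).aemeasurable h1

/-- A sum of many small, conditionally uncorrelated, local terms is deterministic. -/
theorem const_of_split {Ω S : Type} [MeasurableSpace Ω] [MeasurableSpace S] (μ : Measure Ω)
    [IsProbabilityMeasure μ] (κ : Kernel Ω S) [IsMarkovKernel κ] (Sm : ℝ → (Ω → ℝ) → Prop)
    (hreg : ∀ G : Ω → ℝ, MemLp G 2 μ → ∀ ε : ℝ, 0 < ε → ∃ r > 0, ∀ Y, Sm r Y → MemLp Y 2 μ →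
      |∫ k, Y k * G k ∂μ - (∫ k, Y k ∂μ) * ∫ k, G k ∂μ| ≤ ε * √(∫ k, Y k ^ 2 ∂μ))
    (Z : S → ℝ≥0∞) (hZ : Measurable Z) (B : ℝ≥0∞) (hB : B ≠ ⊤)
    (h : ∀ r : ℝ, 0 < r → ∃ (ι : Type) (J : Finset ι) (W : ι → S → ℝ≥0∞) (b : ℝ≥0∞),
      (∀ i ∈ J, Measurable (W i)) ∧ (∀ᵐ k ∂μ, ∀ᵐ s ∂κ k, Z s = ∑ i ∈ J, W i s) ∧
      (∀ i ∈ J, ∀ j ∈ J, i ≠ j → ∀ᵐ k ∂μ,
        ∫⁻ s, W i s * W j s ∂κ k = (∫⁻ s, W i s ∂κ k) * ∫⁻ s, W j s ∂κ k) ∧
      (∀ i ∈ J, ∫⁻ k, ∫⁻ s, W i s ^ 2 ∂κ k ∂μ ≤ b ^ 2) ∧ J.card * b ≤ B ∧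
      b ≤ ENNReal.ofReal r ∧
      ∀ i ∈ J, ∃ Y, Sm r Y ∧ Y =ᵐ[μ] fun k => (∫⁻ s, W i s ∂κ k).toReal) :
    ∃ c : ℝ≥0∞, c ≠ ⊤ ∧ ∀ᵐ k ∂μ, ∀ᵐ s ∂κ k, Z s = c := by
  classical
  have hg : Measurable fun k => ∫⁻ s, Z s ∂κ k := hZ.lintegral_kernel
  have sum : ∀ {ι : Type} (J : Finset ι) (W : ι → S → ℝ≥0∞), (∀ i ∈ J, Measurable (W i)) →
      (∀ᵐ k ∂μ, ∀ᵐ s ∂κ k, Z s = ∑ i ∈ J, W i s) →
      ∀ᵐ k ∂μ, ∫⁻ s, Z s ∂κ k = ∑ i ∈ J, ∫⁻ s, W i s ∂κ k := fun J W h1 h2 =>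
    h2.mono fun k hk => by rw [lintegral_congr_ae hk, lintegral_finsetSum J h1]
  have two : ∀ {W : S → ℝ≥0∞} {b : ℝ≥0∞}, Measurable W → ∫⁻ k, ∫⁻ s, W s ^ 2 ∂κ k ∂μ ≤ b ^ 2 →
      ∫⁻ k, (∫⁻ s, W s ∂κ k) ^ 2 ∂μ ≤ b ^ 2 := fun h1 h2 =>
    (lintegral_mono fun k => qiVar_jensen _ h1).trans h2
  have real : ∀ r : ℝ, 0 < r → ∃ (ι : Type) (J : Finset ι) (Y : ι → Ω → ℝ) (b : ℝ),
      (∀ i ∈ J, Sm r (Y i) ∧ MemLp (Y i) 2 μ ∧ √(∫ k, Y i k ^ 2 ∂μ) ≤ b) ∧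
      J.card * b ≤ B.toReal ∧ (∀ᵐ k ∂μ, ∫⁻ s, Z s ∂κ k < ⊤) ∧
      (fun k => (∫⁻ s, Z s ∂κ k).toReal) =ᵐ[μ] fun k => ∑ i ∈ J, Y i k := by
    intro r hr
    obtain ⟨ι, J, W, b, h1, h2, -, h4, h5, h6, h7⟩ := h r hr
    choose! Y hY hY' using h7
    have hb : b ^ 2 ≠ ⊤ := ENNReal.pow_ne_top (ne_top_of_le_ne_top ENNReal.ofReal_ne_top h6)
    have hL := fun i hi => qiVar_L2 μ (h1 i hi).lintegral_kernel
      (ne_top_of_le_ne_top hb (two (h1 i hi) (h4 i hi)))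
    have fin := (Finset.eventually_all J).2 fun i hi => (hL i hi).1
    refine ⟨ι, J, Y, b.toReal, fun i hi => ⟨hY i hi, (hL i hi).2.1.ae_eq (hY' i hi).symm, ?_⟩,
      by simpa using ENNReal.toReal_mono hB h5, ?_, ?_⟩
    · rw [Real.sqrt_le_left ENNReal.toReal_nonneg, integral_congr_ae ((hY' i hi).mono fun k hk =>
        congrArg (· ^ 2) hk), (hL i hi).2.2, ← ENNReal.toReal_pow]
      exact ENNReal.toReal_mono hb (two (h1 i hi) (h4 i hi))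
    · filter_upwards [sum J W h1 h2, fin] with k k1 k2
      rw [k1]
      exact ENNReal.sum_lt_top.2 k2
    · filter_upwards [sum J W h1 h2, fin, (Finset.eventually_all J).2 hY'] with k k1 k2 k3
      rw [k1, ENNReal.toReal_sum fun i hi => (k2 i hi).ne]
      exact Finset.sum_congr rfl fun i hi => (k3 i hi).symm
  obtain ⟨hfin, hG⟩ : (∀ᵐ k ∂μ, ∫⁻ s, Z s ∂κ k < ⊤) ∧
      MemLp (fun k => (∫⁻ s, Z s ∂κ k).toReal) 2 μ := by
    obtain ⟨ι, J, Y, b, h1, -, h3, h4⟩ := real 1 one_pos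
    exact ⟨h3, (memLp_finsetSum J fun i hi => (h1 i hi).2.1).ae_eq h4.symm⟩
  set G : Ω → ℝ := fun k => (∫⁻ s, Z s ∂κ k).toReal with hGd
  have var : ∫ k, G k ^ 2 ∂μ ≤ (∫ k, G k ∂μ) ^ 2 := by
    refine le_of_forall_pos_le_add fun ε hε => ?_
    obtain ⟨r, hr, hr'⟩ := hreg G hG (ε / (B.toReal + 1)) (by positivity)
    obtain ⟨ι, J, Y, b, h1, h2, -, h4⟩ := real r hr
    have e1 : ∫ k, G k ^ 2 ∂μ = ∑ i ∈ J, ∫ k, Y i k * G k ∂μ := by
      rw [← integral_finsetSum J (f := fun i k => Y i k * G k)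
        fun i hi => (h1 i hi).2.1.integrable_mul hG]
      refine integral_congr_ae (h4.mono fun k hk => ?_)
      beta_reduce at hk ⊢
      rw [← Finset.sum_mul, ← hk, sq]
    have e2 : (∫ k, G k ∂μ) ^ 2 = ∑ i ∈ J, (∫ k, Y i k ∂μ) * ∫ k, G k ∂μ := by
      rw [← Finset.sum_mul, ← integral_finsetSum J fun i hi => (h1 i hi).2.1.integrable one_le_two,
        ← integral_congr_ae h4, sq]
    have e3 := Finset.sum_le_card_nsmul J (fun i => ∫ k, Y i k * G k ∂μ -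
      (∫ k, Y i k ∂μ) * ∫ k, G k ∂μ) (ε / (B.toReal + 1) * b) fun i hi =>
        ((le_abs_self _).trans (hr' _ (h1 i hi).1 (h1 i hi).2.1)).trans
          (mul_le_mul_of_nonneg_left (h1 i hi).2.2 (by positivity))
    rw [Finset.sum_sub_distrib, ← e1, ← e2, nsmul_eq_mul, mul_left_comm] at e3
    have e4 := mul_le_mul_of_nonneg_left h2 (by positivity : 0 ≤ ε / (B.toReal + 1))
    have e5 : ε / (B.toReal + 1) * B.toReal ≤ ε := by
      rw [div_mul_eq_mul_div, div_le_iff₀ (by positivity)]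
      linarith
    linarith
  have sq1 : ∫⁻ k, (∫⁻ s, Z s ∂κ k) ^ 2 ∂μ = ENNReal.ofReal (∫ k, G k ^ 2 ∂μ) := by
    rw [ofReal_integral_eq_lintegral_ofReal hG.integrable_sq (.of_forall fun k => sq_nonneg _)]
    refine lintegral_congr_ae (hfin.mono fun k hk => ?_)
    beta_reduce
    rw [ENNReal.ofReal_pow ENNReal.toReal_nonneg, ENNReal.ofReal_toReal hk.ne]
  have sq2 : ∫⁻ k, ∫⁻ s, Z s ^ 2 ∂κ k ∂μ ≤ ENNReal.ofReal ((∫ k, G k ∂μ) ^ 2) := by
    refine le_trans ?_ (sq1.trans_le (ENNReal.ofReal_le_ofReal var))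
    refine ENNReal.le_of_forall_pos_le_add fun ε hε _ => ?_
    obtain ⟨ι, J, W, b, h1, h2, h3, h4, h5, h6, -⟩ := h (ε / (B.toReal + 1)) (by positivity)
    have e1 : ∀ᵐ k ∂μ, ∫⁻ s, Z s ^ 2 ∂κ k ≤
        (∫⁻ s, Z s ∂κ k) ^ 2 + ∑ i ∈ J, ∫⁻ s, W i s ^ 2 ∂κ k := by
      filter_upwards [h2, sum J W h1 h2, (Finset.eventually_all J).2 fun i hi =>
        (Finset.eventually_all J).2 fun j hj => eventually_imp_distrib_left.2 (h3 i hi j hj)]
        with k k1 k2 k3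
      rw [lintegral_congr_ae (k1.mono fun s hs => (congrArg (· ^ 2) hs).trans
        ((sq _).trans (Finset.sum_mul_sum _ _ _ _))), k2, sq, Finset.sum_mul_sum,
        lintegral_finsetSum J fun i hi =>
          Finset.measurable_sum J fun j hj => (h1 i hi).fun_mul (h1 j hj),
        ← Finset.sum_add_distrib]
      refine Finset.sum_le_sum fun i hi => ?_
      rw [lintegral_finsetSum J fun j hj => (h1 i hi).fun_mul (h1 j hj),
        ← Finset.add_sum_erase J _ hi, add_comm]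
      simp only [sq]
      refine add_le_add ?_ le_rfl
      rw [Finset.sum_congr rfl fun j hj => k3 i hi j (Finset.mem_of_mem_erase hj)
        (Finset.ne_of_mem_erase hj).symm]
      exact Finset.sum_le_sum_of_subset (Finset.erase_subset _ _)
    refine (lintegral_mono_ae e1).trans ?_
    rw [lintegral_add_left (hg.pow_const 2),
      lintegral_finsetSum J fun i hi => ((h1 i hi).pow_const 2).lintegral_kernel]
    refine add_le_add le_rfl ((Finset.sum_le_card_nsmul J _ _ h4).trans ?_)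
    rw [nsmul_eq_mul, sq, ← mul_assoc, ← ENNReal.ofReal_coe_nnreal]
    refine (mul_le_mul' h5 h6).trans ?_
    rw [← ENNReal.ofReal_toReal hB, ← ENNReal.ofReal_mul ENNReal.toReal_nonneg,
      ENNReal.toReal_ofReal ENNReal.toReal_nonneg]
    refine ENNReal.ofReal_le_ofReal ?_
    rw [← mul_div_assoc, div_le_iff₀ (by positivity)]
    linarith [ε.2]
  rw [← Measure.lintegral_bind κ.aemeasurable (hZ.pow_const 2).aemeasurable] at sq2
  obtain ⟨z1, z2, z3⟩ := qiVar_L2 (μ.bind κ) hZ (ne_top_of_le_ne_top ENNReal.ofReal_ne_top sq2)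
  have z4 : ∫ s, (Z s).toReal ∂μ.bind κ = ∫ k, G k ∂μ := by
    rw [integral_toReal hZ.aemeasurable z1, integral_toReal hg.aemeasurable hfin,
      Measure.lintegral_bind κ.aemeasurable hZ.aemeasurable]
  have z5 := ae_eq_integral_of_variance_eq_zero z2 (le_antisymm (by
    rw [variance_eq_sub z2, z4, sub_nonpos]
    exact z3.trans_le (ENNReal.toReal_le_of_le_ofReal (sq_nonneg _) sq2)) (variance_nonneg _ _))
  refine ⟨ENNReal.ofReal (∫ s, (Z s).toReal ∂μ.bind κ), ENNReal.ofReal_ne_top,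
    Measure.ae_ae_of_ae_comp ?_⟩
  filter_upwards [z1, z5] with s s1 s2
  rw [← s2, ENNReal.ofReal_toReal s1.ne]

theorem qiVar_ball : crect (-(14 / 5)) (14 / 5) (-(14 / 5)) (14 / 5) ⊆ ball 0 (396 / 100) := by
  rintro z ⟨⟨h1, h2⟩, h3, h4⟩
  rw [mem_ball_zero_iff, ← sq_lt_sq₀ (norm_nonneg _) (by norm_num), Complex.sq_norm,
    Complex.normSq_apply]
  nlinarith

theorem qiVar_cell {lo h x : ℝ} {n : ℕ} (hh : 0 < h) (h1 : x ∈ Icc lo (lo + n * h))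
    (h2 : x ∉ range fun i : ℕ => lo + i * h) :
    ∃ i < n, x ∈ Ioo (lo + i * h) (lo + i * h + h) := by
  have k1 := Nat.floor_le (div_nonneg (sub_nonneg.2 h1.1) hh.le)
  have k2 := Nat.lt_floor_add_one ((x - lo) / h)
  rw [le_div_iff₀ hh] at k1
  rw [div_lt_iff₀ hh] at k2
  have k3 : lo + ⌊(x - lo) / h⌋₊ * h < x :=
    lt_of_le_of_ne (by linarith) fun k => h2 ⟨_, k⟩
  refine ⟨_, ?_, k3, by linarith⟩
  exact_mod_cast lt_of_mul_lt_mul_right (by linarith [h1.2] : (⌊(x - lo) / h⌋₊ : ℝ) * h < n * h) hh.le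

theorem qiVar_uniq {lo h x : ℝ} {i j : ℕ} (hh : 0 < h)
    (h1 : x ∈ Ioo (lo + i * h) (lo + i * h + h)) (h2 : x ∈ Ioo (lo + j * h) (lo + j * h + h)) :
    i = j := by
  have k1 : (i : ℝ) < j + 1 := lt_of_mul_lt_mul_right (by linarith [h1.1, h2.2]) hh.le
  have k2 : (j : ℝ) < i + 1 := lt_of_mul_lt_mul_right (by linarith [h1.2, h2.1]) hh.le
  have k3 : i < j + 1 := by exact_mod_cast k1
  have k4 : j < i + 1 := by exact_mod_cast k2
  omega

/-- partitions of the reference square into small squares -/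
theorem exists_part {r : ℝ} (hr : 0 < r) : ∃ (ι : Type) (J : Finset ι) (T : ι → Set ℂ) (c : ι → ℂ)
    (Γ : Set ℂ) (v : ℝ≥0∞),
    (∀ i ∈ J, Nice (T i) ∧ T i ⊆ S0 ∧ ‖c i‖ ≤ 4 ∧ T i ⊆ ball (c i) r ∧
      volume (closure (T i)) ≤ v) ∧
    (∀ i ∈ J, ∀ j ∈ J, i ≠ j → Disjoint (T i) (T j)) ∧ J.card * v ≤ 32 ∧ v ≤ ENNReal.ofReal r ∧
    IsCompact Γ ∧ Γ ⊆ closedBall 0 (396 / 100) ∧ volume Γ = 0 ∧ S0 ⊆ (⋃ i ∈ J, T i) ∪ Γ := by
  obtain ⟨n, hn⟩ := exists_nat_gt (max (28 / 5) (56 / 5 / r))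
  have n0 : (0 : ℝ) < n := lt_trans (lt_max_of_lt_left (by norm_num)) hn
  obtain ⟨h, h0, hh⟩ : ∃ h : ℝ, 0 < h ∧ n * h = 28 / 5 := ⟨28 / 5 / n, by positivity, by field_simp⟩
  have h1 : h ≤ 1 := by nlinarith [(max_lt_iff.1 hn).1]
  have h2 : 2 * h ≤ r := by nlinarith [(div_lt_iff₀ hr).1 (max_lt_iff.1 hn).2]
  have key : ∀ i ∈ Finset.range n, -(14 / 5) ≤ -(14 / 5) + i * h ∧
      -(14 / 5) + i * h + h ≤ 14 / 5 := by
    intro i hi
    have k : (i : ℝ) + 1 ≤ n := by exact_mod_cast Finset.mem_range.1 hi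
    have k' : 0 ≤ i * h := by positivity
    constructor <;> nlinarith
  set T : ℕ × ℕ → Set ℂ := fun i => orect (-(14 / 5) + i.1 * h) (-(14 / 5) + i.1 * h + h)
    (-(14 / 5) + i.2 * h) (-(14 / 5) + i.2 * h + h) with hT
  refine ⟨ℕ × ℕ, Finset.range n ×ˢ Finset.range n, T,
    fun i => ⟨-(14 / 5) + i.1 * h, -(14 / 5) + i.2 * h⟩,
    crect (-(14 / 5)) (14 / 5) (-(14 / 5)) (14 / 5) \ ⋃ i ∈ Finset.range n ×ˢ Finset.range n, T i,
    ENNReal.ofReal (h * h), fun i hi => ?_, fun i _ j _ hij => ?_, ?_,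
    ENNReal.ofReal_le_ofReal (by nlinarith),
    (nrec_compact _ _ _ _).diff (isOpen_biUnion fun i _ => nrec_open _ _ _ _),
    sdiff_subset.trans (qiVar_ball.trans ball_subset_closedBall), ?_, ?_⟩
  · obtain ⟨k1, k2⟩ := key _ (Finset.mem_product.1 hi).1
    obtain ⟨k3, k4⟩ := key _ (Finset.mem_product.1 hi).2
    have hS : T i ⊆ S0 := fun z ⟨⟨z1, z2⟩, z3, z4⟩ =>
      ⟨⟨by linarith, by linarith⟩, by linarith, by linarith⟩
    refine ⟨⟨nrec_open _ _ _ _, ((convex_Ioo _ _).linear_preimage Complex.reLm).inter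
      ((convex_Ioo _ _).linear_preimage Complex.imLm), hS.trans ((nrec_sub _ _ _ _).trans
        (qiVar_ball.trans (ball_subset_ball (by norm_num))))⟩, hS, ?_, ?_, ?_⟩
    · refine (mem_ball_zero_iff.1 (qiVar_ball ⟨⟨k1, ?_⟩, k3, ?_⟩)).le.trans (by norm_num)
      · exact le_trans (le_add_of_nonneg_right h0.le) k2
      · exact le_trans (le_add_of_nonneg_right h0.le) k4
    · rintro z ⟨⟨z1, z2⟩, z3, z4⟩
      rw [mem_ball_iff_norm]
      refine (Complex.norm_le_abs_re_add_abs_im _).trans_lt ?_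
      rw [Complex.sub_re, Complex.sub_im, abs_of_pos (by linarith), abs_of_pos (by linarith)]
      linarith
    · refine (measure_mono (closure_minimal (nrec_sub _ _ _ _)
        (nrec_compact _ _ _ _).isClosed)).trans (le_of_eq ?_)
      rw [crect, nrec_prod, Real.volume_Icc, Real.volume_Icc, add_sub_cancel_left,
        add_sub_cancel_left, ENNReal.ofReal_mul h0.le]
  · exact disjoint_left.2 fun z z1 z2 =>
      hij (Prod.ext (qiVar_uniq h0 z1.1 z2.1) (qiVar_uniq h0 z1.2 z2.2))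
  · rw [Finset.card_product, Finset.card_range, ← ENNReal.ofReal_natCast,
      ← ENNReal.ofReal_mul (Nat.cast_nonneg _), ← ENNReal.ofReal_ofNat]
    refine ENNReal.ofReal_le_ofReal ?_
    rw [Nat.cast_mul, mul_mul_mul_comm, hh]
    norm_num
  · have e := (countable_range fun i : ℕ => -(14 / 5) + i * h).measure_zero volume
    refine measure_mono_null (t := {z : ℂ | z.re ∈ range (fun i : ℕ => -(14 / 5) + i * h) ∧
      z.im ∈ univ} ∪ {z : ℂ | z.re ∈ univ ∧ z.im ∈ range fun i : ℕ => -(14 / 5) + i * h}) ?_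
      (measure_union_null (by rw [nrec_prod, e, zero_mul]) (by rw [nrec_prod, e, mul_zero]))
    rintro z ⟨⟨⟨z1, z2⟩, z3, z4⟩, z5⟩
    refine by_contra fun z6 => z5 ?_
    obtain ⟨i, hi, hi'⟩ := qiVar_cell (n := n) h0 ⟨z1, by linarith⟩
      fun k => z6 (.inl ⟨k, trivial⟩)
    obtain ⟨j, hj, hj'⟩ := qiVar_cell (n := n) h0 ⟨z3, by linarith⟩
      fun k => z6 (.inr ⟨trivial, k⟩)
    exact mem_biUnion (x := (i, j)) (Finset.mem_coe.2 (Finset.mem_product.2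
      ⟨Finset.mem_range.2 hi, Finset.mem_range.2 hj⟩)) ⟨hi', hj'⟩
  · rw [union_sdiff_self]
    exact (nrec_sub _ _ _ _).trans subset_union_right

theorem isOpen_S0 : IsOpen S0 := by
  exact nrec_open _ _ _ _

theorem S0_subset : S0 ⊆ ball 0 (396 / 100) := by
  exact (nrec_sub _ _ _ _).trans qiVar_ball

theorem volume_image_S0 (F : Fr) :
    volume (F.map '' S0) = ENNReal.ofReal (‖F.a‖ ^ 2 * (28 / 5) ^ 2) := by
  have e : F.map '' S0 = (fun x => x + F.z) '' ((LinearMap.mul ℝ ℂ) F.a '' S0) := by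
    rw [image_image]; rfl
  have hdet : LinearMap.det ((LinearMap.mul ℝ ℂ) F.a) = ‖F.a‖ ^ 2 := by
    have := Algebra.norm_complex_apply F.a
    rw [Algebra.norm_apply] at this
    rw [show (LinearMap.mul ℝ ℂ) F.a = Algebra.lmul ℝ ℂ F.a from rfl, this,
      Complex.normSq_eq_norm_sq]
  rw [e, image_add_right, measure_preimage_add_right, Measure.addHaar_image_linearMap, hdet,
    abs_of_nonneg (sq_nonneg _), ENNReal.ofReal_mul (sq_nonneg _), S0, orect, nrec_prod,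
    Real.volume_Ioo, ← ENNReal.ofReal_mul (by norm_num)]
  norm_num

end Pool.Agent.QL
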