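import Pool.Agent.P.MP_7a6434d8_pr.QL.I.Sub
import Pool.Agent.P.MP_7a6434d8_pr.QL.I.Var
import Pool.Agent.P.MP_7a6434d8_pr.QL.Hom.Lin

open MeasureTheory ProbabilityTheory Set Filter Topology Metric
open scoped ENNReal

namespace Pool.Agent.QL

open Pool.Agent.LGD

theorem measurable_fs_fst (f : ℂ → ℝ) {S U : Set ℂ} (h : S ⊆ U) :
    Measurable[SS U] fun s : Sys => FS s.1 f S := by
  refine Measurable.iSup fun i => ?_
  by_cases hi : closure i.1.1 ⊆ S
  · by_cases hc : ∀ c ∈ i.1.2, closure c.1 ⊆ S ∧ ∀ z ∈ closure c.1, f z ∈ Ioo c.2.1 c.2.2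
    · simp only [iSup_pos hi, iSup_pos hc]
      exact measurable_fst.comp (measurable_SS_pair (hi.trans h))
    · simp only [iSup_pos hi, iSup_neg hc]
      exact measurable_const
  · simp only [iSup_neg hi]
    exact measurable_const

theorem measurable_fs_snd (f : ℂ → ℝ) {S U : Set ℂ} (h : S ⊆ U) :
    Measurable[SS U] fun s : Sys => FS s.2 f S := by
  refine Measurable.iSup fun i => ?_
  by_cases hi : closure i.1.1 ⊆ S
  · by_cases hc : ∀ c ∈ i.1.2, closure c.1 ⊆ S ∧ ∀ z ∈ closure c.1, f z ∈ Ioo c.2.1 c.2.2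
    · simp only [iSup_pos hi, iSup_pos hc]
      exact measurable_snd.comp (measurable_SS_pair (hi.trans h))
    · simp only [iSup_pos hi, iSup_neg hc]
      exact measurable_const
  · simp only [iSup_neg hi]
    exact measurable_const

theorem measurableSet_hom1_fst (a : ℝ) : MeasurableSet[SS U0] {s : Sys | Hom1 a s.1} := by
  have := id_countable_fr
  have hS : S0 ⊆ U0 := S0_subset.trans (ball_subset_ball (by norm_num))
  have e : {s : Sys | Hom1 a s.1} = ⋂ F : Fr, ⋂ (_ : MapsTo F.map U0 U0), ⋂ e ∈ {e : ℂ | IsQ e},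
      (fun s : Sys => FS s.1 (fun x => lin e (F.inv x)) (F.inv ⁻¹' S0)) ⁻¹'
        {ENNReal.ofReal (a * ‖e‖ ^ 2 * (28 / 5) ^ 2)} := by
    ext s
    simp only [Hom1, fs_act, mem_ofPred_eq, mem_iInter, mem_preimage, mem_singleton_iff]
  rw [e]
  refine MeasurableSet.iInter fun F => MeasurableSet.iInter fun hF =>
    MeasurableSet.biInter countable_isQ fun e _ => ?_
  refine measurable_fs_fst _ ?_ (measurableSet_singleton _)
  rw [← F.image_eq]
  exact (hF.mono_left hS).image_subset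

theorem measurableSet_hom1_snd (a : ℝ) : MeasurableSet[SS U0] {s : Sys | Hom1 a s.2} :=
  measurable_swap_SS U0 (measurableSet_hom1_fst a)

theorem measurableSet_homog (a b : ℝ) : MeasurableSet[SS U0] {s : Sys | Homog a b s} :=
  (measurableSet_hom1_fst a).inter (measurableSet_hom1_snd b)

theorem lin_inv (F : Fr) (e x : ℂ) :
    lin e (F.inv x) = lin (e / starRingEnd ℂ F.a) x - lin (e / starRingEnd ℂ F.a) F.z := by
  have h : ∀ u w : ℂ, lin u w = (starRingEnd ℂ u * w).re := fun u w => by simp [lin]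
  rw [h, h, h, ← Complex.sub_re, map_div₀, Complex.conj_conj, Fr.inv, unaff]
  congr 1
  ring

/-- the frame of a small rational square -/
theorem exists_sq_frame {w : ℂ} {ρ : ℝ} (hw : IsQ w) (hρ : IsQ (ρ : ℂ)) (h0 : 0 < ρ) :
    ∃ F : Fr, F.z = w ∧ F.a = ((5 / 14 * ρ : ℝ) : ℂ) ∧
      F.inv ⁻¹' S0 = orect (w.re - ρ) (w.re + ρ) (w.im - ρ) (w.im + ρ) := by
  have hq : IsQ ((5 / 14 * ρ : ℝ) : ℂ) :=
    IsQ.real_mul (isQ_ofReal_iff.2 ⟨5 / 14, by norm_num⟩) hρ
  have h1 : 0 < 5 / 14 * ρ := by positivity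
  refine ⟨⟨(w, ((5 / 14 * ρ : ℝ) : ℂ)), isFr_real hw hq h1⟩, rfl, rfl, ?_⟩
  ext x
  simp only [S0, orect, Fr.inv, Fr.z, Fr.a, unaff, mem_preimage, mem_ofPred_eq, mem_Ioo,
    Complex.div_ofReal_re, Complex.div_ofReal_im, Complex.sub_re, Complex.sub_im,
    lt_div_iff₀ h1, div_lt_iff₀ h1]
  constructor <;> rintro ⟨⟨a1, a2⟩, a3, a4⟩ <;> refine ⟨⟨?_, ?_⟩, ?_, ?_⟩ <;> linarith

theorem qiLin_prod (A B : Set ℝ) :
    volume {z : ℂ | z.re ∈ A ∧ z.im ∈ B} = volume A * volume B := by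
  have h : {z : ℂ | z.re ∈ A ∧ z.im ∈ B} = Complex.measurableEquivRealProd ⁻¹' (A ×ˢ B) := rfl
  rw [h, Complex.volume_preserving_equiv_real_prod.measure_preimage_equiv, Measure.volume_eq_prod,
    Measure.prod_prod]

theorem qiLin_orect {s₀ s₁ : ℝ} (hs : s₀ ≤ s₁) (t₀ t₁ : ℝ) :
    volume (orect s₀ s₁ t₀ t₁) = ENNReal.ofReal ((s₁ - s₀) * (t₁ - t₀)) := by
  rw [orect, qiLin_prod, Real.volume_Ioo, Real.volume_Ioo, ENNReal.ofReal_mul (sub_nonneg.2 hs)]

theorem qiLin_crect {s₀ s₁ : ℝ} (hs : s₀ ≤ s₁) (t₀ t₁ : ℝ) :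
    volume (crect s₀ s₁ t₀ t₁) = ENNReal.ofReal ((s₁ - s₀) * (t₁ - t₀)) := by
  rw [crect, qiLin_prod, Real.volume_Icc, Real.volume_Icc, ENNReal.ofReal_mul (sub_nonneg.2 hs)]

/-- the energy of a rational square -/
theorem qiLin_sq (N : FNet) {s : Idx → ℝ≥0∞} (h : N.Real1 s) {a : ℝ} (hH : Hom1 a s) {e w : ℂ}
    {ρ : ℝ} (he : IsQ e) (hw : IsQ w) (hρ : IsQ (ρ : ℂ)) (h0 : 0 < ρ)
    (h4 : ‖w‖ + 10 / 7 * ρ ≤ 4) :
    FS s (lin e) (orect (w.re - ρ) (w.re + ρ) (w.im - ρ) (w.im + ρ)) =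
      ENNReal.ofReal (a * ‖e‖ ^ 2 * (2 * ρ) ^ 2) := by
  obtain ⟨F, hz, ha, hS⟩ := exists_sq_frame hw hρ h0
  have h1 : 0 < 5 / 14 * ρ := by positivity
  have hn : ‖F.a‖ = 5 / 14 * ρ := by rw [ha, Complex.norm_real, Real.norm_of_nonneg h1.le]
  have hF : MapsTo F.map U0 U0 := fun x hx => by
    have h2 := mem_ball_zero_iff.1 hx
    refine mem_ball_zero_iff.2 ?_
    rw [F.map_apply, hz]
    refine (norm_add_le _ _).trans_lt ?_
    rw [norm_mul, hn]
    nlinarith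
  have k := hH F hF (e * F.a) (he.mul F.2.2.1)
  have e1 : e * F.a / starRingEnd ℂ F.a = e := by
    have h3 : starRingEnd ℂ F.a = F.a := by rw [ha, Complex.conj_ofReal]
    rw [h3, mul_div_cancel_right₀ _ F.a_ne]
  have e2 : (fun x => lin (e * F.a) (F.inv x)) = fun x => 1 * lin e x + -lin e F.z := by
    funext x
    rw [lin_inv, e1]
    ring
  rw [fs_act, e2, hS, (N.fs_affine h (lin_cont e) (hom_open _ _ _ _) 1 _).2 one_ne_zero, one_pow,
    ENNReal.ofReal_one, one_mul, norm_mul, hn] at k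
  rw [k]
  congr 1
  ring

/-- lower bound on the open subsets of the reference square -/
theorem qiLin_low (N : FNet) {s : Idx → ℝ≥0∞} (h : N.Real1 s) {a : ℝ} (ha : 0 ≤ a)
    (hH : Hom1 a s) {e : ℂ} (he : IsQ e) {U : Set ℂ} (hU : IsOpen U) (hS : U ⊆ S0) :
    ENNReal.ofReal (a * ‖e‖ ^ 2) * volume U ≤ FS s (lin e) U := by
  refine N.le_fs_of_squares h (lin_cont e) hU (ρ₀ := 1 / 100) (by norm_num)
    fun w ρ hw hρ h0 h1 hsub => ?_
  have h2 : w ∈ orect (w.re - ρ) (w.re + ρ) (w.im - ρ) (w.im + ρ) :=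
    ⟨⟨by linarith, by linarith⟩, by linarith, by linarith⟩
  have h3 := mem_ball_zero_iff.1 (S0_subset (hS (hsub h2)))
  rw [qiLin_sq N h hH he hw hρ h0 (by linarith), ← ENNReal.ofReal_mul (by positivity)]

/-- from the system to the net -/
theorem FNet.lin_of_hom1 (N : FNet) {s : Idx → ℝ≥0∞} (h : N.Real1 s) {a : ℝ} (ha : 0 ≤ a)
    (hH : Hom1 a s) : N.Lin a S0 := by
  intro e he s₀ s₁ t₀ t₁ hs ht hsub
  have hq : IsQ e := by
    rcases he with rfl | rfl | rfl | rfl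
    exacts [isQ_one, isQ_I, isQ_one.add isQ_I, isQ_one.sub isQ_I]
  have c0 : 0 ≤ a * ‖e‖ ^ 2 := by positivity
  have hf := lin_cont e
  have hoc := hom_oc s₀ s₁ t₀ t₁
  have hK := hom_compact s₀ s₁ t₀ t₁
  rw [ENNReal.ofReal_mul c0]
  refine le_antisymm ((N.F_mono _ hoc).trans ?_) ?_
  · have hU : IsOpen (S0 \ crect s₀ s₁ t₀ t₁) := isOpen_S0.sdiff hK.isClosed
    have hv : volume S0 = ENNReal.ofReal ((2 * (14 / 5)) ^ 2) := by
      rw [S0, qiLin_orect (by norm_num)]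
      congr 1
      norm_num
    have h0 : FS s (lin e) S0 = ENNReal.ofReal (a * ‖e‖ ^ 2) * volume S0 := by
      have k := qiLin_sq N h hH (w := 0) (ρ := 14 / 5) hq isQ_zero
        (isQ_ofReal_iff.2 ⟨14 / 5, by norm_num⟩) (by norm_num) (by norm_num)
      simp only [Complex.zero_re, Complex.zero_im, zero_sub, zero_add] at k
      rw [hv, ← ENNReal.ofReal_mul c0]
      exact k
    have hle : ∀ K, IsCompact K → K ⊆ S0 → N.F (lin e) K ≤ FS s (lin e) S0 := fun K h1 h2 => by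
      rw [N.fs_eq h hf isOpen_S0]
      exact le_iSup₂_of_le K h1 (le_iSup_of_le h2 le_rfl)
    have hfin : FS s (lin e) S0 ≠ ⊤ := by
      rw [h0, hv]
      exact ENNReal.mul_ne_top ENNReal.ofReal_ne_top ENNReal.ofReal_ne_top
    have h1 := hle _ hK hsub
    have h2 : FS s (lin e) (S0 \ crect s₀ s₁ t₀ t₁) ≤
        FS s (lin e) S0 - N.F (lin e) (crect s₀ s₁ t₀ t₁) := by
      rw [N.fs_eq h hf hU]
      refine iSup_le fun K => iSup₂_le fun h3 h4 => ?_
      refine ENNReal.le_sub_of_add_le_left (ne_top_of_le_ne_top hfin h1) ?_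
      refine (N.F_two _ subset_union_left subset_union_right ?_).trans
        (hle _ (hK.union h3) (union_subset hsub (h4.trans sdiff_subset)))
      exact disjoint_left.2 fun z h5 h6 => (h4 h6).2 h5
    have h3 := (qiLin_low N h ha hH hq hU sdiff_subset).trans h2
    have h4 : volume (crect s₀ s₁ t₀ t₁) + volume (S0 \ crect s₀ s₁ t₀ t₁) = volume S0 := by
      rw [← measure_inter_add_sdiff S0 hK.measurableSet, inter_eq_self_of_subset_right hsub]
    have h5 : ENNReal.ofReal (a * ‖e‖ ^ 2) * volume (S0 \ crect s₀ s₁ t₀ t₁) ≠ ⊤ :=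
      ne_top_of_le_ne_top hfin (h3.trans tsub_le_self)
    refine ENNReal.le_of_add_le_add_right h5 ?_
    rw [← qiLin_crect hs.le, ← mul_add, h4, ← h0]
    exact (add_le_add le_rfl h3).trans (add_tsub_cancel_of_le h1).le
  · rw [← qiLin_orect hs.le]
    exact (qiLin_low N h ha hH hq (hom_open _ _ _ _) (hoc.trans hsub)).trans
      (N.fs_le_F h hf (hom_open _ _ _ _))

end Pool.Agent.QL
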