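import Pool.Agent.P.MP_7a6434d8_pr.QL.I.Defs
import Pool.Agent.P.MP_7a6434d8_pr.QL.I.Lin
import Pool.Agent.P.MP_7a6434d8_pr.QL.NLS
import Pool.Agent.P.MP_7a6434d8_pr.QL.Net.Lim

open MeasureTheory ProbabilityTheory Set Filter Topology Metric
open scoped ENNReal

namespace Pool.Agent.QL

open Pool.Agent.LGD

theorem Hom1.act {a : ℝ} {s : Idx → ℝ≥0∞} (h : Hom1 a s) {F : Fr} (hF : MapsTo F.map U0 U0) :
    Hom1 a fun i => s (F.act i) := by
  intro G hG e he
  simpa only [Fr.comp_act] using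
    h (F.comp G) (fun x hx => by rw [Fr.comp_map]; exact hF (hG hx)) e he

theorem qiAct_closure (x₀ x₁ y₀ y₁ : ℝ) : closure (orect x₀ x₁ y₀ y₁) ⊆ crect x₀ x₁ y₀ y₁ :=
  closure_minimal (hom_oc _ _ _ _) (hom_compact _ _ _ _).isClosed

theorem qiAct_pos {s : Sys} (h : Realized s) {a b : ℝ} (ha : 0 ≤ a) (hb : 0 ≤ b)
    (h1 : Hom1 a s.1) (h2 : Hom1 b s.2) : 0 < a := by
  refine ha.lt_of_ne ?_
  rintro rfl
  obtain ⟨N, hN⟩ := h
  have hsq : crect 0 1 0 1 ⊆ S0 := by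
    rintro z ⟨⟨a1, a2⟩, a3, a4⟩
    exact ⟨⟨by linarith, by linarith⟩, by linarith, by linarith⟩
  have hM : 0 < 1 / (5 * b + 1) := by positivity
  have hc := (N.ls_of_dual hb (N.dual.lin_of_hom1 hN.2 hb h2) 0 1 0 1 (1 / 8) (1 / (5 * b + 1))
    one_pos one_pos hsq (by norm_num)).1 (by
      rw [sub_zero, mul_one, one_div_mul_eq_div, div_lt_one (by positivity)]
      exact lt_add_one _)
  have hF := N.lin_of_hom1 hN.1 ha h1 1 (mem_insert _ _) 0 1 0 1 one_pos one_pos hsq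
  rw [zero_mul, zero_mul] at hF
  refine N.nls_not_cond (η := 1 / 8) (ε := 1 / (5 * b + 1) / 8) (p := 2) (q := -(1 / 2)) le_rfl
    (by norm_num) (by positivity) hF.le (fun z hz => ⟨⟨hz.1.1, by linarith [hz.1.2]⟩, hz.2⟩)
    (fun z hz => ⟨⟨by linarith [hz.1.1], hz.1.2⟩, hz.2⟩) (fun z hz y hy => ?_)
    (fun z hz y hy => ?_) (by linarith) hc
  · simp only [lin, Complex.one_re, Complex.one_im, one_mul, zero_mul, add_zero] at hy
    linarith [(abs_le.1 hy).2, hz.1.2]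
  · simp only [lin, Complex.one_re, Complex.one_im, one_mul, zero_mul, add_zero] at hy
    linarith [(abs_le.1 hy).1, hz.1.1]

theorem id_Rp_le {s : Sys} (h : Realized s) {b : ℝ} (hb : 0 ≤ b) (hH : Hom1 b s.2) {F : Fr}
    (hF : MapsTo F.map U0 U0) : Rp (pull F s).1 ≤ ENNReal.ofReal (100 * b) := by
  obtain ⟨N, hN⟩ := h.pull F
  have hL := N.ls_of_dual hb (N.dual.lin_of_hom1 hN.2 hb (hH.act hF))
  have key : ∀ M : ℝ, M * (5 * b) * (279 / 100 - -(279 / 100)) < 239 / 100 - 211 / 100 →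
      ENNReal.ofReal M ≤ En (pull F s).1 Tp := by
    intro M hM
    have ho := bar_opn (14 / 5) (21 / 10) (12 / 5) (5 / 2)
    have hr : ∀ x₀ x₁ : ℝ, -(279 / 100) ≤ x₀ → x₁ ≤ 279 / 100 →
        crect x₀ x₁ (211 / 100) (239 / 100) ⊆ rect (14 / 5) (21 / 10) (12 / 5) 0 := by
      rintro x₀ x₁ h0 h1 z ⟨⟨a1, a2⟩, a3, a4⟩
      refine ⟨?_, ?_, ?_⟩ <;> rw [rot_zero]
      · rw [abs_lt]
        constructor <;> linarith
      · linarith
      · linarith
    refine N.le_en_of_condGe hN.1 ho.1 (ho.2 _ List.mem_cons_self).1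
      (ho.2 _ (List.mem_cons_of_mem _ List.mem_cons_self)).1
      (isBounded_ball.subset (Tp_subset.trans ann_subset_U0))
      ((qiAct_closure _ _ _ _).trans (hr _ _ le_rfl le_rfl))
      ((qiAct_closure _ _ _ _).trans fun z hz => ?_) ((qiAct_closure _ _ _ _).trans fun z hz => ?_)
      ((hL (-(279 / 100)) (279 / 100) (211 / 100) (239 / 100) (1 / 5) M (by norm_num) (by norm_num)
        (fun z hz => ?_) (by norm_num)).1 hM)
    · have h1 := hr _ _ le_rfl (by norm_num) hz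
      exact ⟨⟨h1, show z.re < -(5 / 2) by linarith [hz.1.2]⟩, h1⟩
    · have h1 := hr _ _ (by norm_num) le_rfl hz
      exact ⟨⟨h1, show 5 / 2 < z.re by linarith [hz.1.1]⟩, h1⟩
    · obtain ⟨⟨a1, a2⟩, a3, a4⟩ := hz
      exact ⟨⟨by linarith, by linarith⟩, by linarith, by linarith⟩
  rw [Rp_eq]
  rcases hb.eq_or_lt with rfl | hb
  · have : En (pull F s).1 Tp = ⊤ := ENNReal.eq_top_of_forall_nnreal_le fun r => by
      rw [← ENNReal.ofReal_coe_nnreal]
      exact key r (by norm_num)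
    rw [this, ENNReal.inv_top]
    exact zero_le
  · rw [ENNReal.inv_le_iff_inv_le, ← ENNReal.ofReal_inv_of_pos (by positivity)]
    refine key _ ?_
    rw [show (100 * b)⁻¹ * (5 * b) = 1 / 20 by field_simp; norm_num]
    norm_num

theorem id_pos {s : Sys} (h : Realized s) {a b : ℝ} (ha : 0 ≤ a) (hb : 0 ≤ b) (hH : Homog a b s) :
    0 < a ∧ 0 < b := by
  exact ⟨qiAct_pos h ha hb hH.1 hH.2, qiAct_pos h.swap hb ha hH.2 hH.1⟩

end Pool.Agent.QL
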