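import Pool.Agent.P.MP_7a6434d8_pr.QL.I.Prod

open MeasureTheory ProbabilityTheory Set Filter Topology Metric
open scoped ENNReal

namespace Pool.Agent.QL

open Pool.Agent.LGD

variable {ν : Measure Dist}

/-- Events at shrinking disjoint places happen infinitely often. -/
theorem Regime.io (hν : IsCanon ν) (R : Regime ν) {z : ℂ} (hz : z ∈ U0) (U : ℕ → Set ℂ)
    (A : ℕ → Set Sys) (j₀ : ℕ) (hU : ∀ j, j₀ ≤ j → Nice (U j))
    (hd : ∀ i j, i ≠ j → Disjoint (U i) (U j)) (hA : ∀ j, MeasurableSet[SS (U j)] (A j))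
    (hz' : ∀ r > 0, ∀ᶠ j in atTop, U j ⊆ ball z r) {p : ℝ≥0∞} (hp : 0 < p)
    (h : ∃ᶠ j in atTop, p ≤ ∫⁻ k, R.K k (A j) ∂nuh ν) :
    ∀ᵐ k ∂nuh ν, ∀ᵐ s ∂(R.K k), ∃ᶠ j in atTop, s ∈ A j := by
  have := nuh_prob hν
  have := R.markov
  have hA' : ∀ j, MeasurableSet (A j) := fun j => SS_le _ _ (hA j)
  choose G hG hG1 hG2 using fun j => R.loc1 (hU (j + j₀) (Nat.le_add_left _ _)) (hA (j + j₀))
  have hG3 := ae_all_iff.2 hG2
  rcases germ_set hν hz (A := {k | ∑' j, G j k = ⊤}) (fun r hr => by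
    obtain ⟨n, hn⟩ := eventually_atTop.1 (hz' r hr)
    refine ⟨(fun k => ∑' j, G (j + n) k) ⁻¹' {⊤}, Measurable.ennreal_tsum (fun j =>
      (hG (j + n)).mono (field_mono (hn _ (by omega))) le_rfl) (measurableSet_singleton _),
      EventuallyEq.of_eq (Set.ext fun k => ?_)⟩
    rw [mem_ofPred_eq, ← (ENNReal.summable (f := fun j => G (j + n) k)).sum_add_tsum_nat_add',
      ENNReal.add_eq_top, or_iff_right (ENNReal.sum_ne_top.2 fun i _ =>
        ne_top_of_le_ne_top ENNReal.one_ne_top (hG1 i k))]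
    rfl) with h0 | h0
  · have h1 := tendsto_lintegral_of_dominated_convergence (μ := nuh ν)
      (F := fun j k => R.K k (A (j + j₀))) (f := fun _ => 0) (fun _ => 1)
      (fun j => R.K.measurable_coe (hA' _)) (fun j => .of_forall fun k => prob_le_one) (by simp) (by
        filter_upwards [hG3, measure_eq_zero_iff_ae_notMem.1 h0] with k k1 k2
        simp only [k1]
        exact ENNReal.tendsto_atTop_zero_of_tsum_ne_top k2)
    rw [lintegral_zero, tendsto_add_atTop_iff_nat (f := fun j => ∫⁻ k, R.K k (A j) ∂nuh ν)] at h1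
    obtain ⟨j, h2, h3⟩ := (h.and_eventually (h1.eventually (gt_mem_nhds hp))).exists
    exact absurd h2 h3.not_ge
  · filter_upwards [hG3, measure_eq_zero_iff_ae_notMem.1 h0, ae_all_iff.2 fun J : Finset ℕ =>
      R.indep_fin J (fun j => U (j + j₀)) (fun j => A (j + j₀))
        (fun j _ => hU _ (Nat.le_add_left _ _)) (fun i _ j _ hij => hd _ _ (by omega))
        fun j _ => hA _] with k k1 k2 k3
    have k4 := measure_limsup_eq_one (fun j => hA' (j + j₀))
      ((iIndepSet_iff_meas_biInter fun j => hA' (j + j₀)).2 k3) (by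
        simp only [k1]
        exact not_not.1 k2)
    filter_upwards [(mem_ae_iff_prob_eq_one (MeasurableSet.measurableSet_limsup
      fun j => hA' (j + j₀))).2 k4] with s hs
    exact (tendsto_add_atTop_nat j₀).frequently (mem_limsup_iff_frequently_mem.1 hs)

theorem qiABC_grid (h : ℝ) : Measurable (grid h) := by
  have e : Measurable fun x : ℝ => ((round x : ℤ) : ℂ) := by
    simp only [round_eq]
    exact (measurable_of_countable fun n : ℤ => (n : ℂ)).comp
      (Int.measurable_floor.comp (measurable_id.add_const _))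
  exact ((e.comp (Complex.measurable_re.div_const h)).add
    ((e.comp (Complex.measurable_im.div_const h)).mul_const _)).const_mul _

theorem qiABC_gfr (j : ℕ) (F : Fr) : MeasurableSet {z | gfr j z = F} := by
  have e : {z | gfr j z = F} = grid (sc j / 4) ⁻¹' {F.z} ∩ {_z | ((sc j : ℝ) : ℂ) = F.a} := by
    ext z
    exact ⟨fun h => ⟨congrArg Fr.z h, congrArg Fr.a h⟩, fun h => Subtype.ext (Prod.ext h.1 h.2)⟩
  rw [e]
  exact (qiABC_grid _ (measurableSet_singleton _)).inter (MeasurableSet.const _)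

/-- Fubini over the base point. -/
theorem Regime.ae_swap (hν : IsCanon ν) (R : Regime ν) (A : ℕ → Fr → Set Sys)
    (hA : ∀ l F, MeasurableSet (A l F))
    (h : ∀ z ∈ B0, ∀ l < 2, ∀ᵐ k ∂nuh ν, ∀ᵐ s ∂(R.K k), ∃ᶠ j in atTop, s ∈ A l (gfr j z)) :
    ∀ᵐ k ∂nuh ν, ∀ᵐ s ∂(R.K k), ∀ᵐ z : ℂ, z ∈ B0 → ∀ l < 2, ∃ᶠ j in atTop, s ∈ A l (gfr j z) := by
  have := R.prob_Ph hν
  have := id_countable_fr
  have m1 : ∀ l j, MeasurableSet {x : ℂ × Dist × Sys | x.2.2 ∈ A l (gfr j x.1)} := by
    intro l j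
    have e : {x : ℂ × Dist × Sys | x.2.2 ∈ A l (gfr j x.1)} =
        ⋃ F, Prod.fst ⁻¹' {z | gfr j z = F} ∩ (fun x => x.2.2) ⁻¹' A l F := by
      ext x
      simp
    rw [e]
    exact .iUnion fun F => (measurable_fst (qiABC_gfr j F)).inter (measurable_snd.snd (hA l F))
  have m2 : MeasurableSet {x : ℂ × Dist × Sys |
      x.1 ∈ B0 → ∀ l < 2, ∃ᶠ j in atTop, x.2.2 ∈ A l (gfr j x.1)} := by
    simp only [frequently_atTop]
    refine measurableSet_setOfPred.2 (Measurable.imp
      (measurableSet_setOfPred.1 (measurable_fst measurableSet_ball)) (.forall fun l =>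
        measurable_const.imp (.forall fun a => .exists fun b =>
          measurable_const.and (measurableSet_setOfPred.1 (m1 l b)))))
  refine R.ae_ae_of_Ph hν (p := fun ω => ∀ᵐ z : ℂ,
    z ∈ B0 → ∀ l < 2, ∃ᶠ j in atTop, ω.2 ∈ A l (gfr j z)) ((Measure.ae_ae_comm m2).1
      (.of_forall fun z => R.ae_Ph hν (measurable_prodMk_left m2) ?_))
  by_cases hz : z ∈ B0
  · filter_upwards [h z hz 0 (by norm_num), h z hz 1 (by norm_num)] with k k0 k1
    filter_upwards [k0, k1] with s s0 s1 _ l hl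
    interval_cases l
    exacts [s0, s1]
  · exact .of_forall fun _ => .of_forall fun _ hz' => absurd hz' hz

end Pool.Agent.QL
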