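import Pool.Agent.P.MP_7a6434d8_pr.QL.I.Act
import Pool.Agent.P.MP_7a6434d8_pr.QL.NAR

open MeasureTheory ProbabilityTheory Set Filter Topology Metric
open scoped ENNReal

namespace Pool.Agent.QL

open Pool.Agent.LGD

theorem qiAEnd_sc : Tendsto sc atTop (𝓝[>] 0) := by
  refine tendsto_nhdsWithin_iff.2 ⟨?_, Eventually.of_forall sc_pos⟩
  have e : sc = fun j : ℕ => (1 / 256 : ℝ) ^ j := funext fun j => by rw [sc, one_div_pow]
  rw [e]
  exact tendsto_pow_atTop_nhds_zero_of_lt_one (by norm_num) (by norm_num)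

theorem qiAEnd_closure (x₀ x₁ y₀ y₁ : ℝ) : closure (orect x₀ x₁ y₀ y₁) ⊆ crect x₀ x₁ y₀ y₁ :=
  closure_minimal (fun _ hz => ⟨Ioo_subset_Icc_self hz.1, Ioo_subset_Icc_self hz.2⟩)
    (nar_compact x₀ x₁ y₀ y₁).isClosed

theorem qiAEnd_rect : rect (27 / 10) (11 / 5) (23 / 10) 0 =
    orect (-(27 / 10)) (27 / 10) (11 / 5) (23 / 10) := by
  ext x
  simp only [rect, rot, pow_zero, one_mul, orect, mem_ofPred_eq, mem_Ioo, abs_lt]

theorem qiAEnd_key (N : FNet) {s : Sys} (h : N.Real s) {u v : ℂ} (hu : ‖u‖ ≤ 37 / 10)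
    (hv : ‖v‖ ≤ 37 / 10) (z : ℂ) (j l : ℕ)
    (hE : En (pull ((gfr j z).comp (rotF l)) s).1 (spot u v) = ⊤) :
    ∃ p q : ℂ, p - q = (sc j : ℂ) * (Complex.I ^ l * (u - v)) ∧
      ball p (sc j * (1 / 25) / 20) ⊆ ball z (5 * sc j) ∧
      ball q (sc j * (1 / 25) / 20) ⊆ ball z (5 * sc j) ∧
      ∀ M, N.CondGe (ball z (5 * sc j)) (ball p (sc j * (1 / 25) / 20))
        (ball q (sc j * (1 / 25) / 20)) M := by
  set F := (gfr j z).comp (rotF l) with hF
  have ha : F.a = (sc j : ℂ) * Complex.I ^ l := rfl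
  have hn : ‖F.a‖ = sc j := by rw [hF, Fr.comp_a, norm_mul, norm_gfr_a, norm_rotF_a, mul_one]
  have hz : ‖F.z - z‖ ≤ 3 / 16 * sc j := by
    rw [hF, Fr.comp_z, rotF_z, aff, mul_zero, zero_add]
    exact gfr_near j z
  have hr := sc_pos j
  have hU : F.inv ⁻¹' U0 ⊆ ball z (5 * sc j) := fun x hx => by
    rw [U0, ← F.image_eq, F.mem_image_ball, hn] at hx
    have := norm_sub_le_norm_sub_add_norm_sub x F.z z
    rw [mem_ball, dist_eq_norm]
    linarith
  have hb : ∀ w : ℂ, ball (F.map w) (sc j * (1 / 25) / 20) = F.inv ⁻¹' ball w (1 / 500) :=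
    fun w => by
      rw [Fr.inv, preimage_unaff_ball F.a_ne, hn, Fr.map]
      congr 1
      ring
  have hw : ∀ w : ℂ, ‖w‖ ≤ 37 / 10 → ball w (1 / 500) ⊆ U0 := fun w hw =>
    ball_subset_ball' (by rw [dist_zero_right]; linarith)
  refine ⟨F.map u, F.map v, ?_, ?_, ?_, fun M => ?_⟩
  · rw [Fr.map_apply, Fr.map_apply, ha]
    ring
  · rw [hb]
    exact (preimage_mono (hw u hu)).trans hU
  · rw [hb]
    exact (preimage_mono (hw v hv)).trans hU
  · rw [hb, hb]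
    rw [En_pull_fst] at hE
    refine (N.condGe_of_en h.1 (F.inv ⁻¹' Tn.1) _ _ (M := M)
      (ENNReal.ofReal_lt_top.trans_eq hE.symm)).mono ?_ subset_rfl subset_rfl le_rfl
    exact (preimage_mono (Tn_subset.trans (Tp_subset.trans ann_subset_U0))).trans hU

theorem ar_end (N : FNet) {s : Sys} (h : N.Real s) {a : ℝ} (ha : 0 ≤ a) (hH : Hom1 a s.2)
    (hsep : ∀ z ∈ B0, N.SepAt z) {u v : ℂ} (huv : 1 / 25 ≤ ‖u - v‖) (hu : ‖u‖ ≤ 37 / 10)
    (hv : ‖v‖ ≤ 37 / 10) (hs : Spots u v s) : Rm s.1 = 0 := by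
  have hS : orect (-(269 / 100)) (269 / 100) (221 / 100) (229 / 100) ⊆ S0 := fun z hz =>
    ⟨⟨by linarith [hz.1.1], by linarith [hz.1.2]⟩, by linarith [hz.2.1], by linarith [hz.2.2]⟩
  have hB : orect (-(261 / 100)) (261 / 100) (221 / 100) (229 / 100) ⊆ B0 := fun z hz =>
    (S0_subset.trans (ball_subset_ball (by norm_num)))
      (hS ⟨⟨by linarith [hz.1.1], by linarith [hz.1.2]⟩, hz.2⟩)
  have hls := N.ls_of_dual ha (N.dual.lin_of_hom1 h.2 ha hH)
  have hc := N.ar_det (a := 5 * a) (x₀ := -(269 / 100)) (x₁ := -(261 / 100)) (x₂ := 261 / 100)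
    (x₃ := 269 / 100) (y₀ := 221 / 100) (y₁ := 229 / 100) (c := 1 / 25) (C := 5) (by positivity)
    (by norm_num) (by norm_num) (by norm_num) (by norm_num) (by norm_num) (by norm_num)
    (fun x₀ x₁ y₀ y₁ δ M h1 h2 h3 h4 => hls x₀ x₁ y₀ y₁ δ M h1 h2 (h3.trans hS) h4)
    (fun z hz => hsep z (hB hz)) (by
      filter_upwards [hs] with z hz hzO
      refine ⟨u - v, huv, ?_⟩
      rintro e' (rfl | rfl)
      · refine qiAEnd_sc.frequently ((hz (hB hzO) 0 (by norm_num)).mono fun j hj => ?_)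
        simpa only [pow_zero, one_mul] using qiAEnd_key N h hu hv z j 0 hj
      · refine qiAEnd_sc.frequently ((hz (hB hzO) 1 (by norm_num)).mono fun j hj => ?_)
        simpa only [pow_one] using qiAEnd_key N h hu hv z j 1 hj)
  rw [Rm, ENNReal.inv_eq_zero, bar, qiAEnd_rect]
  refine ENNReal.eq_top_of_forall_nnreal_le fun M => ?_
  rw [← ENNReal.ofReal_coe_nnreal]
  refine N.le_en_of_condGe h.1 (kk_open _ _ _ _)
    ((kk_open _ _ _ _).inter (isOpen_lt Complex.continuous_re continuous_const))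
    ((kk_open _ _ _ _).inter (isOpen_lt continuous_const Complex.continuous_re))
    (nar_bounded _ _ _ _) ((qiAEnd_closure _ _ _ _).trans fun z hz => ?_)
    ((qiAEnd_closure _ _ _ _).trans fun z hz => ?_)
    ((qiAEnd_closure _ _ _ _).trans fun z hz => ?_) (hc M)
  · exact ⟨⟨by linarith [hz.1.1], by linarith [hz.1.2]⟩, by linarith [hz.2.1], by linarith [hz.2.2]⟩
  · have h1 : z ∈ orect (-(27 / 10)) (27 / 10) (11 / 5) (23 / 10) :=
      ⟨⟨by linarith [hz.1.1], by linarith [hz.1.2]⟩, by linarith [hz.2.1], by linarith [hz.2.2]⟩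
    exact ⟨⟨h1, show z.re < -(13 / 5) by linarith [hz.1.2]⟩, h1⟩
  · have h1 : z ∈ orect (-(27 / 10)) (27 / 10) (11 / 5) (23 / 10) :=
      ⟨⟨by linarith [hz.1.1], by linarith [hz.1.2]⟩, by linarith [hz.2.1], by linarith [hz.2.2]⟩
    exact ⟨⟨h1, show 13 / 5 < z.re by linarith [hz.1.1]⟩, h1⟩

end Pool.Agent.QL
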