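import Pool.Agent.P.MP_7a6434d8_pr.QL.GT.LT0
import Pool.Agent.P.MP_7a6434d8_pr.QL.GT.Lev

open MeasureTheory ProbabilityTheory Set Filter Topology Metric
open scoped ENNReal

namespace Pool.Agent.QL

open Pool.Agent.LGD

variable {ν : Measure Dist}

theorem qiALow_cut (hν : IsCanon ν) : ∃ E : ℝ, ∀ z a : ℂ, ‖z‖ ≤ 4 → a ≠ 0 → ‖a‖ ≤ 1 / 100 →
    ∃ f : Test, tsupport f ⊆ ball 0 5 ∧ (∀ x ∈ ball z (16 * ‖a‖), f x = 1) ∧
      -Real.log ‖a‖ * en0 f ≤ E := by
  obtain ⟨E, hE⟩ := exists_cutoff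
  refine ⟨7 * E, fun z a hz ha hr => ?_⟩
  have hp := norm_pos_iff.2 ha
  have hx : (2 : ℝ) ≤ 1 / (32 * ‖a‖) := by
    rw [le_div_iff₀ (by positivity)]
    linarith
  obtain ⟨N, n1, n2⟩ := exists_nat_pow_near (one_le_two.trans hx) (one_lt_two (α := ℝ))
  have hN : 1 ≤ N := by
    rcases N with _ | N
    · simp only [zero_add, pow_one] at n2
      linarith
    · omega
  have hN' : (1 : ℝ) ≤ N := by exact_mod_cast hN
  obtain ⟨f, f1, f2, f3⟩ := hE z N hN
  have hLN : -Real.log ‖a‖ ≤ 7 * N := by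
    have h1 : ‖a‖⁻¹ ≤ 2 ^ (N + 6) := by
      have e : ‖a‖⁻¹ = 1 / (32 * ‖a‖) * 32 := by field_simp
      rw [e, show (2 : ℝ) ^ (N + 6) = 2 ^ (N + 1) * 32 by ring]
      linarith
    have h2 := Real.log_le_log (inv_pos.2 hp) h1
    rw [Real.log_inv, Real.log_pow] at h2
    push_cast at h2
    nlinarith [Real.log_two_lt_d9, Real.log_two_gt_d9]
  refine ⟨f, f1.trans (closedBall_subset_ball' (by rw [dist_zero_right]; linarith)),
    fun x hx => f2 x (ball_subset_closedBall (ball_subset_ball (by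
      rw [le_div_iff₀ (by positivity)] at n1 ⊢
      linarith) hx)), ?_⟩
  have he0 := en0_nonneg hν f
  have : E = en0 f * N := by rw [f3]; field_simp
  rw [this]
  nlinarith

theorem qiALow_tail (hν : IsCanon ν) {δ : ℝ≥0∞} (hδ : 0 < δ) : ∃ y : ℝ, 1 ≤ y ∧ ∀ z a : ℂ,
    ‖z‖ ≤ 4 → a ≠ 0 → ‖a‖ ≤ 1 / 100 → ν {k | y * √(-Real.log ‖a‖) < |Xm z a k|} ≤ δ := by
  obtain ⟨C, hC⟩ := hν.ga 4
  obtain ⟨A, hA0, hA⟩ : ∃ A : ℝ, 0 ≤ A ∧ ex (1 - A) ≤ δ := by
    obtain ⟨d, -, h1, h2⟩ := ENNReal.lt_iff_exists_real_btwn.1 hδ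
    have h3 := ENNReal.ofReal_pos.1 h1
    refine ⟨|1 - Real.log d|, abs_nonneg _, le_trans (ENNReal.ofReal_le_ofReal ?_) h2.le⟩
    rw [← Real.le_log_iff_exp_le h3]
    linarith [le_abs_self (1 - Real.log d)]
  have c0 := abs_nonneg C
  have c1 := le_abs_self C
  have hy : 0 ≤ 2 * (1 + |C|) * A := by positivity
  refine ⟨2 * (1 + |C|) * A + 1, by linarith, fun z a hz ha hr => ?_⟩
  have hL := one_le_neg_log (norm_pos_iff.2 ha) hr
  obtain ⟨h1, h2⟩ := hC z a 0 1 ha one_ne_zero (by simpa using hz) (by simp; linarith)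
  rw [norm_one, one_div, Real.log_inv] at h1 h2
  set L := -Real.log ‖a‖
  have hq : √L ^ 2 = L := Real.sq_sqrt (by linarith)
  refine le_trans (measure_mono_ae ?_) ((h2 ((2 * (1 + |C|) * A + 1) * √L) (by positivity)).trans
    ((two_mul_ex _).trans ((ex_mono ?_).trans hA)))
  · filter_upwards [hν.X_one] with k hk hm
    change _ < |Xm z a k - Xm 0 1 k|
    rwa [hk, sub_zero]
  · have h5 : A ≤ ((2 * (1 + |C|) * A + 1) * √L) ^ 2 / (2 * (L + C)) := by
      rw [le_div_iff₀ (by linarith), mul_pow, hq]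
      have h6 : L + C ≤ (1 + |C|) * L := by nlinarith
      have h7 : 2 * (1 + |C|) * A ≤ (2 * (1 + |C|) * A + 1) ^ 2 := by nlinarith
      nlinarith [mul_le_mul_of_nonneg_left h6 hA0, mul_le_mul_of_nonneg_right h7 (zero_le_one.trans hL)]
    linarith

theorem qiALow_sq (hν : IsCanon ν) {f : Test} {U : Set ℂ} (hf : tsupport f ⊆ ball 0 5)
    (h1 : ∀ x ∈ U, f x = 1) {G : Dist → ℝ≥0∞} (hG : Loc U G) (hle : ∀ k, G k ≤ 1) (c c' : ℝ) :
    (∫⁻ k, G (lev k c') ∂ν) ^ 2 ≤ ex (en0 f * (c' - c) ^ 2) * ∫⁻ k, G (lev k c) ∂ν := by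
  have m : Measurable fun k => G (lev k c) := (hG.lev c).measurable
  have e1 : ∀ k, G (lev k c') = G (lev (sh f (c' - c) k) c) := fun k =>
    hG.eq_of_agree fun φ hφ => by
      rw [lev_apply, lev_apply, sh_apply, pair_of_one h1 hφ]
      ring
  have mx : ∀ s : ℝ, Measurable fun k : Dist => s * k (lap0 f) := fun s =>
    (measurable_eval _).const_mul s
  simp only [e1]
  rw [cm_sh hν hf (c' - c) m]
  refine (lint_cs ν (CMAux.measurable_ex.comp ((mx _).sub_const _)).aemeasurable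
    m.aemeasurable).trans (mul_le_mul' (le_of_eq ?_) (lintegral_mono fun k => ?_))
  · have e2 : ∀ k : Dist, ex ((c' - c) * k (lap0 f) - (c' - c) ^ 2 * en0 f / 2) ^ 2 =
        ex (2 * (c' - c) * k (lap0 f)) * ex (-((c' - c) ^ 2 * en0 f)) := fun k => by
      rw [ex_sq, ← CMAux.ex_add]
      congr 1
      ring
    simp only [Function.comp, e2]
    have m2 : Measurable fun k : Dist => ex (2 * (c' - c) * k (lap0 f)) :=
      CMAux.measurable_ex.comp (mx _)
    rw [lintegral_mul_const _ m2, lintegral_ex_lap hν, ← CMAux.ex_add]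
    congr 1
    ring
  · rw [sq]
    exact mul_le_of_le_one_left' (hle _)

theorem qiALow_win (g : ℝ → ℝ≥0∞) (a : ℝ) (n : ℕ) :
    ∑ i ∈ Finset.range n, ∫⁻ s in Icc (0 : ℝ) 1, g (a - i + s) =
      ∫⁻ u in Ioc (a - n + 1) (a + 1), g u := by
  induction n with
  | zero => simp
  | succ n ih =>
    have h0 : (0 : ℝ) ≤ n := n.cast_nonneg
    have e : ∫⁻ s in Icc (0 : ℝ) 1, g (a - n + s) = ∫⁻ u in Ioc (a - n) (a - n + 1), g u := by
      rw [← restrict_Ioc_eq_restrict_Icc, ← lintegral_indicator measurableSet_Ioc,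
        ← lintegral_indicator measurableSet_Ioc,
        ← lintegral_add_left_eq_self ((Ioc (a - n) (a - n + 1)).indicator g) (a - n)]
      refine lintegral_congr fun s => ?_
      by_cases h : s ∈ Ioc (0 : ℝ) 1
      · rw [indicator_of_mem h, indicator_of_mem
          (show a - n + s ∈ Ioc (a - n) (a - n + 1) from ⟨by linarith [h.1], by linarith [h.2]⟩)]
      · rw [indicator_of_notMem h, indicator_of_notMem
          fun h' => h ⟨by linarith [h'.1], by linarith [h'.2]⟩]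
    rw [Finset.sum_range_succ, ih, e, add_comm,
      ← lintegral_union measurableSet_Ioc (Ioc_disjoint_Ioc_of_le le_rfl),
      Ioc_union_Ioc_eq_Ioc (by linarith) (by linarith)]
    congr 3
    push_cast
    ring

theorem qiALow_main (hν : IsCanon ν) (F : Fr) {G : Dist → ℝ≥0∞} (hG : Measurable G)
    (hle : ∀ k, G k ≤ 1) {n : ℕ} {σ Y : ℝ} (h1 : 1 ≤ σ) (h2 : (n : ℝ) ≤ σ) :
    ∑ i ∈ Finset.range n, ∫⁻ s in Icc (0 : ℝ) 1,
        ∫⁻ k, G (lev k (QQ * Real.log ‖F.a‖ - i + s)) ∂ν ≤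
      (∫⁻ u in Icc (-(Y + σ)) (Y + σ), ∫⁻ k, G (absF F (lev k u)) ∂ν) +
        n * ν {k | Y < |Xm F.z F.a k|} := by
  have := hν.prob
  have m1 : ∀ b : ℝ, Measurable fun q : Dist × ℝ => G (lev (Tm F.z F.a q.1) (b + q.2)) := fun b =>
    hG.comp (measurable_lev.comp (((measurable_Tm _ _).comp measurable_fst).prodMk
      (measurable_snd.const_add b)))
  have m2 : Measurable fun q : Dist × ℝ => G (absF F (lev q.1 q.2)) :=
    hG.comp ((measurable_absF F).comp measurable_lev)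
  have mS : MeasurableSet {k | Y < |Xm F.z F.a k|} :=
    measurableSet_lt measurable_const (measurable_Xm _ _).abs
  have e1 : ∀ b : ℝ, ∫⁻ s in Icc (0 : ℝ) 1, ∫⁻ k, G (lev k (b + s)) ∂ν =
      ∫⁻ k, (∫⁻ s in Icc (0 : ℝ) 1, G (lev (Tm F.z F.a k) (b + s))) ∂ν := fun b => by
    refine Eq.trans (lintegral_congr fun s => ?_)
      (lintegral_lintegral_swap (f := fun k s => G (lev (Tm F.z F.a k) (b + s)))
        (m1 b).aemeasurable).symm
    exact ((hν.Tm_mp F.a_ne F.z).lintegral_comp (hG.comp (measurable_lev_const _))).symm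
  simp only [e1]
  rw [← lintegral_finsetSum _ fun i _ => (m1 _).lintegral_prod_right',
    ← lintegral_lintegral_swap m2.aemeasurable, ← lintegral_indicator_const mS,
    ← lintegral_add_left m2.lintegral_prod_right']
  refine lintegral_mono fun k => ?_
  by_cases hk : k ∈ {k | Y < |Xm F.z F.a k|}
  · rw [indicator_of_mem hk]
    refine le_trans ?_ le_add_self
    refine (Finset.sum_le_card_nsmul _ _ 1 fun i _ => unit_le fun s _ => hle _).trans ?_
    simp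
  · have h3 := abs_le.1 (not_lt.1 (show ¬ Y < |Xm F.z F.a k| from hk))
    refine le_trans ?_ le_self_add
    refine le_trans (le_of_eq ?_) ((qiALow_win (fun u => G (absF F (lev k u))) (-Xm F.z F.a k)
      n).trans_le (lintegral_mono_set fun u hu =>
        ⟨by linarith [hu.1, h3.2], by linarith [hu.2, h3.1]⟩))
    refine Finset.sum_congr rfl fun i _ => lintegral_congr fun s => ?_
    rw [absF_lev, Phi]
    congr 2
    ring

/-- Local limit lower bound. -/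
theorem ar_low (hν : IsCanon ν) {p : ℝ≥0∞} (hp : 0 < p) : ∃ p' : ℝ≥0∞, 0 < p' ∧ ∃ r₀ : ℝ, 0 < r₀ ∧
    ∀ r : ℝ, 0 < r → r ≤ r₀ → ∃ (n : ℕ) (c : ℝ), 0 < n ∧ c ≤ 0 ∧
      ∀ (F : Fr) (G : Dist → ℝ≥0∞), ‖F.z‖ ≤ 4 → ‖F.a‖ = r → Loc U0 G → (∀ k, G k ≤ 1) →
        n * p ≤ ∑ i ∈ Finset.range n, ∫⁻ s in Icc (0 : ℝ) 1, ∫⁻ k, G (lev k (c - i + s)) ∂ν →
        p' ≤ ∫⁻ k, G (absF F k) ∂nuh ν := by
  have hq0 : 0 < min p 1 := lt_min hp one_pos
  have hq1 : min p 1 ≠ ⊤ := ne_top_of_le_ne_top ENNReal.one_ne_top (min_le_right _ _)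
  have hq2 : 0 < min p 1 / 2 := ENNReal.half_pos hq0.ne'
  obtain ⟨E, hE⟩ := qiALow_cut hν
  obtain ⟨y, hy, ht⟩ := qiALow_tail hν hq2
  set B : ℝ≥0∞ := ENNReal.ofReal (4 * (y + 1)) ^ 2 * ex (E * (y + 2) ^ 2) with hB
  have hB1 : B ≠ ⊤ := ENNReal.mul_ne_top (ENNReal.pow_ne_top ENNReal.ofReal_ne_top) (ex_ne_top' _)
  have hg : gaussianReal 0 1 (Icc (-1 : ℝ) 1) ≠ 0 := fun h => by
    have := gaussianReal_absolutelyContinuous' 0 one_ne_zero h
    norm_num at this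
  refine ⟨(min p 1 / 2) ^ 2 / B * gaussianReal 0 1 (Icc (-1 : ℝ) 1),
    ENNReal.mul_pos (ENNReal.div_pos (pow_ne_zero 2 hq2.ne') hB1).ne' hg, 1 / 100, by norm_num,
    fun r h0 hr => ?_⟩
  have hL := one_le_neg_log h0 hr
  have hs : 1 ≤ √(-Real.log r) := Real.one_le_sqrt.2 hL
  have hn : 0 < ⌊√(-Real.log r)⌋₊ := Nat.floor_pos.2 hs
  refine ⟨⌊√(-Real.log r)⌋₊, QQ * Real.log r, hn,
    mul_nonpos_of_nonneg_of_nonpos (by unfold QQ gam; positivity) (by linarith),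
    fun F G hz ha hG hle h => ?_⟩
  subst ha
  obtain ⟨f, f1, f2, f3⟩ := hE F.z F.a hz F.a_ne hr
  have hsq : √(-Real.log ‖F.a‖) ^ 2 = -Real.log ‖F.a‖ := Real.sq_sqrt (by linarith)
  have n1 := Nat.floor_le (zero_le_one.trans hs)
  have n2 := Nat.lt_floor_add_one √(-Real.log ‖F.a‖)
  have h1 := (h.trans (qiALow_main hν F hG.measurable hle (Y := y * √(-Real.log ‖F.a‖)) hs n1)).trans
    (add_le_add_right (mul_le_mul_right (ht F.z F.a hz F.a_ne hr) _) _)
  set σ := √(-Real.log ‖F.a‖)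
  set n := ⌊σ⌋₊
  have n3 : (1 : ℝ) ≤ n := by exact_mod_cast hn
  have hH : Loc (ball F.z (16 * ‖F.a‖)) fun k => G (absF F k) := hG.absF F fun x hx => by
    rw [mem_ball_iff_norm, show F.map x = F.a * x + F.z from rfl, add_sub_cancel_right, norm_mul]
    nlinarith [mem_ball_zero_iff.1 hx]
  have key : ∀ t ∈ Icc (-1 : ℝ) 1, (min p 1 / 2) ^ 2 / B ≤ ∫⁻ k, G (absF F (lev k t)) ∂ν := by
    intro t ht
    set X := ex (E * (y + 2) ^ 2) * ∫⁻ k, G (absF F (lev k t)) ∂ν with hX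
    have e : (X ^ (1 / 2 : ℝ)) ^ 2 = X := by
      rw [← ENNReal.rpow_two, ← ENNReal.rpow_mul]
      norm_num
    have h2 : ∫⁻ u in Icc (-(y * σ + σ)) (y * σ + σ), ∫⁻ k, G (absF F (lev k u)) ∂ν ≤
        n * (ENNReal.ofReal (4 * (y + 1)) * X ^ (1 / 2 : ℝ)) := by
      refine (setLIntegral_mono' (g := fun _ => X ^ (1 / 2 : ℝ)) measurableSet_Icc
        fun u hu => le_of_sq_le_sq' ?_).trans ?_
      · rw [e]
        refine (qiALow_sq hν f1 f2 hH (fun k => hle _) t u).trans (mul_le_mul_left (ex_mono ?_) _)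
        have h3 : (u - t) ^ 2 ≤ ((y + 2) * σ) ^ 2 :=
          sq_le_sq' (by linarith [hu.1, ht.2]) (by linarith [hu.2, ht.1])
        rw [mul_pow, hsq] at h3
        nlinarith [mul_le_mul_of_nonneg_left h3 (en0_nonneg hν f),
          mul_le_mul_of_nonneg_left f3 (sq_nonneg (y + 2))]
      · rw [setLIntegral_const, Real.volume_Icc, mul_comm, ← mul_assoc, ← ENNReal.ofReal_natCast,
          ← ENNReal.ofReal_mul n.cast_nonneg]
        refine mul_le_mul_left (ENNReal.ofReal_le_ofReal ?_) _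
        nlinarith
    have h3 := ((mul_le_mul_right (min_le_left p 1) _).trans h1).trans (add_le_add_left h2 _)
    rw [← mul_add, ENNReal.mul_le_mul_iff_right (by exact_mod_cast hn.ne')
      (ENNReal.natCast_ne_top n)] at h3
    nth_rewrite 1 [← ENNReal.add_halves (min p 1)] at h3
    have h4 := pow_le_pow_left' ((ENNReal.add_le_add_iff_right
      (ENNReal.div_ne_top hq1 two_ne_zero)).1 h3) 2
    rw [mul_pow, e, hX, ← mul_assoc, ← hB] at h4
    exact ENNReal.div_le_of_le_mul' h4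
  rw [lintegral_nuh' hν hH.measurable, ← setLIntegral_const]
  exact (setLIntegral_mono' measurableSet_Icc key).trans (setLIntegral_le_lintegral _ _)

end Pool.Agent.QL
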