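import Pool.Agent.P.MP_7a6434d8_pr.QL.I.Defs
import Pool.Agent.P.MP_7a6434d8_pr.QL.NLS
import Pool.Agent.P.MP_7a6434d8_pr.QL.NCond

open MeasureTheory ProbabilityTheory Set Filter Topology Metric
open scoped ENNReal

namespace Pool.Agent.QL

open Pool.Agent.LGD

theorem qiAPig_cover {x₀ x₁ y₀ y₁ : ℝ} (hx : x₀ ≤ x₁) (hy : y₀ ≤ y₁) {e : ℝ} (he : 0 < e) :
    ∃ J : Finset ℂ, J.Nonempty ∧ (∀ p ∈ J, p ∈ crect x₀ x₁ y₀ y₁) ∧
      crect x₀ x₁ y₀ y₁ ⊆ ⋃ p ∈ J, ball p e ∩ crect x₀ x₁ y₀ y₁ := by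
  obtain ⟨t, h1, h2, h3⟩ := finite_cover_balls_of_compact (ncross_compact x₀ x₁ y₀ y₁) he
  have h4 : crect x₀ x₁ y₀ y₁ ⊆ ⋃ p ∈ h2.toFinset, ball p e ∩ crect x₀ x₁ y₀ y₁ := by
    intro z hz
    obtain ⟨p, hp, hz'⟩ := mem_iUnion₂.1 (h3 hz)
    exact mem_iUnion₂.2 ⟨p, h2.mem_toFinset.2 hp, hz', hz⟩
  refine ⟨h2.toFinset, ?_, fun p hp => h1 (h2.mem_toFinset.1 hp), h4⟩
  obtain ⟨p, hp, -⟩ := mem_iUnion₂.1 (h4 (show (⟨x₀, y₀⟩ : ℂ) ∈ crect x₀ x₁ y₀ y₁ from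
    ⟨⟨le_rfl, hx⟩, le_rfl, hy⟩))
  exact ⟨p, hp⟩

theorem qiAPig_Tn {z : ℂ} : z ∈ Tn.1 ↔ |z.re| < 27 / 10 ∧ 11 / 5 < z.im ∧ z.im < 23 / 10 := by
  simp [Tn, bar, rect, rot]

theorem qiAPig_sub {x₀ x₁ y₀ y₁ : ℝ} (h0 : -(27 / 10) < x₀) (h1 : x₁ < 27 / 10) (h2 : 11 / 5 < y₀)
    (h3 : y₁ < 23 / 10) : crect x₀ x₁ y₀ y₁ ⊆ Tn.1 := fun _ hz =>
  qiAPig_Tn.2 ⟨abs_lt.2 ⟨h0.trans_le hz.1.1, hz.1.2.trans_lt h1⟩, h2.trans_le hz.2.1,
    hz.2.2.trans_lt h3⟩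

theorem qiAPig_norm {x₀ x₁ y₀ y₁ : ℝ} (h0 : -(27 / 10) < x₀) (h1 : x₁ < 27 / 10)
    (h2 : 11 / 5 < y₀) (h3 : y₁ < 23 / 10) {z : ℂ} (hz : z ∈ crect x₀ x₁ y₀ y₁) :
    ‖z‖ ≤ 37 / 10 := by
  obtain ⟨a1, a2, a3⟩ := qiAPig_Tn.1 (qiAPig_sub h0 h1 h2 h3 hz)
  have h5 : ‖z‖ ^ 2 = z.re ^ 2 + z.im ^ 2 := by
    rw [Complex.sq_norm, Complex.normSq_apply]; ring
  have h6 := abs_lt.1 a1
  by_contra hc
  push Not at hc
  nlinarith [h6.1, h6.2]

theorem qiAPig_closure {S : Set ℂ} {x₀ x₁ y₀ y₁ : ℝ} (h : S ⊆ crect x₀ x₁ y₀ y₁) :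
    closure S ⊆ crect x₀ x₁ y₀ y₁ :=
  closure_minimal h (ncross_compact x₀ x₁ y₀ y₁).isClosed

theorem qiAPig_rot {x₀ x₁ y₀ y₁ : ℝ} :
    {z : ℂ | Complex.I * z ∈ orect x₀ x₁ y₀ y₁} ⊆ crect y₀ y₁ (-x₁) (-x₀) := by
  intro z hz
  simp only [orect, mem_ofPred_eq, Complex.mul_re, Complex.I_re, Complex.I_im, Complex.mul_im,
    zero_mul, one_mul, zero_sub, zero_add, mem_Ioo] at hz
  exact ⟨⟨hz.2.1.le, hz.2.2.le⟩, by linarith [hz.1.2], by linarith [hz.1.1]⟩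

theorem qiAPig_bdd : Bornology.IsBounded Tn.1 :=
  (isBounded_ball (x := (0 : ℂ)) (r := 4)).subset
    (Tn_subset.trans (Tp_subset.trans ann_subset_U0))

theorem qiAPig_open : IsOpen Tn.1 := by
  have e : Tn.1 = {z : ℂ | |z.re| < 27 / 10} ∩ ({z | 11 / 5 < z.im} ∩ {z | z.im < 23 / 10}) := by
    ext z; exact qiAPig_Tn
  rw [e]
  exact (isOpen_lt (by fun_prop) continuous_const).inter
    ((isOpen_lt continuous_const Complex.continuous_im).inter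
      (isOpen_lt Complex.continuous_im continuous_const))

theorem qiAPig_cond {N : FNet} {s : Sys} (h : N.Real s) (h0 : Rm s.2 = ⊤) (M : ℝ) :
    N.CondGe (crect (-(269 / 100)) (269 / 100) (221 / 100) (229 / 100))
      (crect (-(269 / 100)) (269 / 100) (227 / 100) (229 / 100))
      (crect (-(269 / 100)) (269 / 100) (221 / 100) (223 / 100)) M := by
  have hE : En s.2 Tn = 0 := by
    rwa [Rm_eq, ENNReal.inv_eq_top] at h0
  have hM : 0 < |M| + 1 := by positivity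
  have hB : 0 < 1 / (8 * (|M| + 1)) := by positivity
  have h1 := N.cond_of_dual (ζ := Complex.I) Complex.norm_I (x₀ := -(229 / 100))
    (x₁ := -(221 / 100)) (y₀ := -(269 / 100)) (y₁ := 269 / 100) (δ := 1 / 50)
    (B := 1 / (8 * (|M| + 1))) (M := |M| + 1) (by norm_num) (by norm_num) (by norm_num) hB.le
    (by field_simp; norm_num) fun hc => ?_
  · refine h1.mono (qiAPig_rot.trans ?_) (qiAPig_rot.trans ?_) (qiAPig_rot.trans ?_)
      (by linarith [le_abs_self M])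
    all_goals
      rintro z ⟨⟨a1, a2⟩, a3, a4⟩
      exact ⟨⟨a1, a2⟩, by linarith, by linarith⟩
  · have h2 := N.dual.le_en_of_condGe h.2 (K' := Tn.1)
      (A' := Tn.1 ∩ {x | x.re < -(13 / 5)}) (B' := Tn.1 ∩ {x | 13 / 5 < x.re}) qiAPig_open
      (qiAPig_open.inter (isOpen_lt Complex.continuous_re continuous_const))
      (qiAPig_open.inter (isOpen_lt continuous_const Complex.continuous_re)) qiAPig_bdd
      ((qiAPig_closure qiAPig_rot).trans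
        (qiAPig_sub (by norm_num) (by norm_num) (by norm_num) (by norm_num))) ?_ ?_ hc
    · have h3 : ENNReal.ofReal (1 / (8 * (|M| + 1))) ≤ 0 := h2.trans_eq hE
      exact (ENNReal.ofReal_pos.2 hB).not_ge h3
    · refine (qiAPig_closure qiAPig_rot).trans fun z hz => ?_
      have h3 := qiAPig_sub (by norm_num) (by norm_num) (by norm_num) (by norm_num) hz
      refine ⟨⟨h3, ?_⟩, h3⟩
      have := hz.1.2
      simp only [mem_ofPred_eq]
      linarith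
    · refine (qiAPig_closure qiAPig_rot).trans fun z hz => ?_
      have h3 := qiAPig_sub (by norm_num) (by norm_num) (by norm_num) (by norm_num) hz
      refine ⟨⟨h3, ?_⟩, h3⟩
      have := hz.1.1
      simp only [mem_ofPred_eq]
      linarith

theorem qiAPig_piece {x₀ x₁ y₀ y₁ : ℝ} (h : crect x₀ x₁ y₀ y₁ ⊆ Tn.1) (p : ℂ) :
    closure (ball p (1 / 1000) ∩ crect x₀ x₁ y₀ y₁) ⊆ ball p (1 / 500) ∩ Tn.1 :=
  subset_inter (((closure_mono inter_subset_left).trans closure_ball_subset_closedBall).trans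
    (closedBall_subset_ball (by norm_num))) ((qiAPig_closure inter_subset_right).trans h)

/-- A dual insulator contains one of finitely many superconducting pairs of discs. -/
theorem ar_pigeon : ∃ P : Finset (ℂ × ℂ),
    (∀ π ∈ P, 1 / 25 ≤ ‖π.1 - π.2‖ ∧ ‖π.1‖ ≤ 37 / 10 ∧ ‖π.2‖ ≤ 37 / 10) ∧
    ∀ s : Sys, Realized s → Rm s.2 = ⊤ → ∃ π ∈ P, En s.1 (spot π.1 π.2) = ⊤ := by
  obtain ⟨J, hJ, j1, j2⟩ := qiAPig_cover (x₀ := -(269 / 100)) (x₁ := 269 / 100)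
    (y₀ := 227 / 100) (y₁ := 229 / 100) (by norm_num) (by norm_num) (e := 1 / 1000) (by norm_num)
  obtain ⟨J', hJ', j1', j2'⟩ := qiAPig_cover (x₀ := -(269 / 100)) (x₁ := 269 / 100)
    (y₀ := 221 / 100) (y₁ := 223 / 100) (by norm_num) (by norm_num) (e := 1 / 1000) (by norm_num)
  refine ⟨J ×ˢ J', fun π hπ => ?_, fun s ⟨N, hN⟩ h0 => ?_⟩
  · obtain ⟨h1, h2⟩ := Finset.mem_product.1 hπ
    refine ⟨?_, qiAPig_norm (by norm_num) (by norm_num) (by norm_num) (by norm_num) (j1 _ h1),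
      qiAPig_norm (by norm_num) (by norm_num) (by norm_num) (by norm_num) (j1' _ h2)⟩
    refine le_trans ?_ ((le_abs_self _).trans (Complex.abs_im_le_norm (π.1 - π.2)))
    rw [Complex.sub_im]
    linarith [(j1 _ h1).2.1, (j1' _ h2).2.2]
  · by_contra hn
    push Not at hn
    set M : ℝ := ∑ π ∈ J ×ˢ J', (En s.1 (spot π.1 π.2)).toReal + 1 with hM
    obtain ⟨p, hp, q, hq, hc⟩ := N.cond_pigeon J J' hJ hJ' _
      (fun p => ball p (1 / 1000) ∩ crect (-(269 / 100)) (269 / 100) (227 / 100) (229 / 100))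
      (fun p => ball p (1 / 1000) ∩ crect (-(269 / 100)) (269 / 100) (221 / 100) (223 / 100)) M
      ((qiAPig_cond hN h0 _).mono subset_rfl j2 j2' le_rfl)
    have h1 := N.le_en_of_condGe hN.1 (K' := Tn.1) (A' := ball p (1 / 500))
      (B' := ball q (1 / 500)) qiAPig_open isOpen_ball isOpen_ball qiAPig_bdd
      ((qiAPig_closure subset_rfl).trans
        (qiAPig_sub (by norm_num) (by norm_num) (by norm_num) (by norm_num)))
      (qiAPig_piece (qiAPig_sub (by norm_num) (by norm_num) (by norm_num) (by norm_num)) p)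
      (qiAPig_piece (qiAPig_sub (by norm_num) (by norm_num) (by norm_num) (by norm_num)) q) hc
    have hpq : (p, q) ∈ J ×ˢ J' := Finset.mk_mem_product hp hq
    have h2 : M ≤ (En s.1 (spot p q)).toReal :=
      (ENNReal.ofReal_le_iff_le_toReal (hn _ hpq)).1 h1
    have h3 := Finset.single_le_sum (f := fun π : ℂ × ℂ => (En s.1 (spot π.1 π.2)).toReal)
      (fun _ _ => ENNReal.toReal_nonneg) hpq
    simp only at h3
    linarith

end Pool.Agent.QL
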