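import Pool.Agent.P.MP_7a6434d8_pr.QL.I.ABC
import Pool.Agent.P.MP_7a6434d8_pr.QL.I.ALow
import Pool.Agent.P.MP_7a6434d8_pr.QL.I.APig

open MeasureTheory ProbabilityTheory Set Filter Topology Metric
open scoped ENNReal

namespace Pool.Agent.QL

open Pool.Agent.LGD

variable {ν : Measure Dist}

theorem qiASpot_tendsto : Tendsto sc atTop (𝓝 0) := by
  have h := tendsto_pow_atTop_nhds_zero_of_lt_one (r := (1 / 256 : ℝ)) (by norm_num) (by norm_num)
  refine h.congr fun j => ?_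
  rw [sc, one_div_pow]

/-- A union bound for the probabilities at a level. -/
theorem qiASpot_bet (hν : IsCanon ν) (R : Regime ν) {ι : Type} (P : Finset ι) {A : Set Sys}
    {E : ι → Set Sys} {G : ι → Dist → ℝ≥0∞} (hG : ∀ i, Measurable (G i))
    (h : ∀ i, ∀ᵐ k ∂nuh ν, R.K k (E i) = G i k)
    (hA : ∀ s, Realized s → s ∈ A → ∃ i ∈ P, s ∈ E i) (c : ℝ) :
    R.bet c A ≤ ∑ i ∈ P, ∫⁻ s in Icc (0 : ℝ) 1, ∫⁻ k, G i (lev k (c + s)) ∂ν := by
  have := hν.prob
  have h1 : ∀ᵐ k ∂nuh ν, R.K k A ≤ ∑ i ∈ P, G i k := by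
    filter_upwards [R.real, (eventually_all_finset P).2 fun i _ => h i] with k h1 h2
    rw [← Finset.sum_congr rfl h2]
    refine le_trans (measure_mono_ae ?_) (measure_biUnion_finset_le P E)
    filter_upwards [h1] with s hs hs'
    obtain ⟨i, hi, h3⟩ := hA s hs hs'
    exact mem_biUnion hi h3
  have m : ∀ i, Measurable fun p : ℝ × Dist => G i (lev p.2 (c + p.1)) := fun i =>
    (hG i).comp (measurable_lev.comp (measurable_snd.prodMk (measurable_fst.const_add c)))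
  rw [← lintegral_finsetSum _ fun i _ => (m i).lintegral_prod_right']
  refine lintegral_mono_ae (ae_restrict_of_ae ((ae_shift (ae_nuh_tk hν h1) c).mono fun s hs => ?_))
  rw [add_comm] at hs
  refine (lintegral_mono_ae hs).trans (le_of_eq ?_)
  exact lintegral_finsetSum _ fun i _ => (hG i).comp (measurable_lev_const _)

/-- One of finitely many local events is likely in all frames of infinitely many scales. -/
theorem qiASpot_one (hν : IsCanon ν) (R : Regime ν) {ι : Type} (P : Finset ι) {A : Set Sys}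
    {E : ι → Set Sys} (hE : ∀ i, MeasurableSet[SS U0] (E i))
    (hA : ∀ s, Realized s → s ∈ A → ∃ i ∈ P, s ∈ E i) {p : ℝ≥0∞} (hp : 0 < p)
    (h : ∀ c ≤ 0, p ≤ R.bet c A) : ∃ p' : ℝ≥0∞, 0 < p' ∧ ∃ i ∈ P, ∃ᶠ j in atTop, ∀ F : Fr,
      ‖F.a‖ = sc j → MapsTo F.map U0 U0 → p' ≤ ∫⁻ k, R.K k (pull F ⁻¹' E i) ∂nuh ν := by
  choose G hG hG1 hG2 using fun i => R.loc1 nice_U0 (hE i)
  have h1 := fun c hc =>
    (h c hc).trans (qiASpot_bet hν R P (fun i => (hG i).measurable) hG2 hA c)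
  have hP : P.Nonempty := by
    rcases P.eq_empty_or_nonempty with rfl | hP
    · exact absurd (h1 0 le_rfl) (by simpa using hp.ne')
    · exact hP
  obtain ⟨p', hp', r₀, hr₀, H⟩ :=
    ar_low hν (p := p / P.card) (ENNReal.div_pos hp.ne' (ENNReal.natCast_ne_top _))
  refine ⟨p', hp', ?_⟩
  have h2 : ∀ᶠ j in atTop, ∃ i ∈ P, ∀ F : Fr, ‖F.a‖ = sc j → MapsTo F.map U0 U0 →
      p' ≤ ∫⁻ k, R.K k (pull F ⁻¹' E i) ∂nuh ν := by
    filter_upwards [qiASpot_tendsto.eventually (eventually_le_nhds hr₀)] with j hj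
    obtain ⟨n, c, -, hc, H⟩ := H (sc j) (sc_pos j) hj
    obtain ⟨i, hi, h3⟩ := ENNReal.exists_le_of_sum_le hP (f := fun _ => n * (p / P.card))
      (g := fun i => ∑ m ∈ Finset.range n,
        ∫⁻ s in Icc (0 : ℝ) 1, ∫⁻ k, G i (lev k (c - m + s)) ∂ν) (by
        rw [Finset.sum_comm, Finset.sum_const, nsmul_eq_mul, mul_left_comm]
        refine (mul_le_mul_right ENNReal.mul_div_le _).trans ?_
        rw [← nsmul_eq_mul]
        refine le_trans (le_of_eq (by rw [Finset.card_range]))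
          (Finset.card_nsmul_le_sum _ _ p fun m _ => h1 _ ?_)
        linarith [Nat.cast_nonneg (α := ℝ) m])
    refine ⟨i, hi, fun F hF hm => ?_⟩
    have h4 : ‖F.z‖ ≤ 4 := by
      have h5 := hm (mem_ball_self (by norm_num) : (0 : ℂ) ∈ U0)
      rw [Fr.map_apply, mul_zero, zero_add] at h5
      exact (mem_ball_zero_iff.1 h5).le
    refine (H F (G i) h4 hF (hG i) (hG1 i) h3).trans (le_of_eq (lintegral_congr_ae ?_))
    filter_upwards [R.cov F hm _ (hE i), (absF_qmp hν F).ae (hG2 i)] with k a b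
    rw [a, b]
  by_contra hc
  simp only [not_exists, not_and, not_frequently] at hc
  obtain ⟨j, ⟨i, hi, h3⟩, h4⟩ := (h2.and ((eventually_all_finset P).2 hc)).exists
  exact h4 i hi h3

theorem ar_spots (hν : IsCanon ν) (R : Regime ν) {p : ℝ≥0∞} (hp : 0 < p)
    (h : ∀ c ≤ 0, p ≤ R.bet c {s | Rm s.2 = ⊤}) :
    ∃ u v : ℂ, 1 / 25 ≤ ‖u - v‖ ∧ ‖u‖ ≤ 37 / 10 ∧ ‖v‖ ≤ 37 / 10 ∧
      ∀ᵐ k ∂nuh ν, ∀ᵐ s ∂(R.K k), Spots u v s := by
  obtain ⟨P, hP, hA⟩ := ar_pigeon
  have hE : ∀ π : ℂ × ℂ, MeasurableSet[SS Tp.1] {s : Sys | En s.1 (spot π.1 π.2) = ⊤} := fun π =>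
    SS_mono Tn_subset _ (measurable_En_fst (spot π.1 π.2) (measurableSet_singleton ⊤))
  obtain ⟨p', hp', π, hπ, H⟩ := qiASpot_one hν R P (fun π => SS_mono nice_Tp.2.2 _ (hE π)) hA hp h
  refine ⟨π.1, π.2, (hP π hπ).1, (hP π hπ).2.1, (hP π hπ).2.2, R.ae_swap hν
    (fun l F => pull (F.comp (rotF l)) ⁻¹' {s : Sys | En s.1 (spot π.1 π.2) = ⊤})
    (fun l F => measurable_pull _ (SS_le _ _ (hE π))) fun z hz l _ => ?_⟩
  have hz1 : ‖z‖ < 397 / 100 := mem_ball_zero_iff.1 hz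
  have hz2 : ‖z‖ ≤ 398 / 100 := by linarith
  refine R.io hν (z := z) (mem_ball_zero_iff.2 (by linarith))
    (fun j => ((gfr j z).comp (rotF l)).map '' Tp.1) _ 1
    (fun j hj => nice_Tp.image (gfr_mapsTo hj hz2 l)) (fun i j hij => gfr_disjoint hij z l l)
    (fun j => measurable_pull_SS _ _ (hE π)) (fun r hr => ?_) hp' ?_
  · filter_upwards [qiASpot_tendsto.eventually (eventually_le_nhds (show 0 < r / 5 by linarith))]
      with j hj
    exact (image_mono nice_Tp.2.2).trans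
      ((gfr_image_subset j z l).trans (ball_subset_ball (by linarith)))
  · refine (H.and_eventually (eventually_ge_atTop 1)).mono fun j hj => ?_
    exact hj.1 _ (by rw [Fr.comp_a, norm_mul, norm_gfr_a, norm_rotF_a, mul_one])
      (gfr_mapsTo hj.2 hz2 l)

end Pool.Agent.QL
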