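import Pool.Agent.P.MP_7a6434d8_pr.QL.I.Sub
import Pool.Agent.P.MP_7a6434d8_pr.QL.I.Var
import Pool.Agent.P.MP_7a6434d8_pr.QL.I.Lin

open MeasureTheory ProbabilityTheory Set Filter Topology Metric
open scoped ENNReal

namespace Pool.Agent.QL

open Pool.Agent.LGD

/-- Covariance forces isotropy. -/
theorem id_alg (N : FNet) {s : Idx → ℝ≥0∞} (h : N.Real1 s) (Q : ℂ → ℝ≥0∞) (hQ : ∀ e, Q e ≠ ⊤)
    (hF : ∀ F : Fr, MapsTo F.map U0 U0 → ∀ e : ℂ, IsQ e →
      FS (fun i => s (F.act i)) (lin e) S0 = Q e) :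
    Hom1 ((Q 1).toReal / (28 / 5) ^ 2) s := by
  have hc : ∀ e, Continuous (lin e) := fun e => by
    unfold lin
    fun_prop
  have hconj : ∀ a : ℂ, IsQ a → IsQ (starRingEnd ℂ a) := by
    rintro _ ⟨x, y, rfl⟩
    exact ⟨x, -y, by simp⟩
  have ho : ∀ F : Fr, IsOpen (F.inv ⁻¹' S0) := fun F => isOpen_S0.preimage F.continuous_inv
  have key : ∀ F : Fr, MapsTo F.map U0 U0 → ∀ e : ℂ, IsQ e →
      FS s (lin e) (F.inv ⁻¹' S0) = Q (e * starRingEnd ℂ F.a) := fun F hm e he => by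
    have h1 : starRingEnd ℂ F.a ≠ 0 := (map_ne_zero _).2 F.a_ne
    have h2 := (N.fs_affine h (hc e) (ho F) 1 (-lin e F.z)).2 one_ne_zero
    rw [one_pow, ENNReal.ofReal_one, one_mul] at h2
    rw [← hF F hm _ (he.mul (hconj F.a F.2.2.1)), fs_act, ← h2]
    congr 1
    funext x
    rw [lin_inv, mul_div_cancel_right₀ _ h1, one_mul, sub_eq_add_neg]
  have maps : ∀ F : Fr, ‖F.a‖ ≤ 1 / 2 → ‖F.z‖ ≤ 2 → MapsTo F.map U0 U0 := fun F h1 h2 x hx => by
    rw [U0, mem_ball_zero_iff] at hx ⊢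
    refine (norm_add_le _ _).trans_lt ?_
    rw [norm_mul]
    nlinarith [norm_nonneg F.a, norm_nonneg x]
  have scal : ∀ (t : ℝ) (e : ℂ), IsQ (t : ℂ) → IsQ e → Q (t * e) ≤ ENNReal.ofReal (t ^ 2) * Q e ∧
      (t ≠ 0 → Q (t * e) = ENNReal.ofReal (t ^ 2) * Q e) := fun t e ht he => by
    have hm : MapsTo (rotF 0).map U0 U0 := fun x hx => by
      rwa [U0, mem_ball_zero_iff, norm_rotF_map, ← mem_ball_zero_iff]
    have h1 := key _ hm e he
    have h2 := key _ hm _ (ht.mul he)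
    rw [rotF_a, pow_zero, map_one, mul_one] at h1 h2
    have h3 : lin (t * e) = fun z => t * lin e z + 0 := funext fun z => by
      simp only [lin, Complex.re_ofReal_mul, Complex.im_ofReal_mul]
      ring
    rw [← h1, ← h2, h3]
    exact N.fs_affine h (hc e) (ho _) t 0
  have small : ∀ e b : ℂ, IsQ e → IsQ b → b ≠ 0 → ‖b‖ ≤ 1 / 2 →
      ENNReal.ofReal (‖b‖ ^ 2) * Q e ≤ Q (e * b) := fun e b he hb h0 h1 => by
    let G : Fr := ⟨(0, starRingEnd ℂ b), isQ_zero, hconj b hb, (map_ne_zero _).2 h0⟩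
    have hG : ‖G.a‖ = ‖b‖ := Complex.norm_conj b
    have h2 := key G (maps G (hG ▸ h1) (by simp [G, Fr.z])) e he
    rw [show starRingEnd ℂ G.a = b from Complex.conj_conj b] at h2
    have h3 := N.le_fs_of_squares h (hc e) (c := ENNReal.ofReal ((5 / 28) ^ 2) * Q e) (ho G)
      one_pos fun w ρ hw hρ p0 p1 hs => by
        obtain ⟨F, e1, e2, e3⟩ := exists_sq_frame hw hρ p0
        have h4 : ‖w‖ ≤ 2 := by
          have h5 : w ∈ G.map '' S0 := by
            rw [G.image_eq]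
            exact hs ⟨⟨by linarith, by linarith⟩, by linarith, by linarith⟩
          obtain ⟨x, hx, rfl⟩ := h5
          have h6 := mem_ball_zero_iff.1 (S0_subset hx)
          rw [G.map_apply, show G.z = 0 from rfl, add_zero, norm_mul, hG]
          nlinarith [norm_nonneg b, norm_nonneg x]
        have h5 : ‖F.a‖ ≤ 1 / 2 := by
          rw [e2, Complex.norm_real, Real.norm_of_nonneg (by positivity)]
          linarith
        rw [← e3, key F (maps F h5 (e1 ▸ h4)) e he, e2, Complex.conj_ofReal, mul_comm e,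
          (scal _ e (e2 ▸ F.2.2.1) he).2 (by positivity), mul_right_comm,
          ← ENNReal.ofReal_mul (by positivity)]
        exact le_of_eq (by congr 2; ring)
    rw [h2, ← G.image_eq, volume_image_S0, hG, mul_right_comm,
      ← ENNReal.ofReal_mul (by positivity)] at h3
    refine le_of_eq_of_le ?_ h3
    congr 2
    ring
  have big : ∀ e b : ℂ, IsQ e → IsQ b → b ≠ 0 →
      ENNReal.ofReal (‖b‖ ^ 2) * Q e ≤ Q (e * b) := fun e b he hb h0 => by
    obtain ⟨n, hn⟩ := exists_nat_gt (2 * ‖b‖)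
    have h1 : (0 : ℝ) < n := lt_of_le_of_lt (by positivity) hn
    have h2 : ((n : ℝ) : ℂ) ≠ 0 := Complex.ofReal_ne_zero.2 h1.ne'
    have h3 : IsQ (b / (n : ℝ)) := hb.div (isQ_real_nat n)
    have h4 : ‖b / (n : ℝ)‖ = ‖b‖ / n := by
      rw [norm_div, Complex.norm_real, Real.norm_of_nonneg h1.le]
    have h5 := small e _ he h3 (div_ne_zero h0 h2) (by
      rw [h4, div_le_iff₀ h1]
      linarith)
    rw [show e * b = (n : ℝ) * (e * (b / (n : ℝ))) by field_simp,
      (scal n _ (isQ_real_nat n) (he.mul h3)).2 h1.ne']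
    refine le_of_eq_of_le ?_ (mul_le_mul_right h5 _)
    rw [← mul_assoc, ← ENNReal.ofReal_mul (by positivity), h4]
    congr 2
    field_simp
  have fin : ∀ e : ℂ, IsQ e → Q e = ENNReal.ofReal (‖e‖ ^ 2) * Q 1 := fun e he => by
    rcases eq_or_ne e 0 with rfl | h0
    · have := (scal 0 1 (isQ_ofReal_iff.2 ⟨0, by simp⟩) isQ_one).1
      simpa using this
    have h1 := big 1 e isQ_one he h0
    have h2 := big e e⁻¹ he he.inv (inv_ne_zero h0)
    rw [one_mul] at h1
    rw [mul_inv_cancel₀ h0] at h2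
    refine le_antisymm (le_of_eq_of_le ?_ (mul_le_mul_right h2 _)) h1
    rw [← mul_assoc, ← ENNReal.ofReal_mul (by positivity), norm_inv, ← mul_pow,
      mul_inv_cancel₀ (norm_ne_zero_iff.2 h0), one_pow, ENNReal.ofReal_one, one_mul]
  intro F hm e he
  rw [hF F hm e he, fin e he, ← ENNReal.ofReal_toReal (hQ 1), ← ENNReal.ofReal_mul (by positivity),
    ENNReal.toReal_ofReal ENNReal.toReal_nonneg]
  congr 1
  field_simp

end Pool.Agent.QL
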