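import Pool.Agent.P.MP_7a6434d8_pr.QL.GT.Basic
import Pool.Agent.P.MP_7a6434d8_pr.QL.GR

open MeasureTheory ProbabilityTheory Set Filter Topology Metric
open scoped ENNReal

namespace Pool.Agent.QL

open Pool.Agent.LGD

theorem qiReg_integral (ν : Measure Dist) {f : Dist → ℝ} (hf : Measurable f) :
    ∫ k, f k ∂nuh ν = ∫ p, f (lev p.1 p.2) ∂ν.prod (gaussianReal 0 1) := by
  rw [nuh, integral_map measurable_lev.aemeasurable hf.aestronglyMeasurable]

theorem qiReg_gauss {ν : Measure Dist} (hν : IsCanon ν) (φ : Test) :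
    HasGaussianLaw (fun k : Dist => k φ) (nuh ν) := by
  have := hν.prob
  have hA : HasGaussianLaw (fun p : Dist × ℝ => p.1 φ) (ν.prod (gaussianReal 0 1)) := by
    refine ⟨?_⟩
    have e : (fun p : Dist × ℝ => p.1 φ) = (fun k : Dist => k φ) ∘ Prod.fst := rfl
    rw [e, ← Measure.map_map (measurable_eval φ) measurable_fst, Measure.map_fst_prod,
      measure_univ, one_smul]
    exact (hν.gauss φ).isGaussian_map
  have hB : HasGaussianLaw (fun p : Dist × ℝ => p.2) (ν.prod (gaussianReal 0 1)) := by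
    refine ⟨?_⟩
    rw [Measure.map_snd_prod, measure_univ, one_smul]
    infer_instance
  have hI := indepFun_prod (μ := ν) (ν := gaussianReal 0 1) (measurable_eval φ)
    (measurable_id.const_smul (∫ x, φ x))
  have hS := iIndepFun.hasGaussianLaw_fun_add hA (hB.fun_smul (∫ x, φ x)) hI
  refine ⟨?_⟩
  rw [nuh, Measure.map_map (measurable_eval φ) measurable_lev]
  have e : ((fun k : Dist => k φ) ∘ fun p : Dist × ℝ => lev p.1 p.2) =
      fun p : Dist × ℝ => p.1 φ + (∫ x, φ x) • p.2 := by
    funext p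
    simp only [Function.comp_apply, lev_apply, smul_eq_mul, mul_comm]
  rw [e]
  exact hS.isGaussian_map

theorem qiReg_mean {ν : Measure Dist} (hν : IsCanon ν) (φ : Test) :
    ∫ k, k φ ∂nuh ν = 0 := by
  have := hν.prob
  have g1 : Integrable (fun t : ℝ => t) (gaussianReal 0 1) :=
    (memLp_id_gaussianReal' 2 (by norm_num)).integrable one_le_two
  have i1 := (hν.gauss φ).integrable.mul_prod (integrable_const (μ := gaussianReal 0 1) (1 : ℝ))
  have i2 := (integrable_const (μ := ν) (∫ x, φ x)).mul_prod g1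
  have e : (fun p : Dist × ℝ => lev p.1 p.2 φ) =
      fun p : Dist × ℝ => p.1 φ * 1 + (∫ x, φ x) * p.2 := by
    funext p
    rw [lev_apply]; ring
  rw [qiReg_integral ν (measurable_eval φ), e, integral_add i1 i2,
    integral_prod_mul (fun k : Dist => k φ) (fun _ : ℝ => (1 : ℝ)),
    integral_prod_mul (fun _ : Dist => ∫ x, φ x) (fun t : ℝ => t), hν.mean,
    integral_id_gaussianReal]
  simp

theorem qiReg_cov {ν : Measure Dist} (hν : IsCanon ν) (φ χ : Test) :
    ∫ k, k φ * k χ ∂nuh ν = cv φ χ + (∫ x, φ x) * ∫ x, χ x := by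
  have := hν.prob
  have g0 : MemLp (fun t : ℝ => t) 2 (gaussianReal 0 1) := memLp_id_gaussianReal' 2 (by norm_num)
  have g1 : Integrable (fun t : ℝ => t) (gaussianReal 0 1) := g0.integrable one_le_two
  have g2 : ∫ t, t ^ 2 ∂gaussianReal 0 1 = 1 := by
    have h := variance_fun_id_gaussianReal (μ := 0) (v := 1)
    rw [variance_of_integral_eq_zero measurable_id'.aemeasurable integral_id_gaussianReal] at h
    simpa using h
  have j1 : Integrable (fun k : Dist => k φ * k χ) ν :=
    (hν.gauss φ).memLp_two.integrable_mul (hν.gauss χ).memLp_two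
  have j2 : Integrable (fun k : Dist => k ((∫ x, χ x) • φ + (∫ x, φ x) • χ)) ν :=
    (hν.gauss _).integrable
  have i1 := j1.mul_prod (integrable_const (μ := gaussianReal 0 1) (1 : ℝ))
  have i2 := j2.mul_prod g1
  have i3 := (integrable_const (μ := ν) ((∫ x, φ x) * ∫ x, χ x)).mul_prod g0.integrable_sq
  have e : (fun p : Dist × ℝ => lev p.1 p.2 φ * lev p.1 p.2 χ) =
      fun p : Dist × ℝ => (p.1 φ * p.1 χ * 1 + p.1 ((∫ x, χ x) • φ + (∫ x, φ x) • χ) * p.2) +
        ((∫ x, φ x) * ∫ x, χ x) * p.2 ^ 2 := by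
    funext p
    rw [lev_apply, lev_apply, map_add, map_smul, map_smul, smul_eq_mul, smul_eq_mul]; ring
  rw [qiReg_integral ν ((measurable_eval φ).fun_mul (measurable_eval χ)), e,
    integral_add (i1.fun_add i2) i3, integral_add i1 i2,
    integral_prod_mul (fun k : Dist => k φ * k χ) (fun _ : ℝ => (1 : ℝ)),
    integral_prod_mul (fun k : Dist => k ((∫ x, χ x) • φ + (∫ x, φ x) • χ)) (fun t : ℝ => t),
    integral_prod_mul (fun _ : Dist => (∫ x, φ x) * ∫ x, χ x) (fun t : ℝ => t ^ 2), hν.cov,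
    integral_id_gaussianReal, g2]
  simp

theorem qiReg_process {ν : Measure Dist} (hν : IsCanon ν) :
    IsGaussianProcess (fun (φ : Test) (k : Dist) => k φ) (nuh ν) := by
  classical
  refine ⟨fun I => ⟨isGaussian_of_isGaussian_map fun L => ?_⟩⟩
  have hem : Measurable (fun (k : Dist) (φ : Test) => k φ) := measurable_pi_lambda _ measurable_eval
  have hm : Measurable (fun k : Dist => I.restrict (fun φ : Test => k φ)) :=
    (Finset.measurable_restrict I).comp hem
  set φ : Test := ∑ i : I, L (Pi.single i 1) • (i : Test) with hφ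
  have hL : ∀ k : Dist, L (I.restrict (fun φ : Test => k φ)) = k φ := by
    intro k
    have : I.restrict (fun φ : Test => k φ) =
        ∑ i : I, k (i : Test) • (Pi.single i 1 : I → ℝ) := by
      funext j
      simp [Finset.sum_apply, Pi.single_apply]
    rw [this, hφ, map_sum, map_sum]
    simp [mul_comm]
  rw [Measure.map_map L.continuous.measurable hm]
  have e : (L ∘ fun k : Dist => I.restrict (fun φ : Test => k φ)) = fun k : Dist => k φ :=
    funext hL
  rw [e]
  exact (qiReg_gauss hν φ).isGaussian_map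

theorem qiReg_indep {ν : Measure Dist} (hν : IsCanon ν) (η : Test) (U : Set ℂ)
    (h : ∀ χ : Test, tsupport χ ⊆ U → cv χ η + (∫ x, χ x) * ∫ x, η x = 0) (Y : Dist → ℝ)
    (hY : @Measurable Dist ℝ (fieldSigma id U) _ Y) (F : ℝ → ℝ) (hF : Measurable F) :
    IndepFun Y (fun k : Dist => F (k η)) (nuh ν) := by
  have := nuh_prob hν
  let S := {χ : Test // tsupport χ ⊆ U}
  let X : S → Dist → ℝ := fun s k => k s.1
  let W : Unit → Dist → ℝ := fun _ k => k η
  have hXW : IsGaussianProcess (Sum.elim X W) (nuh ν) := by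
    have h1 := (qiReg_process hν).comp_right (Sum.elim (fun s : S => s.1) (fun _ : Unit => η))
    refine h1.congr fun t => ?_
    rcases t with s | u
    · exact Filter.EventuallyEq.rfl
    · exact Filter.EventuallyEq.rfl
  have hI := hXW.indepFun_of_covariance_eq_zero (fun s => (measurable_eval s.1).aemeasurable)
    (fun _ => (measurable_eval η).aemeasurable) (fun s _ => by
      rw [covariance_eq_sub (qiReg_gauss hν s.1).memLp_two (qiReg_gauss hν η).memLp_two]
      have h1 : ∫ k, (X s * W ()) k ∂nuh ν = 0 := by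
        have := qiReg_cov hν s.1 η
        rw [h s.1 s.2] at this
        exact this
      have h2 : ∫ k, X s k ∂nuh ν = 0 := qiReg_mean hν s.1
      change ∫ k, (X s * W ()) k ∂nuh ν - (∫ k, X s k ∂nuh ν) * _ = 0
      rw [h1, h2]; simp)
  rw [IndepFun_iff_Indep] at hI ⊢
  refine indep_of_indep_of_le_left (indep_of_indep_of_le_right hI ?_) ?_
  · have e : (fun k : Dist => F (k η)) =
        (fun g : Unit → ℝ => F (g ())) ∘ (fun (k : Dist) (t : Unit) => W t k) := rfl
    rw [e, ← MeasurableSpace.comap_comp]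
    exact MeasurableSpace.comap_mono (hF.comp (measurable_pi_apply ())).comap_le
  · refine hY.comap_le.trans (iSup₂_le fun φ hφ => ?_)
    have e : (fun k : Dist => (id k) φ) =
        (fun g : S → ℝ => g ⟨φ, hφ⟩) ∘ (fun (k : Dist) (s : S) => X s k) := rfl
    rw [e, ← MeasurableSpace.comap_comp]
    exact MeasurableSpace.comap_mono (measurable_pi_apply (⟨φ, hφ⟩ : S)).comap_le

theorem qiReg_base {ν : Measure Dist} (hν : IsCanon ν) (F : ℝ → ℝ) (hF : Measurable F)
    (hb : ∀ x, |F x| ≤ 1) (hl : ∀ x y, |F x - F y| ≤ |x - y|) (φ : Test) :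
    GRP (nuh ν) (fun k => F (k φ)) := by
  have := nuh_prob hν
  have hmem : ∀ χ : Test, MemLp (fun k : Dist => F (k χ)) 2 (nuh ν) := fun χ =>
    MemLp.of_bound (hF.comp (measurable_eval χ)).aestronglyMeasurable 1
      (Eventually.of_forall fun k => hb _)
  intro ε hε
  have hg0 : Smooth (shift (cen φ)) := (pot_smooth (cen φ)).sub contDiff_const
  have hg : Smooth (fun x => shift (cen φ) x + ∫ y, φ y) := hg0.add contDiff_const
  obtain ⟨r, hr, H⟩ := gr_cutoff _ hg ((ε / 2) ^ 2) (by positivity)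
  refine ⟨r, hr, fun z hz Y hY hY2 => ?_⟩
  obtain ⟨f, hf1, hf2, hf3⟩ := H z hz
  set η : Test := φ - lap0 f with hη
  have hcv : ∀ χ : Test, tsupport χ ⊆ ball z r → cv χ η + (∫ x, χ x) * ∫ x, η x = 0 := by
    intro χ hχ
    have c1 : cen η = cen φ - lap0 f := by
      rw [hη, cen, cen, integral_test_sub, integral_lap0, sub_zero]; abel
    have c2 : logCov (cen χ) (cen φ) = ∫ x, shift (cen φ) x * χ x := by
      rw [integral_shift _ (integral_cen φ), cv, cen_cen]
    have c3 : ∫ x, psi x * f x = 0 := by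
      have : ∀ x, psi x * f x = 0 := by
        intro x
        by_cases hx : x ∈ tsupport psi
        · have h5 := (psi_supp hx).1
          have : x ∉ tsupport f := fun h => by
            have := hf2 h
            rw [mem_ball, dist_eq_norm] at this
            linarith
          rw [image_eq_zero_of_notMem_tsupport this, mul_zero]
        · rw [image_eq_zero_of_notMem_tsupport hx, zero_mul]
      simp [this]
    have c4 : ∫ x, cen χ x * f x =
        (∫ x, shift (cen φ) x * χ x) + (∫ x, φ x) * ∫ x, χ x := by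
      have e : (fun x => cen χ x * f x) = fun x => (shift (cen φ) x * χ x + (∫ y, φ y) * χ x) -
          (∫ x, χ x) * (psi x * f x) := by
        funext x
        change (χ x - (∫ x, χ x) * psi x) * f x = _
        by_cases hx : x ∈ tsupport χ
        · rw [hf1 x (hχ hx)]; ring
        · rw [image_eq_zero_of_notMem_tsupport hx]; ring
      have i1 := χ.integrable_mul (shift_continuous (cen φ))
      have i2 := χ.integrable.const_mul (∫ y, φ y)
      rw [e, integral_sub (i1.fun_add i2) ((f.integrable_mul psi.continuous).const_mul _),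
        integral_add i1 i2, integral_const_mul, integral_const_mul, c3]
      simp
    have c5 : ∫ x, η x = ∫ x, φ x := by rw [hη, integral_test_sub, integral_lap0, sub_zero]
    rw [cv, c1, logCov_sub_right, logCov_lap0, c2, c4, c5]
    ring
  have hI := qiReg_indep hν η _ hcv Y hY F hF
  have a1 : ∫ k, Y k * F (k η) ∂nuh ν = (∫ k, Y k ∂nuh ν) * ∫ k, F (k η) ∂nuh ν :=
    hI.integral_fun_mul_eq_mul_integral hY2.1 (hmem η).1
  have hD : MemLp (fun k : Dist => F (k φ) - F (k η)) 2 (nuh ν) := (hmem φ).sub (hmem η)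
  have a2 := gr_cs2 hY2 hD
  have e := gr_split hY2 (hmem η) hD
  simp only [add_sub_cancel] at e
  rw [e, a1, sub_self, zero_add]
  refine a2.trans (mul_le_mul_of_nonneg_right ?_ (Real.sqrt_nonneg _))
  have a3 : ∫ k, (F (k φ) - F (k η)) ^ 2 ∂nuh ν ≤ ∫ k, k (lap0 f) * k (lap0 f) ∂nuh ν := by
    refine integral_mono hD.integrable_sq
      ((qiReg_gauss hν _).memLp_two.integrable_mul (qiReg_gauss hν _).memLp_two) fun k => ?_
    have h1 := hl (k φ) (k η)
    have h2 : k φ - k η = k (lap0 f) := by rw [hη, map_sub]; ring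
    rw [h2] at h1
    have := sq_le_sq.2 h1
    simpa [sq] using this
  rw [qiReg_cov hν, cv_of_zero (integral_lap0 f) (integral_lap0 f), integral_lap0, mul_zero,
    add_zero] at a3
  have a4 : √(∫ k, (F (k φ) - F (k η)) ^ 2 ∂nuh ν) ≤ ε / 2 :=
    Real.sqrt_le_iff.2 ⟨by positivity, a3.trans ((energy_le' f).trans hf3)⟩
  linarith

theorem qiReg_all {ν : Measure Dist} (hν : IsCanon ν) (G : Dist → ℝ) (hG : MemLp G 2 (nuh ν)) :
    GRP (nuh ν) G := by
  have := nuh_prob hν
  let K : Submodule ℝ (Lp ℝ 2 (nuh ν)) :=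
    { carrier := {g | GRP (nuh ν) g}
      add_mem' := fun {a b} ha hb =>
        (GRP.add ha hb (Lp.memLp a) (Lp.memLp b)).congr (Lp.coeFn_add a b).symm
      zero_mem' := by
        have h0 : GRP (nuh ν) (fun _ => (0 : ℝ)) := fun ε hε => ⟨1, one_pos, fun z _ Y _ _ => by
          simp only [mul_zero, integral_zero, sub_zero, abs_zero]
          positivity⟩
        exact h0.congr (Lp.coeFn_zero ℝ 2 (nuh ν)).symm
      smul_mem' := fun c a ha => (GRP.smul ha c).congr (Lp.coeFn_smul c a).symm }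
  have horth : ∀ (F : ℝ → ℝ), Measurable F → (∀ x, |F x| ≤ 1) →
      (∀ x y, |F x - F y| ≤ |x - y|) → ∀ g ∈ Kᗮ, ∀ φ : Test, ∫ k, F (k φ) * g k ∂nuh ν = 0 := by
    intro F hF hb hl g hg φ
    have hmem : MemLp (fun k : Dist => F (k φ)) 2 (nuh ν) :=
      MemLp.of_bound (hF.comp (measurable_eval φ)).aestronglyMeasurable 1
        (Eventually.of_forall fun k => hb _)
    have hK : hmem.toLp _ ∈ K := (qiReg_base hν F hF hb hl φ).congr hmem.coeFn_toLp.symm
    have h1 := Submodule.inner_right_of_mem_orthogonal hK hg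
    rw [L2.inner_def] at h1
    rw [← h1]
    refine integral_congr_ae ?_
    filter_upwards [hmem.coeFn_toLp] with k hk
    rw [hk]
    simp [mul_comm]
  have hbot : Kᗮ = ⊥ := by
    rw [Submodule.eq_bot_iff]
    intro g hg
    rw [Lp.eq_zero_iff_ae_eq_zero]
    exact gr_uniq (Lp.stronglyMeasurable g).measurable ((Lp.memLp g).integrable one_le_two)
      (horth _ Real.measurable_cos Real.abs_cos_le_one Real.abs_cos_sub_cos_le g hg)
      (horth _ Real.measurable_sin Real.abs_sin_le_one Real.abs_sin_sub_sin_le g hg)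
  have htop := Submodule.topologicalClosure_eq_top_iff.2 hbot
  refine GRP.lim hG fun δ hδ => ?_
  have hmem : hG.toLp _ ∈ closure (K : Set (Lp ℝ 2 (nuh ν))) := by
    rw [← Submodule.topologicalClosure_coe, htop]; trivial
  obtain ⟨g, hg, hd⟩ := Metric.mem_closure_iff.1 hmem δ hδ
  refine ⟨g, Lp.memLp g, hg, ?_⟩
  have e : ∫ k, (G k - g k) ^ 2 ∂nuh ν = ∫ k, (hG.toLp _ - g) k ^ 2 ∂nuh ν := by
    refine integral_congr_ae ?_
    filter_upwards [Lp.coeFn_sub (hG.toLp _) g, hG.coeFn_toLp] with k h1 h2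
    rw [h1, Pi.sub_apply, h2]
  rw [e, gr_norm, ← dist_eq_norm]
  exact hd.le

/-- Uniform decorrelation for the field with a random additive constant. -/
theorem gr_regress_nuh {ν : Measure Dist} (hν : IsCanon ν) (G : Dist → ℝ)
    (hG : MemLp G 2 (nuh ν)) (ε : ℝ) (hε : 0 < ε) : ∃ r > 0, ∀ z : ℂ, ‖z‖ ≤ 4 → ∀ Y : Dist → ℝ,
      Loc (ball z r) Y → MemLp Y 2 (nuh ν) →
      |∫ k, Y k * G k ∂nuh ν - (∫ k, Y k ∂nuh ν) * ∫ k, G k ∂nuh ν| ≤
        ε * √(∫ k, Y k ^ 2 ∂nuh ν) :=
  qiReg_all hν G hG ε hε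

end Pool.Agent.QL
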