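import Pool.Agent.P.MP_7a6434d8_pr.QL.I.MomP
import Pool.Agent.P.MP_7a6434d8_pr.QL.I.Var
import Pool.Agent.P.MP_7a6434d8_pr.QL.I.Reg

open MeasureTheory ProbabilityTheory Set Filter Topology Metric
open scoped ENNReal

namespace Pool.Agent.QL

open Pool.Agent.LGD

variable {ν : Measure Dist}

theorem qiConst_cont (e : ℂ) : Continuous (lin e) := by
  unfold lin
  fun_prop

theorem qiConst_meas (e : ℂ) (S : Set ℂ) : Measurable fun s : Sys => FS s.2 (lin e) S :=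
  (measurable_fs_snd (lin e) (subset_refl S)).mono (SS_le _) le_rfl

theorem qiConst_thick {Γ : Set ℂ} (hΓ : Γ ⊆ closedBall 0 (396 / 100)) (n : ℕ) :
    thickening (1 / ((n : ℝ) + 200)) Γ ⊆ B0 := by
  intro y hy
  obtain ⟨z, hz, hd⟩ := mem_thickening_iff.1 hy
  have h1 : 1 / ((n : ℝ) + 200) ≤ 1 / 200 :=
    one_div_le_one_div_of_le (by norm_num) (by have := n.cast_nonneg (α := ℝ); linarith)
  have h2 : dist z 0 ≤ 396 / 100 := hΓ hz
  have h3 := dist_triangle y z 0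
  change dist y 0 < 397 / 100
  linarith

/-- The energy does not concentrate on a null compact set. -/
theorem qiConst_null (R : Regime ν) (e : ℂ) {A : ℝ≥0∞} (hA : A ≠ ⊤)
    (hmom : ∀ O : Set ℂ, IsOpen O → O ⊆ B0 →
      ∫⁻ k, ∫⁻ s, FS s.2 (lin e) O ^ 2 ∂(R.K k) ∂nuh ν ≤ (A * volume (closure O)) ^ 2)
    {Γ : Set ℂ} (hK : IsCompact Γ) (hΓ : Γ ⊆ closedBall 0 (396 / 100)) (h0 : volume Γ = 0) :
    ∀ᵐ k ∂nuh ν, ∀ᵐ s ∂(R.K k),
      ⨅ n : ℕ, FS s.2 (lin e) (thickening (1 / ((n : ℝ) + 200)) Γ) = 0 := by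
  have := R.markov
  set D : Sys → ℝ≥0∞ := fun s => ⨅ n : ℕ, FS s.2 (lin e) (thickening (1 / ((n : ℝ) + 200)) Γ)
    with hD
  have hDm : Measurable D := Measurable.iInf fun n => qiConst_meas e _
  have h1 : ∀ n : ℕ, ∫⁻ k, ∫⁻ s, D s ^ 2 ∂(R.K k) ∂nuh ν ≤
      (A * volume (cthickening (1 / ((n : ℝ) + 200)) Γ)) ^ 2 := by
    intro n
    refine le_trans ?_ ((hmom _ isOpen_thickening (qiConst_thick hΓ n)).trans ?_)
    · refine lintegral_mono fun k => lintegral_mono fun s => ?_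
      exact pow_le_pow_left' (iInf_le (fun n : ℕ =>
        FS s.2 (lin e) (thickening (1 / ((n : ℝ) + 200)) Γ)) n) 2
    · exact pow_le_pow_left' (mul_le_mul_right
        (measure_mono (closure_thickening_subset_cthickening _ _)) A) 2
  have h2 : Tendsto (fun n : ℕ => 1 / ((n : ℝ) + 200)) atTop (𝓝 0) := by
    simp only [one_div]
    exact tendsto_inv_atTop_zero.comp
      (tendsto_atTop_add_const_right _ _ tendsto_natCast_atTop_atTop)
  have h3 : Tendsto (fun n : ℕ => volume (cthickening (1 / ((n : ℝ) + 200)) Γ)) atTop (𝓝 0) := by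
    have := (tendsto_measure_cthickening_of_isCompact (μ := volume) hK).comp h2
    rwa [h0] at this
  have h4 : Tendsto (fun n : ℕ => (A * volume (cthickening (1 / ((n : ℝ) + 200)) Γ)) ^ 2) atTop
      (𝓝 0) := by
    have h5 := ENNReal.Tendsto.const_mul (a := A) h3 (Or.inr hA)
    rw [mul_zero] at h5
    have h6 := ENNReal.Tendsto.pow (n := 2) h5
    rwa [zero_pow two_ne_zero] at h6
  have h5 : ∫⁻ k, ∫⁻ s, D s ^ 2 ∂(R.K k) ∂nuh ν = 0 :=
    le_antisymm (ge_of_tendsto' h4 h1) zero_le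
  have h6 := (lintegral_eq_zero_iff (hDm.pow_const 2).lintegral_kernel).1 h5
  filter_upwards [h6] with k hk
  have h7 := (lintegral_eq_zero_iff (hDm.pow_const 2)).1 hk
  filter_upwards [h7] with s hs
  exact pow_eq_zero_iff two_ne_zero |>.1 hs

/-- Additivity of the energy over a partition. -/
theorem qiConst_add (h10 : N10Stmt) (hν : IsCanon ν) (R : Regime ν) {x : ℝ} {C : ℝ≥0∞}
    (hC : C ≠ ⊤) (h : R.TailAt x C) (e : ℂ) {A : ℝ≥0∞} (hA : A ≠ ⊤)
    (hmom : ∀ O : Set ℂ, IsOpen O → O ⊆ B0 →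
      ∫⁻ k, ∫⁻ s, FS s.2 (lin e) O ^ 2 ∂(R.K k) ∂nuh ν ≤ (A * volume (closure O)) ^ 2)
    {ι : Type} (J : Finset ι) (T : ι → Set ℂ) {Γ : Set ℂ}
    (hT : ∀ i ∈ J, IsOpen (T i) ∧ T i ⊆ S0)
    (hd : ∀ i ∈ J, ∀ j ∈ J, i ≠ j → Disjoint (T i) (T j))
    (hK : IsCompact Γ) (hΓ : Γ ⊆ closedBall 0 (396 / 100)) (h0 : volume Γ = 0)
    (hcov : S0 ⊆ (⋃ i ∈ J, T i) ∪ Γ) :
    ∀ᵐ k ∂nuh ν, ∀ᵐ s ∂(R.K k), FS s.2 (lin e) S0 = ∑ i ∈ J, FS s.2 (lin e) (T i) := by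
  obtain ⟨M, -, hcut⟩ := id_cuts h10 x
  filter_upwards [qiConst_null R e hA hmom hK hΓ h0, R.real, id_tame hν R hC h] with k h1 h2 h3
  filter_upwards [h1, h2, h3] with s h4 h5 h6
  obtain ⟨N, hN⟩ := h5
  refine le_antisymm ?_ (N.dual.fs_superadd hN.2 (qiConst_cont e) J T isOpen_S0 hT hd)
  have h7 : ∀ n : ℕ, FS s.2 (lin e) S0 ≤ ∑ i ∈ J, FS s.2 (lin e) (T i) +
      FS s.2 (lin e) (thickening (1 / ((n : ℝ) + 200)) Γ) := fun n =>
    N.dual.fs_sub hN.2 (qiConst_cont e) J T isOpen_S0 (fun i hi => (hT i hi).1)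
      (fun i hi => isBounded_ball.subset ((hT i hi).2.trans S0_subset)) hd hK hcov
      (fun z hz => hcut N k s hN h6 z ((closedBall_subset_ball (by norm_num)) (hΓ hz)))
      (by positivity)
  have h8 := le_iInf h7
  rwa [← ENNReal.add_iInf, h4, add_zero] at h8

/-- The relaxed energy of a linear function on the reference square is deterministic. -/
theorem id_const (h10 : N10Stmt) (hν : IsCanon ν) (R : Regime ν) {x : ℝ} {C : ℝ≥0∞} (hC : C ≠ ⊤)
    (h : R.TailAt x C) (e : ℂ) :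
    ∃ c : ℝ≥0∞, c ≠ ⊤ ∧ ∀ᵐ k ∂nuh ν, ∀ᵐ s ∂(R.K k), FS s.2 (lin e) S0 = c := by
  have := nuh_prob hν
  have := R.markov
  obtain ⟨B, hB, hmom⟩ := id_mom h10 hν R hC h
  obtain ⟨A, hA⟩ : ∃ A : ℝ≥0∞, A = B * ENNReal.ofReal (‖e‖ ^ 2) := ⟨_, rfl⟩
  have hAt : A ≠ ⊤ := hA ▸ ENNReal.mul_ne_top hB ENNReal.ofReal_ne_top
  have hm : ∀ O : Set ℂ, IsOpen O → O ⊆ B0 →
      ∫⁻ k, ∫⁻ s, FS s.2 (lin e) O ^ 2 ∂(R.K k) ∂nuh ν ≤ (A * volume (closure O)) ^ 2 :=
    fun O h1 h2 => hA ▸ hmom e O h1 h2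
  have hS : S0 ⊆ B0 := S0_subset.trans (ball_subset_ball (by norm_num))
  refine const_of_split (nuh ν) R.K (fun r Y => ∃ z : ℂ, ‖z‖ ≤ 4 ∧ Loc (ball z r) Y) ?_
    (fun s => FS s.2 (lin e) S0) (qiConst_meas e _) (A * 32)
    (ENNReal.mul_ne_top hAt (by norm_num)) ?_
  · intro G hG ε hε
    obtain ⟨r, hr, H⟩ := gr_regress_nuh hν G hG ε hε
    exact ⟨r, hr, fun Y ⟨z, hz, hY⟩ hY2 => H z hz Y hY hY2⟩
  · intro r hr
    have hp : 0 < A.toReal + 1 := by positivity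
    obtain ⟨ι, J, T, c, Γ, v, h1, h2, h3, h4, h5, h6, h7, h8⟩ :=
      exists_part (r := min r (r / (A.toReal + 1))) (lt_min hr (div_pos hr hp))
    refine ⟨ι, J, fun i s => FS s.2 (lin e) (T i), A * v, fun i _ => qiConst_meas e _,
      qiConst_add h10 hν R hC h e hAt hm J T (fun i hi => ⟨(h1 i hi).1.1, (h1 i hi).2.1⟩) h2 h5 h6
        h7 h8, fun i hi j hj hij => ?_, fun i hi => ?_, ?_, ?_, fun i hi => ?_⟩
    · exact R.indep_fun (h1 i hi).1 (h2 i hi j hj hij) (measurable_fs_snd (lin e) subset_rfl)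
        (measurable_fs_snd (lin e) subset_rfl)
    · exact (hm _ (h1 i hi).1.1 ((h1 i hi).2.1.trans hS)).trans
        (pow_le_pow_left' (mul_le_mul_right (h1 i hi).2.2.2.2 A) 2)
    · rw [mul_left_comm]
      exact mul_le_mul_right h3 A
    · refine (mul_le_mul_right (h4.trans (ENNReal.ofReal_le_ofReal (min_le_right _ _))) A).trans ?_
      rw [← ENNReal.ofReal_toReal hAt, ← ENNReal.ofReal_mul ENNReal.toReal_nonneg,
        ENNReal.toReal_ofReal ENNReal.toReal_nonneg]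
      refine ENNReal.ofReal_le_ofReal ?_
      rw [← mul_div_assoc, div_le_iff₀ hp]
      nlinarith [ENNReal.toReal_nonneg (a := A)]
    · obtain ⟨G, hG, hG'⟩ := R.loc_fun (h1 i hi).1 (measurable_fs_snd (lin e) (subset_refl (T i)))
      refine ⟨fun k => (G k).toReal, ⟨c i, (h1 i hi).2.2.1, ?_⟩, ?_⟩
      · have h9 : Loc (ball (c i) r) G :=
          Measurable.mono hG (field_mono ((h1 i hi).2.2.2.1.trans
            (ball_subset_ball (min_le_left _ _)))) le_rfl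
        exact Measurable.ennreal_toReal h9
      · filter_upwards [hG'] with k hk
        rw [hk]

end Pool.Agent.QL
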