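import Pool.Agent.P.MP_7a6434d8_pr.QL.Frames
import Pool.Agent.P.MP_7a6434d8_pr.QL.ADefs
import Pool.Agent.P.MP_7a6434d8_pr.QL.GT.Basic

/-! Grids of frames, chains of bad scales. -/

open MeasureTheory ProbabilityTheory Set Filter Topology Metric
open scoped ENNReal

namespace Pool.Agent.QL

open Pool.Agent.LGD

theorem id_countable_fr : Countable Fr := by
  have h : {p : ℂ × ℂ | IsFr p.1 p.2}.Countable :=
    (countable_isQ.prod countable_isQ).mono fun p hp => mem_prod.2 ⟨hp.1, hp.2.1⟩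
  exact h.to_subtype

/-- the scale of depth `j` -/
noncomputable def sc (j : ℕ) : ℝ := 1 / 256 ^ j

theorem sc_pos (j : ℕ) : 0 < sc j := by unfold sc; positivity

theorem isQ_sc (j : ℕ) : IsQ ((sc j : ℝ) : ℂ) :=
  isQ_ofReal_iff.2 ⟨1 / 256 ^ j, by rw [sc]; push_cast; rfl⟩

theorem isQ_sc4 (j : ℕ) : IsQ ((sc j / 4 : ℝ) : ℂ) :=
  isQ_ofReal_iff.2 ⟨1 / 256 ^ j / 4, by rw [sc]; push_cast; rfl⟩

/-- the frame of depth `j` near `z` -/
noncomputable def gfr (j : ℕ) (z : ℂ) : Fr :=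
  ⟨(grid (sc j / 4) z, (sc j : ℝ)), isFr_real (isQ_grid (isQ_sc4 j) z) (isQ_sc j) (sc_pos j)⟩

theorem gfr_a (j : ℕ) (z : ℂ) : (gfr j z).a = (sc j : ℝ) := rfl

theorem gfr_z (j : ℕ) (z : ℂ) : (gfr j z).z = grid (sc j / 4) z := rfl

theorem norm_gfr_a (j : ℕ) (z : ℂ) : ‖(gfr j z).a‖ = sc j := by
  rw [gfr_a, Complex.norm_real, Real.norm_of_nonneg (sc_pos j).le]

theorem gfr_near (j : ℕ) (z : ℂ) : ‖(gfr j z).z - z‖ ≤ 3 / 16 * sc j := by
  rw [norm_sub_rev, gfr_z]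
  have := norm_sub_grid_le (h := sc j / 4) (by have := sc_pos j; positivity) z
  linarith

/-- the disc containing the closed reference square -/
def B0 : Set ℂ := ball 0 (397 / 100)

/-- joint law of the field and the system -/
noncomputable def Regime.Ph {ν : Measure Dist} (R : Regime ν) : Measure (Dist × Sys) :=
  nuh ν ⊗ₘ R.K

/-- large resistances are unlikely at all nonpositive levels -/
def Regime.Fl {ν : Measure Dist} (R : Regime ν) (ε : ℝ≥0∞) (x : ℝ) : Prop :=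
  ∀ c ≤ 0, R.bet c {s | ex x < Rp s.1} ≤ ε

/-- the frames near `y` of depths `lo, …, lo + n - 1` have nonpositive level and are bad -/
def BadRun (x : ℝ) (lo n : ℕ) (y : ℂ) : Set (Dist × Sys) :=
  {ω | ∀ i < n, Phi (gfr (lo + i) y) ω.1 ≤ 0 ∧ ex x < Loop (gfr (lo + i) y) ω.2}

/-- long runs of bad scales are unlikely -/
def Regime.TailAt {ν : Measure Dist} (R : Regime ν) (x : ℝ) (C : ℝ≥0∞) : Prop :=
  ∀ (lo n : ℕ) (y : ℂ), 2 ≤ lo → ‖y‖ ≤ 398 / 100 →
    R.Ph (BadRun x lo n y) ≤ C * ((256 : ℝ≥0∞) ^ 5)⁻¹ ^ n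

/-- the grid point of depth `2 J` near `z` -/
noncomputable def pt (J : ℕ) (z : ℂ) : ℂ := (gfr (2 * J) z).z

/-- at small scales the levels are nonpositive and every point has a good scale -/
def Tame (x : ℝ) (ω : Dist × Sys) : Prop :=
  (∀ᶠ j in atTop, ∀ y : ℂ, ‖y‖ ≤ 4 → Phi (gfr j y) ω.1 ≤ 0) ∧
    ∀ᶠ J in atTop, ∀ z ∈ B0, ω ∉ BadRun x (J + 1) J (pt J z)

open Classical in
/-- the grid points of depth `2 J` near `O` -/
noncomputable def pts (J : ℕ) (O : Set ℂ) : Finset ℂ :=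
  (gridFin (sc (2 * J) / 4) 4).filter fun y => ∃ z ∈ O, pt J z = y

/-- weight of the run of bad scales that ends at depth `2 J` -/
noncomputable def runW (x : ℝ) (J : ℕ) (y : ℂ) (ω : Dist × Sys) : ℝ≥0∞ :=
  ∑ m ∈ Finset.range J,
    (BadRun x (2 * J + 1 - m) m y).indicator (fun _ => ((256 : ℝ≥0∞) ^ 4) ^ m) ω

/-- bound for the square of the cost of a partition of unity -/
noncomputable def runC (x : ℝ) (J : ℕ) (O : Set ℂ) (ω : Dist × Sys) : ℝ≥0∞ :=
  (pts J O).card * ENNReal.ofReal (sc (2 * J) ^ 4) * ∑ y ∈ pts J O, runW x J y ω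

/-- cheap cutoffs at arbitrarily small scales around every point -/
def FNet.Cuts (N : FNet) (M : ℝ) : Prop :=
  ∀ z ∈ B0, ∃ᶠ r in 𝓝[>] (0 : ℝ), N.Cut (closedBall z r) (ball z (12 * r)) M

/-- A loop of small resistance gives a cheap dual cutoff. -/
def N10Stmt : Prop :=
  ∃ C : ℝ, 0 < C ∧ ∀ (N : FNet) (s : Sys), N.Real s → ∀ (F : Fr) (Λ : ℝ), 0 < Λ →
    Loop F s < ENNReal.ofReal Λ →
    N.dual.Cut (closedBall F.z ‖F.a‖) (ball F.z (5 * ‖F.a‖)) (C * Λ)

/-- two small discs in the smaller bar -/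
noncomputable def spot (p q : ℂ) : Data :=
  (Tn.1, [(ball p (1 / 500), 0, 0), (ball q (1 / 500), 1, 1)])

/-- around almost every point, in two directions, infinitely many scales are superconducting -/
def Spots (p q : ℂ) (s : Sys) : Prop :=
  ∀ᵐ z : ℂ, z ∈ B0 → ∀ l < 2, ∃ᶠ j in atTop,
    En (pull ((gfr j z).comp (rotF l)) s).1 (spot p q) = ⊤

end Pool.Agent.QL
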