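import Pool.Agent.P.MP_7a6434d8_pr.QL.I.Defs
import Pool.Agent.P.MP_7a6434d8_pr.QL.NGlue
import Pool.Agent.P.MP_7a6434d8_pr.QL.NCond

open MeasureTheory ProbabilityTheory Set Filter Topology Metric
open scoped ENNReal

namespace Pool.Agent.QL

open Pool.Agent.LGD

theorem qiMomD_lip (e x y : ℂ) : |lin e x - lin e y| ≤ ‖e‖ * ‖x - y‖ := by
  have h : lin e x - lin e y = (starRingEnd ℂ e * (x - y)).re := by
    simp only [lin, Complex.mul_re, Complex.conj_re, Complex.conj_im, Complex.sub_re,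
      Complex.sub_im]
    ring
  rw [h]
  exact (Complex.abs_re_le_norm _).trans_eq (by rw [norm_mul, Complex.norm_conj])

theorem qiMomD_anti {i j : ℕ} (h : i ≤ j) : sc j ≤ sc i :=
  one_div_le_one_div_of_le (by positivity) (pow_le_pow_right₀ (by norm_num) h)

theorem qiMomD_sub {n j : ℕ} (h : n ≤ j) : sc (j - n) = sc j * 256 ^ n := by
  obtain ⟨i, rfl⟩ := Nat.exists_eq_add_of_le h
  rw [Nat.add_sub_cancel_left, sc, sc, pow_add]
  field_simp

theorem qiMomD_lim : Tendsto sc atTop (𝓝 0) := by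
  have h := tendsto_pow_atTop_nhds_zero_of_lt_one (r := (1 / 256 : ℝ)) (by norm_num) (by norm_num)
  exact h.congr fun j => by rw [sc, one_div_pow]

/-- every grid point has a last good depth -/
theorem qiMomD_good {C x : ℝ} {N : FNet} {k : Dist} {s : Sys}
    (h : ∀ (F : Fr) (Λ : ℝ), 0 < Λ → Loop F s < ENNReal.ofReal Λ →
      N.dual.Cut (closedBall F.z ‖F.a‖) (ball F.z (5 * ‖F.a‖)) (C * Λ))
    {J : ℕ} {y : ℂ} (h1 : ∀ j, J ≤ j → Phi (gfr j y) k ≤ 0)
    (h2 : (k, s) ∉ BadRun x (J + 1) J y) :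
    ∃ n < J, (k, s) ∈ BadRun x (2 * J + 1 - n) n y ∧
      N.dual.Cut (closedBall y (sc (2 * J - n) / 2)) (ball y (12 * (sc (2 * J - n) / 2)))
        (C * (2 * Real.exp x)) := by
  classical
  have hex : ∃ n, n < J ∧ ¬ ex x < Loop (gfr (2 * J - n) y) s := by
    by_contra hc
    refine h2 fun i hi => ⟨h1 _ (by omega), ?_⟩
    by_contra hi'
    refine hc ⟨J - 1 - i, by omega, ?_⟩
    rwa [show 2 * J - (J - 1 - i) = J + 1 + i by omega]
  obtain ⟨hn, hg⟩ := Nat.find_spec hex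
  set n := Nat.find hex
  refine ⟨n, hn, fun i hi => ⟨h1 _ (by omega), ?_⟩, ?_⟩
  · by_contra hc
    refine Nat.find_min hex (m := n - 1 - i) (by omega) ⟨by omega, ?_⟩
    rwa [show 2 * J - (n - 1 - i) = 2 * J + 1 - n + i by omega]
  · have he := Real.exp_pos x
    have h3 := h (gfr (2 * J - n) y) (2 * Real.exp x) (by positivity)
      ((not_lt.1 hg).trans_lt ((ENNReal.ofReal_lt_ofReal_iff (by positivity)).2 (by linarith)))
    have h4 := gfr_near (2 * J - n) y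
    have h5 := sc_pos (2 * J - n)
    rw [norm_gfr_a] at h3
    refine h3.mono (closedBall_subset_closedBall' ?_) (ball_subset_ball' ?_) le_rfl
    · rw [dist_comm, dist_eq_norm]
      linarith
    · rw [dist_eq_norm]
      linarith

/-- the cost of the partition of unity -/
theorem qiMomD_cost {x : ℝ} {J : ℕ} {O : Set ℂ} {ω : Dist × Sys} {n : ℂ → ℕ}
    (h : ∀ y ∈ pts J O, n y < J ∧ ω ∈ BadRun x (2 * J + 1 - n y) (n y) y) :
    ENNReal.ofReal ((∑ y ∈ pts J O, (sc (2 * J - n y) / 2) ^ 2) ^ 2) ≤ runC x J O ω := by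
  have h1 : (∑ y ∈ pts J O, (sc (2 * J - n y) / 2) ^ 2) ^ 2 ≤
      (pts J O).card * sc (2 * J) ^ 4 * ∑ y ∈ pts J O, ((256 : ℝ) ^ 4) ^ n y := by
    refine sq_sum_le_card_mul_sum_sq.trans ?_
    rw [mul_assoc]
    refine mul_le_mul_of_nonneg_left ?_ (Nat.cast_nonneg _)
    rw [Finset.mul_sum]
    refine Finset.sum_le_sum fun y hy => ?_
    rw [qiMomD_sub (by have := (h y hy).1; omega), ← pow_mul (256 : ℝ), mul_comm 4, pow_mul]
    have : 0 ≤ sc (2 * J) ^ 4 * ((256 : ℝ) ^ n y) ^ 4 := by positivity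
    nlinarith
  refine (ENNReal.ofReal_le_ofReal h1).trans ?_
  rw [ENNReal.ofReal_mul (by positivity), ENNReal.ofReal_mul (by positivity),
    ENNReal.ofReal_natCast, ENNReal.ofReal_sum_of_nonneg fun _ _ => by positivity]
  refine mul_le_mul_right (Finset.sum_le_sum fun y hy => ?_) _
  refine le_trans ?_ (Finset.single_le_sum (fun _ _ => zero_le) (Finset.mem_range.2 (h y hy).1))
  rw [indicator_of_mem (h y hy).2, ENNReal.ofReal_pow (by positivity),
    ENNReal.ofReal_pow (by positivity), ENNReal.ofReal_ofNat]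

theorem qiMomD_step {C x : ℝ} (hC : 0 < C) {N : FNet} {k : Dist} {s : Sys}
    (h : ∀ (F : Fr) (Λ : ℝ), 0 < Λ → Loop F s < ENNReal.ofReal Λ →
      N.dual.Cut (closedBall F.z ‖F.a‖) (ball F.z (5 * ‖F.a‖)) (C * Λ))
    (hT : Tame x (k, s)) (e : ℂ) {O : Set ℂ} (hO : O ⊆ B0) :
    ∀ᶠ J in atTop, ∃ a : ℝ, 0 ≤ a ∧ ENNReal.ofReal (a ^ 2) ≤ runC x J O (k, s) ∧
      ∀ᶠ m in (N.dual.U : Filter ℕ), ∃ v, N.dual.Close m v (lin e) O (‖e‖ * (12 + 2) * sc J) ∧
        N.dual.en m O v v ≤ C * (2 * Real.exp x) * (‖e‖ * (12 + 2)) ^ 2 * a := by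
  classical
  obtain ⟨j₀, h0⟩ := eventually_atTop.1 hT.1
  filter_upwards [hT.2, eventually_ge_atTop j₀, eventually_ge_atTop 1] with J h2 hJ hJ1
  have hs : sc (2 * J) ≤ 1 / 256 := (qiMomD_anti (i := 1) (by omega)).trans_eq (by simp [sc])
  have hn : ∀ z ∈ O, ‖z‖ < 397 / 100 := fun z hz => mem_ball_zero_iff.1 (hO hz)
  have key : ∀ y ∈ pts J O, ∃ n < J, (k, s) ∈ BadRun x (2 * J + 1 - n) n y ∧
      N.dual.Cut (closedBall y (sc (2 * J - n) / 2)) (ball y (12 * (sc (2 * J - n) / 2)))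
        (C * (2 * Real.exp x)) := by
    intro y hy
    obtain ⟨z, hz, rfl⟩ := (Finset.mem_filter.1 hy).2
    refine qiMomD_good h (fun j hj => h0 j (hJ.trans hj) _ ?_) (h2 z (hO hz))
    have h3 := gfr_near (2 * J) z
    have h4 := norm_sub_norm_le (gfr (2 * J) z).z z
    have h5 := hn z hz
    change ‖(gfr (2 * J) z).z‖ ≤ 4
    linarith
  choose! n hn1 hn2 hn3 using key
  have hp := sc_pos (2 * J)
  refine ⟨_, Finset.sum_nonneg fun _ _ => sq_nonneg _,
    qiMomD_cost fun y hy => ⟨hn1 y hy, hn2 y hy⟩,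
    N.dual.pou (norm_nonneg e) (qiMomD_lip e) O (isBounded_ball.subset hO) (pts J O) id
      (fun y => sc (2 * J - n y) / 2) (δ := sc (2 * J) / 4) (by positivity) (by norm_num)
      (by positivity) (fun y hy => ⟨?_, ?_⟩) (fun z hz => ⟨pt J z, ?_, ?_⟩) hn3⟩
  · linarith [qiMomD_anti (Nat.sub_le (2 * J) (n y))]
  · have := hn1 y hy
    linarith [qiMomD_anti (show J ≤ 2 * J - n y by omega), sc_pos (2 * J - n y)]
  · exact Finset.mem_filter.2
      ⟨grid_mem_gridFin (by positivity) (by linarith [hn z hz]), z, hz, rfl⟩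
  · have h3 := gfr_near (2 * J) z
    rw [norm_sub_rev] at h3
    exact h3.trans (by linarith)

/-- deterministic bound for the relaxed energy of a linear function -/
theorem id_mom_det (h10 : N10Stmt) (x : ℝ) : ∃ C : ℝ≥0∞, C ≠ ⊤ ∧ ∀ (N : FNet) (k : Dist) (s : Sys),
    N.Real s → Tame x (k, s) → ∀ (e : ℂ) (O : Set ℂ), O ⊆ B0 →
    N.dual.F (lin e) O ^ 2 ≤
      C * ENNReal.ofReal (‖e‖ ^ 2) ^ 2 * liminf (fun J => runC x J O (k, s)) atTop := by
  obtain ⟨C, hC, h⟩ := h10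
  refine ⟨ENNReal.ofReal ((C * (2 * Real.exp x) * 14 ^ 2) ^ 2), ENNReal.ofReal_ne_top,
    fun N k s hN hT e O hO => ?_⟩
  rw [← ENNReal.liminf_const_mul_of_ne_top
    (ENNReal.mul_ne_top ENNReal.ofReal_ne_top (ENNReal.pow_ne_top ENNReal.ofReal_ne_top))]
  refine le_of_forall_gt_imp_ge_of_dense fun t ht => ?_
  rcases eq_or_ne t ⊤ with rfl | ht'
  · exact le_top
  have hf := frequently_lt_of_liminf_lt (by isBoundedDefault) ht
  have h1 : N.dual.F (lin e) O ≤ ENNReal.ofReal √t.toReal := by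
    refine (N.dual.F_le_iff _ _ (Real.sqrt_nonneg _)).2 fun η hη ε hε => ?_
    have h2 : ∀ᶠ J in atTop, ‖e‖ * (12 + 2) * sc J < η :=
      (qiMomD_lim.const_mul _).eventually (gt_mem_nhds (by rwa [mul_zero]))
    obtain ⟨J, h3, ⟨a, ha, h4, h5⟩, h6⟩ :=
      (hf.and_eventually ((qiMomD_step hC (h N s hN) hT e hO).and h2)).exists
    have h7 : C * (2 * Real.exp x) * (‖e‖ * (12 + 2)) ^ 2 * a ≤ √t.toReal := by
      refine Real.le_sqrt_of_sq_le ((ENNReal.ofReal_le_iff_le_toReal ht').1 ?_)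
      refine le_trans ?_ ((mul_le_mul_right h4 _).trans h3.le)
      rw [← ENNReal.ofReal_pow (sq_nonneg _), ← ENNReal.ofReal_mul (sq_nonneg _),
        ← ENNReal.ofReal_mul (by positivity)]
      exact ENNReal.ofReal_le_ofReal (le_of_eq (by ring))
    filter_upwards [h5] with m ⟨v, hv, hv'⟩
    exact ⟨v, N.dual.nbasic_close_mono hv Subset.rfl h6.le, by linarith⟩
  refine (pow_le_pow_left' h1 2).trans_eq ?_
  rw [← ENNReal.ofReal_pow (Real.sqrt_nonneg _), Real.sq_sqrt ENNReal.toReal_nonneg,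
    ENNReal.ofReal_toReal ht']

end Pool.Agent.QL
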