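import Pool.Agent.P.MP_7a6434d8_pr.QL.I.Defs
import Pool.Agent.P.MP_7a6434d8_pr.QL.NGlue
import Pool.Agent.P.MP_7a6434d8_pr.QL.NCond

open MeasureTheory ProbabilityTheory Set Filter Topology Metric
open scoped ENNReal

namespace Pool.Agent.QL

open Pool.Agent.LGD

theorem fs_mono (s : Idx → ℝ≥0∞) (f : ℂ → ℝ) {S T : Set ℂ} (h : S ⊆ T) :
    FS s f S ≤ FS s f T :=
  iSup_mono fun _ => iSup₂_le fun h1 h2 =>
    le_iSup₂_of_le (h1.trans h) (fun c hc => ⟨(h2 c hc).1.trans h, (h2 c hc).2⟩) le_rfl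

theorem qiSub_open (x₀ x₁ y₀ y₁ : ℝ) : IsOpen (orect x₀ x₁ y₀ y₁) :=
  (isOpen_Ioo.preimage Complex.continuous_re).inter (isOpen_Ioo.preimage Complex.continuous_im)

theorem qiSub_vol (x y ρ : ℝ) (hρ : 0 ≤ ρ) :
    volume (crect (x - ρ) (x + ρ) (y - ρ) (y + ρ)) = ENNReal.ofReal ((2 * ρ) ^ 2) := by
  have e : crect (x - ρ) (x + ρ) (y - ρ) (y + ρ) =
      Complex.measurableEquivRealProd ⁻¹' (Icc (x - ρ) (x + ρ) ×ˢ Icc (y - ρ) (y + ρ)) := rfl
  rw [e, Complex.volume_preserving_equiv_real_prod.measure_preimage_equiv, Measure.volume_eq_prod,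
    Measure.prod_prod, Real.volume_Icc, Real.volume_Icc, ← ENNReal.ofReal_mul (by linarith)]
  congr 1
  ring

theorem qiSub_int {ρ t : ℝ} {a b : ℤ} (hρ : 0 < ρ)
    (ha : t ∈ Ioo (2 * ρ * a - ρ) (2 * ρ * a + ρ)) (hb : t ∈ Ioo (2 * ρ * b - ρ) (2 * ρ * b + ρ)) :
    a = b := by
  have h1 : (a : ℝ) < b + 1 := by nlinarith [ha.1, hb.2]
  have h2 : (b : ℝ) < a + 1 := by nlinarith [ha.2, hb.1]
  have h3 : a < b + 1 := by exact_mod_cast h1
  have h4 : b < a + 1 := by exact_mod_cast h2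
  omega

theorem qiSub_closed (T : Set ℂ) (ρ : ℝ) : IsClosed {y : ℂ | ball y ρ ⊆ T} := by
  have e : {y : ℂ | ball y ρ ⊆ T} = ⋂ w ∈ Tᶜ, {y | ρ ≤ dist w y} := by
    ext y
    simp only [mem_iInter, mem_compl_iff, mem_ofPred_eq]
    exact ⟨fun h w hw => not_lt.1 fun h' => hw (h h'),
      fun h w hw => by_contra fun h' => not_lt.2 (h w h') hw⟩
  rw [e]
  exact isClosed_biInter fun w _ =>
    isClosed_le continuous_const (continuous_const.dist continuous_id)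

namespace FNet

variable (N : FNet) {s : Idx → ℝ≥0∞} {f : ℂ → ℝ}

theorem fs_le_F (h : N.Real1 s) (hf : Continuous f) {S : Set ℂ} (hS : IsOpen S) :
    FS s f S ≤ N.F f S := by
  rw [N.fs_eq h hf hS]
  exact iSup_le fun K => iSup₂_le fun _ hK => N.F_mono f hK

theorem qiSub_const (b : ℝ) (K : Set ℂ) : N.F (fun z => 0 * f z + b) K = 0 := by
  refine le_antisymm ?_ zero_le
  rw [← ENNReal.ofReal_zero, N.F_le_iff _ _ le_rfl]
  refine fun η hη ε hε => Eventually.of_forall fun m => ⟨fun _ => 0 * 0 + b, ⟨fun _ => rfl, ?_⟩, ?_⟩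
  · intro d _
    simpa using hη.le
  · rw [N.en_affine_left m K (fun _ => 0)]
    linarith

theorem fs_affine (h : N.Real1 s) (hf : Continuous f) {S : Set ℂ} (hS : IsOpen S) (a b : ℝ) :
    FS s (fun z => a * f z + b) S ≤ ENNReal.ofReal (a ^ 2) * FS s f S ∧
      (a ≠ 0 → FS s (fun z => a * f z + b) S = ENNReal.ofReal (a ^ 2) * FS s f S) := by
  have hc : Continuous fun z => a * f z + b := by fun_prop
  have h2 : a ≠ 0 → FS s (fun z => a * f z + b) S = ENNReal.ofReal (a ^ 2) * FS s f S := by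
    intro ha
    rw [N.fs_eq h hc hS, N.fs_eq h hf hS]
    simp only [N.F_affine f _ a b ha, ENNReal.mul_iSup]
  refine ⟨?_, h2⟩
  rcases eq_or_ne a 0 with rfl | ha
  · exact (N.fs_le_F h hc hS).trans ((N.qiSub_const b S).le.trans zero_le)
  · exact (h2 ha).le

theorem qiSub_two {K K' : Set ℂ} (hd : Disjoint K K') :
    N.F f K + N.F f K' ≤ N.F f (K ∪ K') := by
  have := N.F_superadd f (Finset.univ : Finset Bool) (fun b => cond b K K') (K ∪ K')
    (by rintro (_ | _) _ <;> simp) (by rintro (_ | _) _ (_ | _) _ h <;> simp_all [hd.symm])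
  simpa using this

theorem qiSub_add (h : N.Real1 s) (hf : Continuous f) {T T' S : Set ℂ} (hS : IsOpen S)
    (hT : IsOpen T) (hT' : IsOpen T') (h1 : T ⊆ S) (h2 : T' ⊆ S) (hd : Disjoint T T') :
    FS s f T + FS s f T' ≤ FS s f S := by
  have e : ∀ {U : Set ℂ}, IsOpen U →
      FS s f U = ⨆ (K : Set ℂ) (_ : IsCompact K ∧ K ⊆ U), N.F f K := fun hU => by
    rw [N.fs_eq h hf hU]
    simp only [iSup_and]
  rw [e hT, e hT']
  refine ENNReal.biSup_add_biSup_le' ⟨∅, isCompact_empty, empty_subset _⟩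
    ⟨∅, isCompact_empty, empty_subset _⟩ fun K hK K' hK' => ?_
  exact (N.qiSub_two (hd.mono hK.2 hK'.2)).trans
    (N.ncond_ge h hf hS (hK.1.union hK'.1) (union_subset (hK.2.trans h1) (hK'.2.trans h2)))

theorem fs_superadd (h : N.Real1 s) (hf : Continuous f) {ι : Type} (J : Finset ι)
    (T : ι → Set ℂ) {S : Set ℂ} (hS : IsOpen S) (hT : ∀ i ∈ J, IsOpen (T i) ∧ T i ⊆ S)
    (hd : ∀ i ∈ J, ∀ j ∈ J, i ≠ j → Disjoint (T i) (T j)) :
    ∑ i ∈ J, FS s f (T i) ≤ FS s f S := by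
  classical
  induction J using Finset.induction_on generalizing S with
  | empty => simp
  | insert a J ha ih =>
    have hm : ∀ i ∈ J, i ∈ insert a J := fun i hi => Finset.mem_insert_of_mem hi
    have ha' := Finset.mem_insert_self a J
    have hU : IsOpen (⋃ i ∈ J, T i) := isOpen_biUnion fun i hi => (hT i (hm i hi)).1
    rw [Finset.sum_insert ha]
    refine le_trans ?_ (N.qiSub_add h hf hS (hT a ha').1 hU (hT a ha').2
      (iUnion₂_subset fun i hi => (hT i (hm i hi)).2)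
      (disjoint_iUnion₂_right.2 fun i hi => hd a ha' i (hm i hi) fun e => ha (e ▸ hi)))
    gcongr
    exact ih hU (fun i hi => ⟨(hT i (hm i hi)).1, subset_biUnion_of_mem (u := T) hi⟩)
      fun i hi j hj => hd i (hm i hi) j (hm j hj)

theorem fs_sub (h : N.Real1 s) (hf : Continuous f) {ι : Type} (J : Finset ι)
    (T : ι → Set ℂ) {S Γ : Set ℂ} (hS : IsOpen S) (hT : ∀ i ∈ J, IsOpen (T i))
    (hb : ∀ i ∈ J, Bornology.IsBounded (T i))
    (hd : ∀ i ∈ J, ∀ j ∈ J, i ≠ j → Disjoint (T i) (T j)) (hΓ : IsCompact Γ)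
    (hcov : S ⊆ (⋃ i ∈ J, T i) ∪ Γ) {M : ℝ}
    (hcut : ∀ z ∈ Γ, ∃ᶠ r in 𝓝[>] (0 : ℝ), N.Cut (closedBall z r) (ball z (12 * r)) M)
    {η : ℝ} (hη : 0 < η) :
    FS s f S ≤ ∑ i ∈ J, FS s f (T i) + FS s f (thickening η Γ) := by
  have h0 : ∀ z ∈ Γ, ∃ r : ℝ, N.Cut (closedBall z r) (ball z (12 * r)) M ∧ r ∈ Ioo 0 (η / 48) :=
    fun z hz => ((hcut z hz).and_eventually (Ioo_mem_nhdsGT (by positivity))).exists
  choose! r hr hr' using h0
  obtain ⟨t, ht, hcv⟩ := hΓ.elim_nhds_subcover (fun z => ball z (r z))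
    fun z hz => ball_mem_nhds z (hr' z hz).1
  rw [N.fs_eq h hf hS]
  refine iSup_le fun K => iSup₂_le fun hK hKS => ?_
  obtain ⟨δ₀, hδ₀, hL⟩ := lebesgue_number_lemma_of_metric_sUnion
    (c := insert (⋃ z ∈ t, ball z (r z)) (T '' J)) hK (by
      rintro _ (rfl | ⟨i, hi, rfl⟩)
      · exact isOpen_biUnion fun _ _ => isOpen_ball
      · exact hT i hi) (by
      intro x hx
      rcases hcov (hKS hx) with h1 | h1
      · obtain ⟨i, hi, h2⟩ := mem_iUnion₂.1 h1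
        exact ⟨T i, Or.inr ⟨i, hi, rfl⟩, h2⟩
      · exact ⟨_, Or.inl rfl, hcv h1⟩)
  have hsub : ∀ i, {y : ℂ | ball y (δ₀ / 2) ⊆ T i} ⊆ T i := fun i y hy =>
    hy (mem_ball_self (by positivity))
  have hg := N.glue f hf K hK.isBounded J (fun i => {y : ℂ | ball y (δ₀ / 2) ⊆ T i})
    (fun i hi j hj hij => (hd i hi j hj hij).mono (hsub i) (hsub j))
    (⋃ z ∈ t, closedBall z (r z)) (⋃ z ∈ t, ball z (12 * r z)) (cthickening (η / 2) Γ)
    (δ := min (δ₀ / 2) (η / 4)) (by positivity)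
    (N.cut_union t _ _ (fun _ => M) fun z hz => hr z (ht z hz))
    (iUnion₂_mono fun z hz => closedBall_subset_ball (by linarith [(hr' z (ht z hz)).1]))
    (fun x hx => ?_) fun x hx y hy => ?_
  · refine hg.trans (add_le_add (Finset.sum_le_sum fun i hi => ?_) ?_)
    · exact N.ncond_ge h hf (hT i hi) (isCompact_of_isClosed_isBounded (qiSub_closed _ _)
        ((hb i hi).subset (hsub i))) (hsub i)
    · exact N.ncond_ge h hf isOpen_thickening hΓ.cthickening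
        (cthickening_subset_thickening' hη (by linarith) _)
  · obtain ⟨V, hV, hV'⟩ := hL x hx
    rcases hV with rfl | ⟨i, hi, rfl⟩
    · refine Or.inr ((ball_subset_ball ((min_le_left _ _).trans (by linarith))).trans
        (hV'.trans (iUnion₂_mono fun z _ => ball_subset_closedBall)))
    · refine Or.inl ⟨i, hi, fun y hy => (ball_subset_ball' ?_).trans hV'⟩
      have := (mem_ball.1 hy).trans_le (min_le_left _ _)
      linarith
  · obtain ⟨z, hz, hx'⟩ := mem_iUnion₂.1 hx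
    refine mem_cthickening_of_dist_le y z _ _ (ht z hz) ?_
    have h1 := (mem_ball.1 hy).trans_le (min_le_right _ _)
    have h2 := mem_ball.1 hx'
    linarith [dist_triangle y x z, (hr' z (ht z hz)).2]

/-- packing an open set by small squares -/
theorem le_fs_of_squares (h : N.Real1 s) (hf : Continuous f) {c : ℝ≥0∞} {U : Set ℂ}
    (hU : IsOpen U) {ρ₀ : ℝ} (hρ₀ : 0 < ρ₀)
    (hsq : ∀ (w : ℂ) (ρ : ℝ), IsQ w → IsQ (ρ : ℂ) → 0 < ρ → ρ ≤ ρ₀ →
      orect (w.re - ρ) (w.re + ρ) (w.im - ρ) (w.im + ρ) ⊆ U →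
      c * ENNReal.ofReal ((2 * ρ) ^ 2) ≤
        FS s f (orect (w.re - ρ) (w.re + ρ) (w.im - ρ) (w.im + ρ))) :
    c * volume U ≤ FS s f U := by
  classical
  rw [hU.measure_eq_iSup_isCompact]
  simp only [ENNReal.mul_iSup]
  refine iSup_le fun K => iSup₂_le fun hKU hK => ?_
  obtain ⟨δ, hδ, hδU⟩ := hK.exists_cthickening_subset_open hU hKU
  obtain ⟨q, hq0, hq1⟩ := exists_rat_btwn (show (0 : ℝ) < min ρ₀ (δ / 4) by positivity)
  obtain ⟨ρ, hρ⟩ : ∃ ρ : ℝ, ρ = q := ⟨_, rfl⟩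
  rw [← hρ] at hq0 hq1
  have hq2 := hq1.trans_le (min_le_left _ _)
  have hq3 := hq1.trans_le (min_le_right _ _)
  have hh : 0 < 2 * ρ := by positivity
  have hQ : IsQ (ρ : ℂ) := isQ_ofReal_iff.2 ⟨q, hρ⟩
  have hQ2 : IsQ ((2 * ρ : ℝ) : ℂ) := isQ_ofReal_iff.2 ⟨2 * q, by rw [hρ]; push_cast; rfl⟩
  obtain ⟨R, hR⟩ := hK.isBounded.exists_norm_le
  obtain ⟨J, hJ⟩ : ∃ J : Finset (ℤ × ℤ), ∀ p, p ∈ J ↔
      ∃ x ∈ K, (round (x.re / (2 * ρ)), round (x.im / (2 * ρ))) = p := by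
    refine ⟨(Finset.Icc (-⌈R / (2 * ρ)⌉) ⌈R / (2 * ρ)⌉ ×ˢ
      Finset.Icc (-⌈R / (2 * ρ)⌉) ⌈R / (2 * ρ)⌉).filter
      fun p => ∃ x ∈ K, (round (x.re / (2 * ρ)), round (x.im / (2 * ρ))) = p, fun p => ?_⟩
    rw [Finset.mem_filter]
    refine ⟨fun h => h.2, fun h => ⟨?_, h⟩⟩
    obtain ⟨x, hx, rfl⟩ := h
    exact Finset.mem_product.2
      ⟨round_mem_Icc hh ((Complex.abs_re_le_norm x).trans (hR x hx)),
        round_mem_Icc hh ((Complex.abs_im_le_norm x).trans (hR x hx))⟩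
  have hin : ∀ p ∈ J, orect (2 * ρ * p.1 - ρ) (2 * ρ * p.1 + ρ) (2 * ρ * p.2 - ρ)
      (2 * ρ * p.2 + ρ) ⊆ U := by
    intro p hp y hy
    obtain ⟨x, hx, rfl⟩ := (hJ p).1 hp
    refine hδU (mem_cthickening_of_dist_le y x _ _ hx ?_)
    have h1 := abs_le.1 (abs_sub_mul_round_le hh x.re)
    have h2 := abs_le.1 (abs_sub_mul_round_le hh x.im)
    obtain ⟨⟨h3, h4⟩, h5, h6⟩ := hy
    dsimp only at h3 h4 h5 h6
    have h7 : |(y - x).re| ≤ 2 * ρ := by
      rw [Complex.sub_re, abs_le]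
      constructor <;> linarith [h1.1, h1.2]
    have h8 : |(y - x).im| ≤ 2 * ρ := by
      rw [Complex.sub_im, abs_le]
      constructor <;> linarith [h2.1, h2.2]
    rw [dist_eq_norm]
    linarith [Complex.norm_le_abs_re_add_abs_im (y - x)]
  have hcov : K ⊆ ⋃ p ∈ J, crect (2 * ρ * p.1 - ρ) (2 * ρ * p.1 + ρ) (2 * ρ * p.2 - ρ)
      (2 * ρ * p.2 + ρ) := by
    intro x hx
    have h1 := abs_le.1 (abs_sub_mul_round_le hh x.re)
    have h2 := abs_le.1 (abs_sub_mul_round_le hh x.im)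
    refine mem_iUnion₂.2 ⟨_, (hJ _).2 ⟨x, hx, rfl⟩, ⟨?_, ?_⟩, ?_, ?_⟩ <;> dsimp only <;>
      linarith [h1.1, h1.2, h2.1, h2.2]
  calc c * volume K ≤ c * ∑ p ∈ J, ENNReal.ofReal ((2 * ρ) ^ 2) := by
        gcongr
        refine (measure_mono hcov).trans ((measure_biUnion_finset_le _ _).trans ?_)
        exact Finset.sum_le_sum fun p _ => (qiSub_vol _ _ ρ hq0.le).le
    _ ≤ ∑ p ∈ J, FS s f (orect (2 * ρ * p.1 - ρ) (2 * ρ * p.1 + ρ) (2 * ρ * p.2 - ρ)
        (2 * ρ * p.2 + ρ)) := by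
        rw [Finset.mul_sum]
        refine Finset.sum_le_sum fun p hp => ?_
        have := hsq _ ρ (isQ_gridPt hQ2 p.1 p.2) hQ hq0 hq2.le
        rw [gridPt_re, gridPt_im] at this
        exact this (hin p hp)
    _ ≤ _ := by
        refine N.fs_superadd h hf J _ hU (fun p hp => ⟨qiSub_open _ _ _ _, hin p hp⟩)
          fun p _ p' _ hne => disjoint_left.2 fun y hy hy' => hne ?_
        exact Prod.ext (qiSub_int hq0 hy.1 hy'.1) (qiSub_int hq0 hy.2 hy'.2)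

end FNet

end Pool.Agent.QL
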