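import Pool.Agent.P.MP_7a6434d8_pr.QL.I.Prod

open MeasureTheory ProbabilityTheory Set Filter Topology Metric
open scoped ENNReal

namespace Pool.Agent.QL

open Pool.Agent.LGD

variable {ν : Measure Dist}

theorem qiTame_bc {Ω ι : Type*} [MeasurableSpace Ω] {μ : Measure Ω} (s : ℕ → Finset ι)
    (E : ℕ → ι → Set Ω) (b : ℕ → ℝ≥0∞) {C ρ : ℝ≥0∞} (hC : C ≠ ⊤) (hρ : ρ < 1)
    (h : ∀ j, 1 ≤ j → ∀ i ∈ s j, μ (E j i) ≤ b j) (h' : ∀ j, (s j).card * b j ≤ C * ρ ^ j) :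
    ∀ᵐ ω ∂μ, ∀ᶠ j in atTop, ∀ i ∈ s j, ω ∉ E j i := by
  have h1 : ∀ j, μ {ω | 1 ≤ j ∧ ω ∈ ⋃ i ∈ s j, E j i} ≤ C * ρ ^ j := fun j => by
    by_cases hj : 1 ≤ j
    · refine (measure_mono fun ω hω => hω.2).trans ((measure_biUnion_finset_le _ _).trans ?_)
      refine (Finset.sum_le_card_nsmul _ _ _ (h j hj)).trans ?_
      rw [nsmul_eq_mul]
      exact h' j
    · simp [hj]
  have h2 : ∑' j, μ {ω | 1 ≤ j ∧ ω ∈ ⋃ i ∈ s j, E j i} ≠ ⊤ := by
    refine ne_top_of_le_ne_top ?_ (ENNReal.tsum_le_tsum h1)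
    rw [ENNReal.tsum_mul_left, ENNReal.tsum_geometric]
    exact ENNReal.mul_ne_top hC (ENNReal.inv_ne_top.2 (tsub_pos_of_lt hρ).ne')
  filter_upwards [ae_eventually_notMem h2] with ω hω
  filter_upwards [hω, eventually_ge_atTop 1] with j h3 h4 i hi h5
  exact h3 ⟨h4, mem_biUnion hi h5⟩

theorem qiTame_card (j : ℕ) : ((gridFin (sc j / 4) 4).card : ℝ≥0∞) ≤ 1225 * 65536 ^ j := by
  have h := card_gridFin_le (h := sc j / 4) (R := 4) (by have := sc_pos j; positivity) (by norm_num)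
  have h1 : (1 : ℝ) ≤ 256 ^ j := one_le_pow₀ (by norm_num)
  have h2 : 2 * 4 / (sc j / 4) = 32 * 256 ^ j := by
    rw [sc]
    field_simp
    norm_num
  have h3 : ((gridFin (sc j / 4) 4).card : ℝ) ≤ 1225 * 65536 ^ j := by
    rw [show (65536 : ℝ) ^ j = 256 ^ j * 256 ^ j by rw [← mul_pow]; norm_num]
    rw [h2] at h
    nlinarith
  exact_mod_cast h3

theorem qiTame_QQ : 2.04 ≤ QQ := by
  have h0 : 0 < gam := Real.sqrt_pos.2 (by norm_num)
  have h1 : gam ^ 2 = 8 / 3 := Real.sq_sqrt (by norm_num)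
  have h2 : QQ = 5 / 4 * gam := by
    rw [QQ]
    field_simp
    linarith
  rw [h2]
  nlinarith

theorem qiTame_anti {i j : ℕ} (h : i ≤ j) : sc j ≤ sc i :=
  one_div_le_one_div_of_le (by positivity) (pow_le_pow_right₀ (by norm_num) h)

theorem qiTame_log (j : ℕ) : Real.log (sc j) = -(8 * j * Real.log 2) := by
  rw [sc, one_div, Real.log_inv, show (256 : ℝ) = 2 ^ 8 by norm_num, ← pow_mul, Real.log_pow]
  push_cast
  rfl

theorem qiTame_pt {J : ℕ} (hJ : 1 ≤ J) {z : ℂ} (hz : z ∈ B0) : ‖pt J z‖ ≤ 398 / 100 := by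
  have h1 := gfr_near (2 * J) z
  have h2 := qiTame_anti (show 1 ≤ 2 * J by omega)
  have h3 : sc 1 = 1 / 256 := by rw [sc, pow_one]
  have h4 := mem_ball_zero_iff.1 hz
  have h5 := norm_add_le (pt J z - z) z
  rw [sub_add_cancel] at h5
  change ‖pt J z - z‖ ≤ _ at h1
  linarith

theorem id_range (hν : IsCanon ν) :
    ∀ᵐ k ∂nuh ν, ∀ᶠ j in atTop, ∀ y : ℂ, ‖y‖ ≤ 4 → Phi (gfr j y) k ≤ 0 := by
  obtain ⟨C, hC⟩ := hν.ga 10
  have l1 := Real.log_two_gt_d9
  have h1 : ∀ᵐ k ∂ν, ∀ᶠ j in atTop, ∀ z ∈ gridFin (sc j / 4) 4,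
      k ∉ {k | 2.02 * (8 * j * Real.log 2) < |Xm z (sc j : ℝ) k|} := by
    refine qiTame_bc _ _ (fun j => 2 * ex (2.0402 * C - 2.0402 * (8 * j * Real.log 2)))
      (C := 1225 * (2 * ex (2.0402 * C))) (ρ := ex (-(0.3 * Real.log 2)))
      (ENNReal.mul_ne_top ENNReal.ofNat_ne_top
        (ENNReal.mul_ne_top ENNReal.ofNat_ne_top (ex_ne_top _)))
      (by rw [← ex_zero, ex_lt_ex]; linarith) (fun j _ z hz => ?_) fun j => ?_
    · have h0 := sc_pos j
      have h1 := qiTame_anti j.zero_le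
      rw [show sc 0 = 1 by simp [sc]] at h1
      have hn : ‖((sc j : ℝ) : ℂ)‖ = sc j := norm_gfr_a j 0
      obtain ⟨h2, h3⟩ := hC z (sc j : ℝ) 0 1 (gfr j 0).a_ne one_ne_zero
        (by
          rw [sub_zero, norm_one]
          linarith [norm_le_of_mem_gridFin (by positivity) (by norm_num) hz])
        (by rw [hn, norm_one]; linarith)
      rw [norm_one, hn, one_div, Real.log_inv, qiTame_log, neg_neg] at h2 h3
      have h4 : 0 ≤ 8 * j * Real.log 2 := by positivity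
      generalize 8 * j * Real.log 2 = L at h2 h3 h4
      refine le_trans (measure_mono_ae ?_) ((h3 (2.02 * L) (by positivity)).trans ?_)
      · filter_upwards [hν.X_one] with k hk h
        change 2.02 * L < |Xm z (sc j : ℝ) k - Xm 0 1 k|
        rwa [hk, sub_zero]
      · refine mul_le_mul_right (ex_le_ex.2 ?_) _
        rw [neg_le, le_div_iff₀ (by linarith)]
        nlinarith [sq_nonneg (2.02 * L - 2.02 * (L + C))]
    · have h2 : (65536 : ℝ≥0∞) = ex (16 * Real.log 2) := by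
        rw [ex, show (16 : ℝ) = (16 : ℕ) by norm_num, Real.exp_nat_mul, Real.exp_log two_pos]
        norm_num
      refine (mul_le_mul_left (qiTame_card j) _).trans ?_
      rw [h2, ex_pow, ex_pow, mul_assoc, mul_assoc 1225, mul_assoc 2, mul_left_comm (ex _), ← ex_add,
        ← ex_add]
      refine mul_le_mul_right (mul_le_mul_right (ex_le_ex.2 ?_) _) _
      nlinarith [mul_nonneg (Nat.cast_nonneg (α := ℝ) j) (show 0 ≤ Real.log 2 by linarith)]
  filter_upwards [(norm0_mp hν).quasiMeasurePreserving.ae h1] with k hk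
  filter_upwards [hk, (tendsto_natCast_atTop_atTop (R := ℝ)).eventually_ge_atTop (50 * k psi)]
    with j h2 h3 y hy
  have h4 := h2 _ (grid_mem_gridFin (by have := sc_pos j; positivity) hy)
  rw [not_lt, abs_le] at h4
  rw [← lev_norm0 k, Phi_lev, Phi, norm_gfr_a, qiTame_log, gfr_z, gfr_a]
  have h5 : (0 : ℝ) ≤ j := j.cast_nonneg
  have h6 : j ≤ 8 * j * Real.log 2 := by nlinarith
  generalize 8 * j * Real.log 2 = L at h4 h6
  nlinarith [qiTame_QQ, h4.2]

theorem id_tame (hν : IsCanon ν) (R : Regime ν) {x : ℝ} {C : ℝ≥0∞} (hC : C ≠ ⊤)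
    (h : R.TailAt x C) : ∀ᵐ k ∂nuh ν, ∀ᵐ s ∂(R.K k), Tame x (k, s) := by
  have h1 : ∀ᵐ ω ∂(R.Ph), ∀ᶠ J in atTop, ∀ y ∈ pts J B0, ω ∉ BadRun x (J + 1) J y := by
    refine qiTame_bc _ _ (fun J => C * ((256 : ℝ≥0∞) ^ 5)⁻¹ ^ J) (C := 1225 * C) (ρ := 256⁻¹)
      (ENNReal.mul_ne_top ENNReal.ofNat_ne_top hC) (by norm_num) (fun J hJ y hy => ?_) fun J => ?_
    · classical
      obtain ⟨z, hz, rfl⟩ := (Finset.mem_filter.1 hy).2
      exact h _ _ _ (by omega) (qiTame_pt hJ hz)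
    · classical
      have h2 : ((pts J B0).card : ℝ≥0∞) ≤ 1225 * 65536 ^ (2 * J) :=
        (Nat.cast_le.2 (Finset.card_filter_le _ _)).trans (qiTame_card _)
      refine (mul_le_mul_left h2 _).trans (le_of_eq ?_)
      rw [mul_mul_mul_comm, pow_mul, ← mul_pow, show (65536 : ℝ≥0∞) ^ 2 = 256 ^ 4 by norm_num,
        pow_succ _ 4, ENNReal.mul_inv (by simp) (by simp), ← mul_assoc (256 ^ 4),
        ENNReal.mul_inv_cancel (by simp) (by simp), one_mul]
  filter_upwards [id_range hν, R.ae_ae_of_Ph hν h1] with k h2 h3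
  filter_upwards [h3] with s h4
  refine ⟨h2, h4.mono fun J h5 z hz => h5 _ ?_⟩
  classical
  refine Finset.mem_filter.2 ⟨grid_mem_gridFin (by have := sc_pos (2 * J); positivity) ?_,
    z, hz, rfl⟩
  linarith [mem_ball_zero_iff.1 hz]

theorem id_cuts (h10 : N10Stmt) (x : ℝ) : ∃ M : ℝ, 0 < M ∧ ∀ (N : FNet) (k : Dist) (s : Sys),
    N.Real s → Tame x (k, s) → N.dual.Cuts M := by
  obtain ⟨C, hC, H⟩ := h10
  have h0 := Real.exp_pos x
  refine ⟨C * (2 * Real.exp x), by positivity, fun N k s hN hT z hz => ?_⟩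
  have h1 : Tendsto (fun j => sc j / 2) atTop (𝓝[>] 0) := by
    refine tendsto_nhdsWithin_iff.2 ⟨?_, .of_forall fun j => half_pos (sc_pos j)⟩
    simpa [sc] using (tendsto_inv_atTop_zero.comp (tendsto_pow_atTop_atTop_of_one_lt
      (show (1 : ℝ) < 256 by norm_num))).div_const 2
  refine h1.frequently (frequently_atTop.2 fun a => ?_)
  obtain ⟨j₀, h2⟩ := eventually_atTop.1 hT.1
  obtain ⟨J, h3, h4, h5, h6⟩ := (hT.2.and ((eventually_ge_atTop 1).and
    ((eventually_ge_atTop j₀).and (eventually_ge_atTop a)))).exists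
  have h7 := h3 z hz
  simp only [BadRun, mem_ofPred_eq, not_forall, not_and, not_lt] at h7
  obtain ⟨i, hi, h7⟩ := h7
  have h8 := H N s hN _ (2 * Real.exp x) (by positivity)
    ((h7 (h2 _ (by omega) _ (by linarith [qiTame_pt h4 hz]))).trans_lt
      ((ENNReal.ofReal_lt_ofReal_iff (by positivity)).2 (by linarith)))
  have h9 : dist (gfr (J + 1 + i) (pt J z)).z z ≤ 3 / 8 * sc (J + 1 + i) := by
    have a1 := gfr_near (J + 1 + i) (pt J z)
    have a2 : ‖pt J z - z‖ ≤ _ := gfr_near (2 * J) z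
    have a3 := qiTame_anti (show J + 1 + i ≤ 2 * J by omega)
    rw [← dist_eq_norm] at a1 a2
    linarith [dist_triangle (gfr (J + 1 + i) (pt J z)).z (pt J z) z]
  have h10 := sc_pos (J + 1 + i)
  rw [norm_gfr_a] at h8
  refine ⟨J + 1 + i, by omega, ?_⟩
  filter_upwards [h8] with m ⟨χ, a1, a2, a3, a4, a5⟩
  exact ⟨χ, a1, a2, fun d hd => a3 d (closedBall_subset_closedBall' (by rw [dist_comm]; linarith) hd),
    fun d hd => a4 d fun h => hd (ball_subset_ball' (by linarith) h), a5⟩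

end Pool.Agent.QL
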