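import Pool.Agent.P.MP_7a6434d8_pr.QL.I.MomD
import Pool.Agent.P.MP_7a6434d8_pr.QL.I.Tame
import Pool.Agent.P.MP_7a6434d8_pr.QL.I.Sub
import Pool.Agent.P.MP_7a6434d8_pr.QL.I.Lin

open MeasureTheory ProbabilityTheory Set Filter Topology Metric
open scoped ENNReal

namespace Pool.Agent.QL

open Pool.Agent.LGD

variable {ν : Measure Dist}

/-- the open square of side `h` centred at `y` -/
def qiMomP_sq (h : ℝ) (y : ℂ) : Set ℂ :=
  orect (y.re - h / 2) (y.re + h / 2) (y.im - h / 2) (y.im + h / 2)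

theorem qiMomP_meas (h : ℝ) (y : ℂ) : MeasurableSet (qiMomP_sq h y) :=
  (Complex.measurable_re measurableSet_Ioo).inter (Complex.measurable_im measurableSet_Ioo)

theorem qiMomP_vol {h : ℝ} (hh : 0 ≤ h) (y : ℂ) :
    volume (qiMomP_sq h y) = ENNReal.ofReal (h ^ 2) := by
  have h1 := Complex.volume_preserving_equiv_real_prod.measure_preimage
    (s := Ioo (y.re - h / 2) (y.re + h / 2) ×ˢ Ioo (y.im - h / 2) (y.im + h / 2))
    (measurableSet_Ioo.prod measurableSet_Ioo).nullMeasurableSet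
  refine Eq.trans h1 ?_
  rw [Measure.volume_eq_prod, Measure.prod_prod, Real.volume_Ioo, Real.volume_Ioo,
    ← ENNReal.ofReal_mul (by linarith)]
  congr 1
  ring

theorem qiMomP_round {h t : ℝ} (hh : 0 < h) {a : ℤ} (ht : t ∈ Ioo (h * a - h / 2) (h * a + h / 2)) :
    round (t / h) = a := by
  rw [round_eq_iff, mem_Ico, le_div_iff₀ hh, div_lt_iff₀ hh]
  exact ⟨by linarith [ht.1], by linarith [ht.2]⟩

theorem qiMomP_grid {h : ℝ} (hh : 0 < h) {z w : ℂ} (hw : w ∈ qiMomP_sq h (grid h z)) :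
    grid h w = grid h z := by
  have h1 : (grid h z).re = h * (round (z.re / h) : ℤ) := by simp [grid]
  have h2 : (grid h z).im = h * (round (z.im / h) : ℤ) := by simp [grid]
  obtain ⟨h3, h4⟩ := hw
  rw [h1] at h3
  rw [h2] at h4
  rw [grid, grid, qiMomP_round hh h3, qiMomP_round hh h4]

theorem qiMomP_mem {J : ℕ} {O : Set ℂ} {y : ℂ} (hy : y ∈ pts J O) :
    ∃ z ∈ O, grid (sc (2 * J) / 4) z = y := by
  classical
  exact (Finset.mem_filter.1 hy).2

theorem qiMomP_runW (x : ℝ) (J : ℕ) (y : ℂ) : Measurable (runW x J y) :=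
  Finset.measurable_sum _ fun _ _ => measurable_const.indicator (measurableSet_badRun _ _ _ _)

theorem qiMomP_geom (J : ℕ) : ∑ m ∈ Finset.range J, (256 : ℝ≥0∞)⁻¹ ^ m ≤ 2 := by
  refine le_trans (Finset.sum_le_sum fun m _ => pow_le_pow_left'
    (ENNReal.inv_le_inv.2 (by norm_num : (2 : ℝ≥0∞) ≤ 256)) m) ?_
  exact (ENNReal.sum_le_tsum _).trans_eq ENNReal.tsum_geometric_two

theorem qiMomP_int (R : Regime ν) {x : ℝ} {C : ℝ≥0∞} (h : R.TailAt x C) (J : ℕ) {y : ℂ}
    (hy : ‖y‖ ≤ 398 / 100) : ∫⁻ ω, runW x J y ω ∂(R.Ph) ≤ 2 * C := by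
  unfold runW
  rw [lintegral_finsetSum _ fun _ _ => measurable_const.indicator (measurableSet_badRun _ _ _ _),
    mul_comm 2 C]
  refine le_trans (Finset.sum_le_sum fun m hm => ?_)
    ((Finset.mul_sum _ _ _).symm.trans_le (mul_le_mul_right (qiMomP_geom J) C))
  rw [lintegral_indicator_const (measurableSet_badRun _ _ _ _)]
  have h1 := Finset.mem_range.1 hm
  refine (mul_le_mul_right (h _ m y (by omega) hy) _).trans_eq ?_
  have h2 : (256 : ℝ≥0∞) ^ 4 * ((256 : ℝ≥0∞) ^ 5)⁻¹ = 256⁻¹ := by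
    rw [pow_succ _ 4, ENNReal.mul_inv (by simp) (by simp), ← mul_assoc,
      ENNReal.mul_inv_cancel (by simp) (by simp), one_mul]
  rw [mul_left_comm, ← mul_pow, h2]

theorem qiMomP_sc : Tendsto (fun J : ℕ => sc (2 * J)) atTop (𝓝 0) := by
  have h1 : Tendsto (fun j : ℕ => ((1 : ℝ) / 256) ^ j) atTop (𝓝 0) :=
    tendsto_pow_atTop_nhds_zero_of_lt_one (by norm_num) (by norm_num)
  simpa only [sc, one_div, inv_pow, Function.comp_def, id] using
    h1.comp (tendsto_id.const_mul_atTop' (by norm_num : 0 < 2))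

theorem id_card_pts (J : ℕ) (O : Set ℂ) :
    ((pts J O).card : ℝ≥0∞) * ENNReal.ofReal (sc (2 * J) ^ 2) ≤
      16 * volume (cthickening (sc (2 * J)) O) := by
  have h0 := sc_pos (2 * J)
  have hh : 0 < sc (2 * J) / 4 := by positivity
  have h1 : volume (⋃ y ∈ pts J O, qiMomP_sq (sc (2 * J) / 4) y) =
      (pts J O).card * ENNReal.ofReal ((sc (2 * J) / 4) ^ 2) := by
    rw [measure_biUnion_finset ?_ fun y _ => qiMomP_meas _ y]
    · simp only [qiMomP_vol hh.le, Finset.sum_const, nsmul_eq_mul]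
    · intro y hy y' hy' hn
      obtain ⟨z, -, rfl⟩ := qiMomP_mem hy
      obtain ⟨z', -, rfl⟩ := qiMomP_mem hy'
      exact disjoint_left.2 fun w hw hw' => hn ((qiMomP_grid hh hw).symm.trans (qiMomP_grid hh hw'))
  have h2 : (⋃ y ∈ pts J O, qiMomP_sq (sc (2 * J) / 4) y) ⊆ cthickening (sc (2 * J)) O := by
    refine iUnion₂_subset fun y hy w hw => ?_
    obtain ⟨z, hz, rfl⟩ := qiMomP_mem hy
    refine mem_cthickening_of_dist_le w z _ O hz ?_
    have h3 := norm_sub_grid_le hh z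
    have h4 := norm_sub_grid_le hh w
    rw [qiMomP_grid hh hw] at h4
    rw [← dist_eq_norm] at h3 h4
    linarith [dist_triangle_right w z (grid (sc (2 * J) / 4) z)]
  have h3 : ENNReal.ofReal (sc (2 * J) ^ 2) = 16 * ENNReal.ofReal ((sc (2 * J) / 4) ^ 2) := by
    rw [← ENNReal.ofReal_ofNat 16, ← ENNReal.ofReal_mul (by norm_num)]
    congr 1
    ring
  rw [h3, mul_left_comm, ← h1]
  exact mul_le_mul_right (measure_mono h2) _

theorem measurable_runC (x : ℝ) (J : ℕ) (O : Set ℂ) : Measurable (runC x J O) := by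
  exact (Finset.measurable_sum _ fun y _ => qiMomP_runW x J y).const_mul _

theorem id_runC (R : Regime ν) {x : ℝ} {C : ℝ≥0∞} (h : R.TailAt x C) (J : ℕ) {O : Set ℂ}
    (hO : O ⊆ B0) (hJ : 1 ≤ J) :
    ∫⁻ ω, runC x J O ω ∂(R.Ph) ≤ 2 * C * (16 * volume (cthickening (sc (2 * J)) O)) ^ 2 := by
  unfold runC
  rw [lintegral_const_mul _ (Finset.measurable_sum _ fun y _ => qiMomP_runW x J y),
    lintegral_finsetSum _ fun y _ => qiMomP_runW x J y]
  have h1 : ∑ y ∈ pts J O, ∫⁻ ω, runW x J y ω ∂(R.Ph) ≤ (pts J O).card * (2 * C) := by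
    rw [← nsmul_eq_mul]
    refine Finset.sum_le_card_nsmul _ _ _ fun y hy => qiMomP_int R h J ?_
    obtain ⟨z, hz, rfl⟩ := qiMomP_mem hy
    have h2 : ‖z‖ < 397 / 100 := mem_ball_zero_iff.1 (hO hz)
    have h3 := norm_sub_grid_le (h := sc (2 * J) / 4) (by have := sc_pos (2 * J); positivity) z
    have h4 : sc (2 * J) ≤ 1 / 256 ^ 1 :=
      one_div_le_one_div_of_le (by norm_num) (pow_le_pow_right₀ (by norm_num) (by omega))
    linarith [norm_sub_norm_le (grid (sc (2 * J) / 4) z) z,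
      norm_sub_rev (grid (sc (2 * J) / 4) z) z]
  refine (mul_le_mul_right h1 _).trans (le_of_eq_of_le ?_
    (mul_le_mul_right (pow_le_pow_left' (id_card_pts J O) 2) _))
  rw [show sc (2 * J) ^ 4 = (sc (2 * J) ^ 2) ^ 2 by ring, ENNReal.ofReal_pow (sq_nonneg _)]
  ring

/-- second moments -/
theorem id_mom (h10 : N10Stmt) (hν : IsCanon ν) (R : Regime ν) {x : ℝ} {C : ℝ≥0∞} (hC : C ≠ ⊤)
    (h : R.TailAt x C) : ∃ B : ℝ≥0∞, B ≠ ⊤ ∧ ∀ (e : ℂ) (O : Set ℂ), IsOpen O → O ⊆ B0 →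
      ∫⁻ k, ∫⁻ s, FS s.2 (lin e) O ^ 2 ∂(R.K k) ∂nuh ν ≤
        (B * ENNReal.ofReal (‖e‖ ^ 2) * volume (closure O)) ^ 2 := by
  obtain ⟨C', hC', hd⟩ := id_mom_det h10 x
  refine ⟨512 * C * C' + 1, by finiteness, fun e O hO hB => ?_⟩
  have hm : Measurable fun ω : Dist × Sys => liminf (fun J => runC x J O ω) atTop :=
    Measurable.liminf fun J => measurable_runC x J O
  have h1 : ∫⁻ k, ∫⁻ s, FS s.2 (lin e) O ^ 2 ∂(R.K k) ∂nuh ν ≤ ∫⁻ k, ∫⁻ s,
      C' * ENNReal.ofReal (‖e‖ ^ 2) ^ 2 * liminf (fun J => runC x J O (k, s)) atTop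
        ∂(R.K k) ∂nuh ν := by
    refine lintegral_mono_ae ?_
    filter_upwards [R.real, id_tame hν R hC h] with k h1 h2
    refine lintegral_mono_ae ?_
    filter_upwards [h1, h2] with s ⟨N, hN⟩ ht
    exact (pow_le_pow_left' (N.dual.fs_le_F hN.2 (by unfold lin; fun_prop) hO) 2).trans
      (hd N k s hN ht e O hB)
  have h2 : Tendsto (fun J => 2 * C * (16 * volume (cthickening (sc (2 * J)) O)) ^ 2) atTop
      (𝓝 (2 * C * (16 * volume (closure O)) ^ 2)) := by
    refine ENNReal.Tendsto.const_mul (ENNReal.Tendsto.pow (ENNReal.Tendsto.const_mul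
      ((tendsto_measure_cthickening ⟨1, one_pos, ?_⟩).comp qiMomP_sc) (Or.inr (by simp))))
      (Or.inr (by finiteness))
    exact (isBounded_ball.subset hB).cthickening.measure_lt_top.ne
  have h3 : ∫⁻ ω, liminf (fun J => runC x J O ω) atTop ∂(R.Ph) ≤
      2 * C * (16 * volume (closure O)) ^ 2 := by
    rw [← h2.liminf_eq]
    exact (lintegral_liminf_le fun J => measurable_runC x J O).trans (liminf_le_liminf
      ((eventually_ge_atTop 1).mono fun J hJ => id_runC R h J hB hJ))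
  rw [← R.lintegral_Ph hν (hm.const_mul _), lintegral_const_mul _ hm] at h1
  refine (h1.trans (mul_le_mul_right h3 _)).trans ?_
  have h4 : 512 * C * C' ≤ (512 * C * C' + 1) ^ 2 :=
    le_self_add.trans (le_self_pow le_add_self two_ne_zero)
  rw [mul_assoc (512 * C * C' + 1), mul_pow (512 * C * C' + 1)]
  refine le_of_eq_of_le ?_ (mul_le_mul_left h4 _)
  ring

end Pool.Agent.QL
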