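import Pool.Agent.P.MP_7a6434d8_pr.QL.I.Prod
import Pool.Agent.P.MP_7a6434d8_pr.QL.GT.LTail
import Pool.Agent.P.MP_7a6434d8_pr.QL.GT2.T1

open MeasureTheory ProbabilityTheory Set Filter Topology Metric
open scoped ENNReal

namespace Pool.Agent.QL

open Pool.Agent.LGD

variable {ν : Measure Dist}

theorem qiTail_sc_add (m j : ℕ) : sc (m + j) = sc m / 256 ^ j := by
  rw [sc, sc, pow_add, div_div]

theorem qiTail_sc_le {m : ℕ} (hm : 1 ≤ m) : sc m ≤ 1 / 256 :=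
  one_div_le_one_div_of_le (by norm_num) (le_self_pow₀ (by norm_num) (by omega))

theorem qiTail_chain {m : ℕ} (hm : 1 ≤ m) {y : ℂ} (hy : ‖y‖ ≤ 398 / 100) (n : ℕ) :
    IsChainF n (fun j => gfr (m + j) y) y (sc m) where
  pos := sc_pos m
  scale j _ := by rw [norm_gfr_a, qiTail_sc_add]
  centre j _ := by
    rw [← qiTail_sc_add]
    linarith [gfr_near (m + j) y, sc_pos (m + j)]
  maps j _ v hv := by
    have h1 : ‖v‖ < 4 := by simpa [U0] using hv
    have h2 := norm_add_le ((gfr (m + j) y).a * v) (gfr (m + j) y).z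
    rw [norm_mul, norm_gfr_a] at h2
    have h3 := norm_sub_norm_le (gfr (m + j) y).z y
    have h4 := gfr_near (m + j) y
    have h5 := qiTail_sc_le (m := m + j) (by omega)
    have h6 := sc_pos (m + j)
    rw [U0, mem_ball_zero_iff, Fr.map_apply]
    nlinarith

theorem qiTail_eq (x : ℝ) (m n : ℕ) (y : ℂ) :
    BadRun x (m + 1) n y = {k | ∀ j < n, Phi (gfr (m + (j + 1)) y) k ≤ 0} ×ˢ
      badF n (fun j => gfr (m + j) y) x := by
  have e0 : ∀ j, m + 1 + j = m + (j + 1) := fun j => by omega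
  ext ω
  simp only [BadRun, badF, mem_prod, mem_ofPred_eq, e0]
  exact ⟨fun H => ⟨fun j hj => (H j hj).1, fun j hj => (H j hj).2⟩,
    fun H j hj => ⟨H.1 j hj, H.2 j hj⟩⟩

theorem qiTail_meas (n : ℕ) (F : ℕ → Fr) : MeasurableSet {k | ∀ j < n, Phi (F j) k ≤ 0} := by
  have e : {k | ∀ j < n, Phi (F j) k ≤ 0} = ⋂ (j : ℕ) (_ : j < n), Phi (F j) ⁻¹' Iic 0 := by
    ext k
    simp only [mem_iInter, mem_preimage, mem_ofPred_eq, mem_Iic]
  rw [e]
  exact MeasurableSet.iInter fun j => MeasurableSet.iInter fun _ =>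
    measurable_Phi _ measurableSet_Iic

theorem id_tail (hν : IsCanon ν) : ∃ ε C : ℝ≥0∞, 0 < ε ∧ C ≠ ⊤ ∧
    ∀ (R : Regime ν) (x : ℝ), R.Fl ε x → R.TailAt x C := by
  obtain ⟨C, hC, h⟩ := t1_tail hν
  obtain ⟨ε, hε, h⟩ := h ((256 : ℝ≥0∞) ^ 5)⁻¹ (ENNReal.inv_pos.2 (by simp))
  refine ⟨ε, C, hε, hC, fun R x hx lo n y hlo hy => ?_⟩
  obtain ⟨m, rfl⟩ : ∃ m, lo = m + 1 := ⟨lo - 1, by omega⟩
  have hm : 1 ≤ m := by omega
  have hF := qiTail_chain hm hy n
  have := nuh_prob hν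
  have := R.markov
  rw [qiTail_eq, Regime.Ph, Measure.compProd_apply_prod
    (qiTail_meas n fun j => gfr (m + (j + 1)) y) (SS_le _ _ (badF_meas x n hF))]
  exact h R x 0 hx n (fun j => gfr (m + j) y) y _ ((qiTail_sc_le hm).trans (by norm_num)) hF

end Pool.Agent.QL
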