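import Pool.Agent.P.MP_7a6434d8_pr.QL.I.Const
import Pool.Agent.P.MP_7a6434d8_pr.QL.I.Alg
import Pool.Agent.P.MP_7a6434d8_pr.QL.I.Tail
import Pool.Agent.P.MP_7a6434d8_pr.QL.I.ASpot
import Pool.Agent.P.MP_7a6434d8_pr.QL.I.AEnd
import Pool.Agent.P.MP_7a6434d8_pr.QL.NSep
import Pool.Agent.P.MP_7a6434d8_pr.QL.Net.Cut
import Pool.Agent.P.MP_7a6434d8_pr.QL.Rsw.Num

open MeasureTheory ProbabilityTheory Set Filter Topology Metric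
open scoped ENNReal

namespace Pool.Agent.QL

open Pool.Agent.LGD

variable {ν : Measure Dist}

/-- One flat bound makes the dual half homogeneous. -/
theorem id_one (h10 : N10Stmt) (hν : IsCanon ν) : ∃ ε : ℝ≥0∞, 0 < ε ∧ ∀ (R : Regime ν) (x : ℝ),
    R.Fl ε x → ∃ a : ℝ, 0 ≤ a ∧ ∀ᵐ k ∂nuh ν, ∀ᵐ s ∂(R.K k),
      Hom1 a s.2 ∧ ∀ N : FNet, N.Real s → ∀ z ∈ B0, N.SepAt z := by
  obtain ⟨ε, C, hε, hC, H⟩ := id_tail hν
  refine ⟨ε, hε, fun R x hx => ?_⟩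
  have hT := H R x hx
  choose Q hQ hQ' using id_const h10 hν R hC hT
  obtain ⟨M, hM, hcut⟩ := id_cuts h10 x
  refine ⟨(Q 1).toReal / (28 / 5) ^ 2, by positivity, ?_⟩
  have hS : S0 ⊆ U0 := S0_subset.trans (ball_subset_ball (by norm_num))
  have h1 : ∀ e : {e : ℂ | IsQ e}, ∀ᵐ k ∂nuh ν, ∀ᵐ s ∂(R.K k), ∀ F : Fr, MapsTo F.map U0 U0 →
      pull F s ∈ {s : Sys | FS s.2 (lin e) S0 = Q e} := fun e =>
    R.ae_pull hν (measurable_fs_snd (lin e) hS (measurableSet_singleton _)) (hQ' e)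
  have := countable_isQ.to_subtype
  filter_upwards [ae_all_iff.2 h1, R.real, id_tame hν R hC hT] with k h2 h3 h4
  filter_upwards [ae_all_iff.2 h2, h3, h4] with s h5 h6 h7
  obtain ⟨N, hN⟩ := h6
  refine ⟨id_alg N.dual hN.2 Q hQ fun F hF e he => h5 ⟨e, he⟩ F hF, fun N' hN' z hz => ?_⟩
  exact N'.sepAt_of_cuts z (by norm_num) hM (hcut N' k s hN' h7 z hz)

theorem ar_of (h10 : N10Stmt) (hν : IsCanon ν) : ARStmt ν := by
  obtain ⟨ε, hε, H⟩ := id_one h10 hν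
  refine ⟨ε, hε, fun R x p hp h1 h2 => ?_⟩
  obtain ⟨a, ha, h3⟩ := H R x h1
  obtain ⟨u, v, huv, hu, hv, h4⟩ := ar_spots hν R hp h2
  filter_upwards [h3, h4, R.real] with k h5 h6 h7
  filter_upwards [h5, h6, h7] with s h8 h9 h0
  obtain ⟨N, hN⟩ := h0
  exact ar_end N hN ha h8.1 (h8.2 N hN) huv hu hv h9

theorem n10 : N10Stmt :=
  ⟨16, by norm_num, fun _ s hs F _ hΛ h =>
    FNet.cut_of_loop hs hΛ fun _ hl => (Rp_le_Loop F s hl).trans_lt h⟩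

/-- Block AR. -/
theorem ar (hν : IsCanon ν) : ARStmt ν := ar_of n10 hν

/-- Block ID. -/
theorem ident (hν : IsCanon ν) : ∃ ε : ℝ≥0∞, 0 < ε ∧ ∀ (R : Regime ν) (x y : ℝ),
    (∀ c ≤ 0, R.bet c {s | ex x < Rp s.1} ≤ ε) → (∀ c ≤ 0, R.bet c {s | ex y < Rp s.2} ≤ ε) →
    ∃ a b : ℝ, 0 < a ∧ 0 < b ∧ ∀ᵐ k ∂nuh ν, ∀ᵐ s ∂(R.K k), Homog a b s := by
  obtain ⟨ε, hε, H⟩ := id_one n10 hν
  refine ⟨ε, hε, fun R x y h1 h2 => ?_⟩
  obtain ⟨b, hb, h3⟩ := H R x h1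
  obtain ⟨a, ha, h4⟩ := H R.swap y fun c hc => (R.bet_swap c _).trans_le (h2 c hc)
  have h5 : ∀ᵐ k ∂nuh ν, ∀ᵐ s ∂(R.K k), Homog a b s := by
    filter_upwards [h3, h4] with k h6 h7
    have h8 : ∀ᵐ s ∂(R.K k), Hom1 a s.1 := by
      have h9 : ∀ᵐ s ∂(R.K.map Prod.swap k), Hom1 a s.2 := h7.mono fun s hs => hs.1
      rw [Kernel.map_apply _ measurable_swap] at h9
      exact ae_of_ae_map measurable_swap.aemeasurable h9
    filter_upwards [h6, h8] with s h9 h0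
    exact ⟨h0, h9.1⟩
  have := nuh_prob hν
  have := R.markov
  obtain ⟨k, h6, h7⟩ := (h5.and R.real).exists
  obtain ⟨s, h8, h9⟩ := (h6.and h7).exists
  exact ⟨a, b, (id_pos h9 ha hb h8).1, (id_pos h9 ha hb h8).2, h5⟩

end Pool.Agent.QL
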