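import Pool.Agent.P.MP_7a6434d8_pr.QL.I.Defs
import Pool.Agent.P.MP_7a6434d8_pr.QL.GT.Lev

open MeasureTheory ProbabilityTheory Set Filter Topology Metric
open scoped ENNReal

namespace Pool.Agent.QL

open Pool.Agent.LGD

variable {ν : Measure Dist}

theorem Regime.prob_Ph (hν : IsCanon ν) (R : Regime ν) : IsProbabilityMeasure R.Ph := by
  have := nuh_prob hν
  have := R.markov
  unfold Regime.Ph
  infer_instance

theorem Regime.lintegral_Ph (hν : IsCanon ν) (R : Regime ν) {f : Dist × Sys → ℝ≥0∞}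
    (hf : Measurable f) : ∫⁻ ω, f ω ∂(R.Ph) = ∫⁻ k, ∫⁻ s, f (k, s) ∂(R.K k) ∂nuh ν := by
  have := nuh_prob hν
  have := R.markov
  exact Measure.lintegral_compProd hf

theorem Regime.ae_ae_of_Ph (hν : IsCanon ν) (R : Regime ν) {p : Dist × Sys → Prop}
    (h : ∀ᵐ ω ∂(R.Ph), p ω) : ∀ᵐ k ∂nuh ν, ∀ᵐ s ∂(R.K k), p (k, s) := by
  have := nuh_prob hν
  have := R.markov
  exact Measure.ae_ae_of_ae_compProd h

theorem Regime.ae_Ph (hν : IsCanon ν) (R : Regime ν) {p : Dist × Sys → Prop}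
    (hp : MeasurableSet {ω | p ω}) (h : ∀ᵐ k ∂nuh ν, ∀ᵐ s ∂(R.K k), p (k, s)) :
    ∀ᵐ ω ∂(R.Ph), p ω := by
  have := nuh_prob hν
  have := R.markov
  exact Measure.ae_compProd_of_ae_ae hp h

theorem measurableSet_badRun (x : ℝ) (lo n : ℕ) (y : ℂ) : MeasurableSet (BadRun x lo n y) := by
  have e : BadRun x lo n y = ⋂ i, ⋂ (_ : i < n), ({ω : Dist × Sys | Phi (gfr (lo + i) y) ω.1 ≤ 0} ∩
      {ω | ex x < Loop (gfr (lo + i) y) ω.2}) := by
    ext ω
    simp only [BadRun, mem_ofPred_eq, mem_iInter, mem_inter_iff]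
  rw [e]
  refine MeasurableSet.iInter fun i => MeasurableSet.iInter fun _ => MeasurableSet.inter ?_ ?_
  · exact measurableSet_le ((measurable_Phi _).comp measurable_fst) measurable_const
  · exact measurableSet_lt measurable_const ((measurable_Loop _).comp measurable_snd)

theorem qiProd_geom (j : ℕ) (y : ℂ) (l : ℕ) (v : ℂ) :
    (‖v‖ - 3 / 16) * sc j ≤ ‖((gfr j y).comp (rotF l)).map v - y‖ ∧
      ‖((gfr j y).comp (rotF l)).map v - y‖ ≤ (‖v‖ + 3 / 16) * sc j := by
  have h3 := gfr_near j y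
  have h4 : ‖(gfr j y).a * (rotF l).map v‖ = sc j * ‖v‖ := by
    rw [norm_mul, norm_gfr_a, norm_rotF_map]
  rw [Fr.comp_map, Fr.map_apply, add_sub_assoc]
  have h6 := norm_add_le ((gfr j y).a * (rotF l).map v) ((gfr j y).z - y)
  have h7 := norm_sub_le ((gfr j y).a * (rotF l).map v + ((gfr j y).z - y)) ((gfr j y).z - y)
  rw [add_sub_cancel_right] at h7
  rw [h4] at h6 h7
  constructor <;> linarith

theorem qiProd_sc {i j : ℕ} (h : i < j) : 256 * sc j ≤ sc i := by
  have h1 : (256 : ℝ) ^ (i + 1) ≤ 256 ^ j := pow_le_pow_right₀ (by norm_num) h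
  have h2 := one_div_le_one_div_of_le (by positivity) h1
  have h3 : sc i = 256 * (1 / 256 ^ (i + 1)) := by
    rw [sc, pow_succ]
    field_simp
  rw [h3, sc]
  linarith

theorem gfr_mapsTo {j : ℕ} (hj : 1 ≤ j) {y : ℂ} (hy : ‖y‖ ≤ 398 / 100) (l : ℕ) :
    MapsTo ((gfr j y).comp (rotF l)).map U0 U0 := by
  intro v hv
  rw [U0, mem_ball_zero_iff] at hv ⊢
  have h1 := (qiProd_geom j y l v).2
  have h2 : 256 * sc j ≤ sc 0 := qiProd_sc hj
  have h3 : sc 0 = 1 := by simp [sc]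
  have h4 := norm_add_le (((gfr j y).comp (rotF l)).map v - y) y
  rw [sub_add_cancel] at h4
  have h5 := sc_pos j
  nlinarith

/-- the bars of different depths around one point are disjoint -/
theorem gfr_disjoint {i j : ℕ} (hij : i ≠ j) (y : ℂ) (l l' : ℕ) :
    Disjoint (((gfr i y).comp (rotF l)).map '' Tp.1) (((gfr j y).comp (rotF l')).map '' Tp.1) := by
  have key : ∀ {i j : ℕ}, i < j → ∀ l l' : ℕ,
      Disjoint (((gfr i y).comp (rotF l)).map '' Tp.1) (((gfr j y).comp (rotF l')).map '' Tp.1) := by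
    intro i j h l l'
    rw [disjoint_left]
    rintro _ ⟨v, hv, rfl⟩ ⟨w, hw, e⟩
    have h1 := (qiProd_geom i y l v).1
    have h2 := (qiProd_geom j y l' w).2
    have h3 := (Tp_subset hv).1
    have h4 := (Tp_subset hw).2
    rw [sub_zero] at h3 h4
    rw [e] at h2
    have h5 := qiProd_sc h
    have h6 := sc_pos i
    have h7 := sc_pos j
    nlinarith
  rcases hij.lt_or_gt with h | h
  · exact key h l l'
  · exact (key h l' l).symm

theorem gfr_image_subset (j : ℕ) (y : ℂ) (l : ℕ) :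
    ((gfr j y).comp (rotF l)).map '' U0 ⊆ ball y (5 * sc j) := by
  rintro _ ⟨v, hv, rfl⟩
  rw [U0, mem_ball_zero_iff] at hv
  have h1 := (qiProd_geom j y l v).2
  have h5 := sc_pos j
  rw [mem_ball, dist_eq_norm]
  nlinarith

/-- conditional independence of finitely many events -/
theorem Regime.indep_fin (R : Regime ν) {ι : Type} (J : Finset ι) (U : ι → Set ℂ)
    (E : ι → Set Sys) (hU : ∀ i ∈ J, Nice (U i))
    (hd : ∀ i ∈ J, ∀ j ∈ J, i ≠ j → Disjoint (U i) (U j))
    (hE : ∀ i ∈ J, MeasurableSet[SS (U i)] (E i)) :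
    ∀ᵐ k ∂nuh ν, R.K k (⋂ i ∈ J, E i) = ∏ i ∈ J, R.K k (E i) := by
  classical
  have := R.markov
  induction J using Finset.induction_on with
  | empty => exact Eventually.of_forall fun k => by simp
  | insert a J ha ih =>
    have hs : ∀ i ∈ J, i ∈ insert a J := fun i hi => Finset.mem_insert_of_mem hi
    have h1 := ih (fun i hi => hU i (hs i hi)) (fun i hi j hj => hd i (hs i hi) j (hs j hj))
      fun i hi => hE i (hs i hi)
    have h2 := R.indep (U a) (⋃ i ∈ J, U i) (hU a (Finset.mem_insert_self a J))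
      (disjoint_iUnion₂_right.2 fun i hi => hd a (Finset.mem_insert_self a J) i (hs i hi)
        fun e => ha (e ▸ hi)) (E a) (⋂ i ∈ J, E i) (hE a (Finset.mem_insert_self a J))
      (Finset.measurableSet_biInter J fun i hi =>
        SS_mono (subset_iUnion₂ (s := fun i (_ : i ∈ J) => U i) i hi) _ (hE i (hs i hi)))
    filter_upwards [h1, h2] with k h3 h4
    rw [Finset.set_biInter_insert, h4, h3, Finset.prod_insert ha]

theorem Regime.loc_fun (R : Regime ν) {U : Set ℂ} (hU : Nice U) {f : Sys → ℝ≥0∞}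
    (hf : Measurable[SS U] f) :
    ∃ G : Dist → ℝ≥0∞, Loc U G ∧ ∀ᵐ k ∂nuh ν, ∫⁻ s, f s ∂(R.K k) = G k := by
  refine @Measurable.ennreal_induction Sys (SS U)
    (fun f => ∃ G : Dist → ℝ≥0∞, Loc U G ∧ ∀ᵐ k ∂nuh ν, ∫⁻ s, f s ∂(R.K k) = G k)
    (fun c E hE => ?_) (fun f g _ hf _ h1 h2 => ?_) (fun f hf hm h => ?_) f hf
  · obtain ⟨G, h1, h2⟩ := R.loc U hU E hE
    refine ⟨fun k => c * G k, Measurable.const_mul h1 c, ?_⟩
    filter_upwards [h2] with k hk
    rw [lintegral_indicator_const (SS_le U _ hE), hk]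
  · obtain ⟨G, h3, h4⟩ := h1
    obtain ⟨G', h5, h6⟩ := h2
    refine ⟨fun k => G k + G' k, Measurable.add h3 h5, ?_⟩
    filter_upwards [h4, h6] with k h7 h8
    simp only [Pi.add_apply]
    rw [lintegral_add_left (hf.mono (SS_le U) le_rfl), h7, h8]
  · choose G h1 h2 using h
    refine ⟨fun k => ⨆ n, G n k, Measurable.iSup h1, ?_⟩
    filter_upwards [ae_all_iff.2 h2] with k hk
    rw [lintegral_iSup (fun n => (hf n).mono (SS_le U) le_rfl) hm]
    exact iSup_congr hk

/-- Extension of a product formula from sets to functions. -/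
theorem qiProd_ext (R : Regime ν) {V : Set ℂ} {f : Sys → ℝ≥0∞} (hf : Measurable f)
    (h : ∀ E, MeasurableSet[SS V] E → ∀ᵐ k ∂nuh ν,
      ∫⁻ s in E, f s ∂(R.K k) = (∫⁻ s, f s ∂(R.K k)) * R.K k E) {g : Sys → ℝ≥0∞}
    (hg : Measurable[SS V] g) :
    ∀ᵐ k ∂nuh ν, ∫⁻ s, f s * g s ∂(R.K k) = (∫⁻ s, f s ∂(R.K k)) * ∫⁻ s, g s ∂(R.K k) := by
  refine @Measurable.ennreal_induction Sys (SS V) (fun g => ∀ᵐ k ∂nuh ν,
      ∫⁻ s, f s * g s ∂(R.K k) = (∫⁻ s, f s ∂(R.K k)) * ∫⁻ s, g s ∂(R.K k))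
    (fun c E hE => ?_) (fun g g' _ hg _ h1 h2 => ?_) (fun g hg hm h => ?_) g hg
  · filter_upwards [h E hE] with k hk
    have e : (fun s => f s * E.indicator (fun _ => c) s) = E.indicator fun s => f s * c := by
      funext s
      by_cases hs : s ∈ E <;> simp [hs]
    rw [e, lintegral_indicator (SS_le V _ hE), lintegral_mul_const _ hf, hk,
      lintegral_indicator_const (SS_le V _ hE), mul_assoc, mul_comm c]
  · filter_upwards [h1, h2] with k h3 h4
    have h5 := hg.mono (SS_le V) le_rfl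
    simp only [Pi.add_apply, mul_add]
    rw [lintegral_add_left (hf.fun_mul h5), lintegral_add_left h5, h3, h4, mul_add]
  · filter_upwards [ae_all_iff.2 h] with k hk
    have h5 := fun n => (hg n).mono (SS_le V) le_rfl
    simp only [ENNReal.mul_iSup]
    rw [lintegral_iSup (fun n => hf.fun_mul (h5 n)) (fun a b hab s => mul_le_mul_right (hm hab s) _),
      lintegral_iSup h5 hm, ENNReal.mul_iSup]
    exact iSup_congr hk

theorem Regime.indep_fun (R : Regime ν) {U V : Set ℂ} (hU : Nice U) (hd : Disjoint U V)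
    {f g : Sys → ℝ≥0∞} (hf : Measurable[SS U] f) (hg : Measurable[SS V] g) :
    ∀ᵐ k ∂nuh ν, ∫⁻ s, f s * g s ∂(R.K k) = (∫⁻ s, f s ∂(R.K k)) * ∫⁻ s, g s ∂(R.K k) := by
  refine qiProd_ext R (hf.mono (SS_le U) le_rfl) (fun E hE => ?_) hg
  have hE' := SS_le V _ hE
  have h1 := qiProd_ext R (V := U) (f := E.indicator 1) (measurable_one.indicator hE')
    (fun E' hE'' => ?_) hf
  · filter_upwards [h1] with k hk
    have e : (fun s => E.indicator (1 : Sys → ℝ≥0∞) s * f s) = E.indicator f := by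
      funext s
      by_cases hs : s ∈ E <;> simp [hs]
    rw [e, lintegral_indicator hE', lintegral_indicator_one hE'] at hk
    rw [hk, mul_comm]
  · filter_upwards [R.indep U V hU hd E' E hE'' hE] with k hk
    rw [lintegral_indicator_one hE', lintegral_indicator_one hE', Measure.restrict_apply hE',
      inter_comm, hk, mul_comm]

/-- almost sure local events hold in every frame -/
theorem Regime.ae_pull (hν : IsCanon ν) (R : Regime ν) {E : Set Sys}
    (hE : MeasurableSet[SS U0] E) (h : ∀ᵐ k ∂nuh ν, ∀ᵐ s ∂(R.K k), s ∈ E) :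
    ∀ᵐ k ∂nuh ν, ∀ᵐ s ∂(R.K k), ∀ F : Fr, MapsTo F.map U0 U0 → pull F s ∈ E := by
  have := id_countable_fr
  simp only [ae_all_iff]
  intro F hF
  filter_upwards [R.cov F hF Eᶜ hE.compl, (absF_qmp hν F).ae h] with k h1 h2
  rw [ae_iff] at h2 ⊢
  exact h1.trans h2

end Pool.Agent.QL
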